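import Pool.Agent.Helper84.TN.Rank

/-!
# Univariate polynomials over an extension field: small unfolding ranks and independent values
-/

set_option autoImplicit false

namespace Pool.Agent.Helper1.LR

open Finset Module Polynomial Pool.Agent.Helper84.TN

section General

variable {ι β K E : Type} [DecidableEq ι] [Finite ι] [Finite β] [Field K] [Field E] [Algebra K E]

omit [DecidableEq ι] [Finite ι] [Finite β] in
lemma deg_C_mul (c : E) (g : E[X]) : (C c * g).degree ≤ g.degree := by
  calc (C c * g).degree ≤ (C c).degree + g.degree := degree_mul_le _ _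
    _ ≤ 0 + g.degree := add_le_add degree_C_le le_rfl
    _ = g.degree := zero_add _

/-- the functions `φ (g (z w))`, `g` a polynomial over `E` of degree less than `M` -/
noncomputable def Un (z : (ι → β) → E) (φ : E →ₗ[K] K) (M : ℕ) :
    Submodule K ((ι → β) → K) where
  carrier := {f | ∃ g : E[X], g.degree < M ∧ ∀ w, f w = φ (g.eval (z w))}
  add_mem' := by
    rintro f f' ⟨g, hg, h⟩ ⟨g', hg', h'⟩
    exact ⟨g + g', (degree_add_le _ _).trans_lt (max_lt hg hg'), fun w => by
      rw [Pi.add_apply, h, h', eval_add, map_add]⟩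
  zero_mem' := ⟨0, by rw [degree_zero]; exact WithBot.bot_lt_coe M, fun w => by simp⟩
  smul_mem' := by
    rintro c f ⟨g, hg, h⟩
    refine ⟨C (algebraMap K E c) * g, ?_, fun w => ?_⟩
    · exact (deg_C_mul _ _).trans_lt hg
    · rw [Pi.smul_apply, h, eval_mul, eval_C, ← Algebra.smul_def, map_smul]

theorem rk_un [FiniteDimensional K E] {z : (ι → β) → E} {φ : E →ₗ[K] K} {M : ℕ}
    {f : (ι → β) → K} (hf : f ∈ Un z φ M) (D : Finset ι) (a b : (ι → β) → E)
    (hz : ∀ v w, z (D.piecewise v w) = a v + b w) : rk f D ≤ M * finrank K E := by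
  classical
  obtain ⟨g, hg, hfg⟩ := hf
  set e := finBasis K E with he
  have h1 : Submodule.span K (Set.range (row f D)) ≤ Submodule.span K
      (Set.range fun p : Fin M × Fin (finrank K E) => fun w => φ (e p.2 * b w ^ (p.1 : ℕ))) := by
    rw [Submodule.span_le]
    rintro _ ⟨v, rfl⟩
    have h2 : row f D v = ∑ p : Fin M × Fin (finrank K E),
        (e.repr ((taylor (a v) g).coeff p.1) p.2) • fun w => φ (e p.2 * b w ^ (p.1 : ℕ)) := by
      funext w
      have h3 : row f D v w = φ (g.eval (b w + a v)) := by
        unfold row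
        rw [hfg, hz, add_comm]
      rw [h3, ← taylor_eval]
      have h4 : (taylor (a v) g).natDegree < M ∨ M = 0 := by
        rcases Nat.eq_zero_or_pos M with h | h
        · exact Or.inr h
        · left
          rw [natDegree_taylor]
          rcases eq_or_ne g 0 with h0 | h0
          · rw [h0, natDegree_zero]
            exact h
          · exact (natDegree_lt_iff_degree_lt h0).2 hg
      rcases h4 with h4 | h4
      · rw [eval_eq_sum_range' h4, map_sum, Finset.sum_apply, Fintype.sum_prod_type,
          ← Fin.sum_univ_eq_sum_range fun j => φ ((taylor (a v) g).coeff j * b w ^ j)]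
        refine sum_congr rfl fun j _ => ?_
        have h5 : (taylor (a v) g).coeff j =
            ∑ l, e.repr ((taylor (a v) g).coeff j) l • e l := (e.sum_repr _).symm
        conv_lhs => rw [h5]
        rw [sum_mul, map_sum]
        refine sum_congr rfl fun l _ => ?_
        rw [smul_mul_assoc, map_smul, Pi.smul_apply]
      · have h0 : g = 0 := by
          rw [h4] at hg
          by_contra h0
          rw [degree_eq_natDegree h0] at hg
          exact absurd (WithBot.coe_lt_coe.1 hg) (Nat.not_lt_zero _)
        rw [h0]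
        simp
    rw [h2]
    exact Submodule.sum_mem _ fun p _ => Submodule.smul_mem _ _ (Submodule.subset_span ⟨p, rfl⟩)
  refine (Submodule.finrank_mono h1).trans ((finrank_range_le_card _).trans (le_of_eq ?_))
  rw [Fintype.card_prod, Fintype.card_fin, Fintype.card_fin]

theorem iso_un {z : (ι → β) → E} {φ : E →ₗ[K] K} {M : ℕ} (hφ : ∃ y, φ y = 1)
    (S : Finset (ι → β)) (w₀ : ι → β) (hS : ∀ w ∈ S, z w ≠ z w₀) (hc : #S < M) :
    ∃ f ∈ Un z φ M, f w₀ = 1 ∧ ∀ w ∈ S, f w = 0 := by
  classical
  obtain ⟨y, hy⟩ := hφ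
  set g : E[X] := C y * ∏ w ∈ S, (C (z w₀ - z w)⁻¹ * (X - C (z w))) with hg
  refine ⟨fun w => φ (g.eval (z w)), ⟨g, ?_, fun w => rfl⟩, ?_, fun w hw => ?_⟩
  · have h1 : g.degree ≤ #S := by
      rw [hg]
      refine (deg_C_mul _ _).trans ?_
      rw [degree_prod]
      calc ∑ w ∈ S, (C (z w₀ - z w)⁻¹ * (X - C (z w))).degree ≤ ∑ w ∈ S, (1 : WithBot ℕ) := by
            refine sum_le_sum fun w _ => (deg_C_mul _ _).trans ?_
            exact degree_X_sub_C_le _
        _ = #S := by
            rw [sum_const, nsmul_eq_mul, mul_one]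
    exact h1.trans_lt (by exact_mod_cast hc)
  · have h2 : g.eval (z w₀) = y := by
      rw [hg, eval_mul, eval_C, eval_prod]
      rw [prod_eq_one fun w hw => ?_, mul_one]
      rw [eval_mul, eval_C, eval_sub, eval_X, eval_C]
      exact inv_mul_cancel₀ (sub_ne_zero.2 (Ne.symm (hS w hw)))
    change φ (g.eval (z w₀)) = 1
    rw [h2, hy]
  · have h2 : g.eval (z w) = 0 := by
      rw [hg, eval_mul, eval_prod, prod_eq_zero hw, mul_zero]
      rw [eval_mul, eval_sub, eval_X, eval_C, eval_C, sub_self, mul_zero]
    change φ (g.eval (z w)) = 0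
    rw [h2, map_zero]

end General

end Pool.Agent.Helper1.LR
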