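import Pool.Agent.Helper1.LR.Step
import Pool.Agent.Helper1.LR.Uni

/-!
# Doubling the length, with univariate polynomials over a large field
-/

set_option autoImplicit false

namespace Pool.Agent.Helper1.LR

open Finset Module Pool.Agent.Helper84.TN Pool.Agent.Helper1.TY Pool.Agent.Helper45.TY

/-- thinning a set by random functions of a linear space -/
theorem exists_thinW {n M t κ : ℕ} (hM : 1 ≤ M) (W : Finset ((Fin n → Fin 2) → ZMod 2))
    (hadd : ∀ g ∈ W, ∀ h ∈ W, g + h ∈ W) (hWne : W.Nonempty)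
    (hiso : ∀ (E : Finset (Fin n → Fin 2)) (x₀ : Fin n → Fin 2), x₀ ∉ E → #E < M →
      ∃ g ∈ W, g x₀ = 1 ∧ ∀ x ∈ E, g x = 0) (Y : Finset ℕ) (hY : Y.Nonempty)
    (hlt : ∀ x ∈ Y, x < 2 ^ n) (hrep : ∀ N, rpF Y N ≤ κ)
    (hcount : 2 * (2 ^ (n + 1) * κ ^ M) * 2 ^ t ≤ 2 ^ (t * M)) :
    ∃ P : Fin t → (Fin n → Fin 2) → ZMod 2,
      (∀ l, P l ∈ W) ∧
      #Y ≤ 2 ^ (t + 1) * #{w : Fin n → Fin 2 | LR.value w ∈ Y ∧ ∀ l, P l w = 1} ∧
      ∀ N, #{w : Fin n → Fin 2 | (LR.value w ∈ Y ∧ ∀ l, P l w = 1) ∧ LR.value w ≤ N ∧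
        N - LR.value w ∈ Y} < M := by
  classical
  set X : Finset (Fin n → Fin 2) := {w | LR.value w ∈ Y} with hX
  set C : ℕ → Finset (Fin n → Fin 2) := fun N => {w | LR.value w ∈ Y ∧ LR.value w ≤ N ∧
    N - LR.value w ∈ Y} with hC
  have hCc : ∀ N, #(C N) ≤ κ := by
    intro N
    refine le_trans ?_ (hrep N)
    unfold rpF
    refine card_le_card_of_injOn (fun w => (LR.value w, N - LR.value w)) ?_ ?_
    · intro w hw
      rw [hC, mem_coe, mem_filter] at hw
      obtain ⟨-, h1, h2, h3⟩ := hw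
      rw [mem_coe, mem_filter, mem_product]
      exact ⟨⟨h1, h3⟩, by simp only; omega⟩
    · intro w _ w' _ h
      exact value_inj (Prod.mk.inj h).1
  set Bad : Finset (Finset (Fin n → Fin 2)) :=
    (range (2 ^ (n + 1))).biUnion fun N => powersetCard M (C N) with hBad
  have hBc : #Bad ≤ 2 ^ (n + 1) * κ ^ M := by
    refine card_biUnion_le.trans ?_
    calc ∑ N ∈ range (2 ^ (n + 1)), #(powersetCard M (C N)) ≤
        ∑ _N ∈ range (2 ^ (n + 1)), κ ^ M := by
          refine sum_le_sum fun N _ => ?_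
          rw [card_powersetCard]
          exact (Nat.choose_le_pow _ _).trans (Nat.pow_le_pow_left (hCc N) _)
      _ = 2 ^ (n + 1) * κ ^ M := by
          rw [sum_const, card_range, smul_eq_mul]
  have hXY : #X = #Y := by
    refine card_bij (fun w _ => LR.value w) ?_ ?_ ?_
    · intro w hw
      rw [hX, mem_filter] at hw
      exact hw.2
    · intro w _ w' _ h
      exact value_inj h
    · intro x hx
      obtain ⟨w, hw⟩ := exists_value (hlt x hx)
      refine ⟨w, ?_, hw⟩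
      rw [hX, mem_filter, hw]
      exact ⟨mem_univ _, hx⟩
  obtain ⟨P, hP1, hP2, hP3⟩ := exists_tuple W hadd hWne (M := M) (t := t) hM hiso X (card_pos.1 (by rw [hXY]; exact card_pos.2 hY)) Bad
    (fun E hE => by
      rw [hBad, mem_biUnion] at hE
      obtain ⟨N, _, hE⟩ := hE
      exact (mem_powersetCard.1 hE).2) (by
      calc 2 * #Bad * 2 ^ t ≤ 2 * (2 ^ (n + 1) * κ ^ M) * 2 ^ t := by
            gcongr
        _ ≤ 2 ^ (t * M) := hcount)
  refine ⟨P, hP1, ?_, ?_⟩
  · rw [hXY] at hP3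
    refine hP3.trans (le_of_eq ?_)
    rw [hX, filter_filter]
  · intro N
    by_contra hcon
    push Not at hcon
    obtain ⟨E, hE1, hE3⟩ := exists_subset_card_eq hcon
    have hEmem : ∀ w ∈ E, (LR.value w ∈ Y ∧ ∀ l, P l w = 1) ∧ LR.value w ≤ N ∧
        N - LR.value w ∈ Y := fun w hw => (mem_filter.1 (hE1 hw)).2
    refine hP2 E ?_ fun l w hw => (hEmem w hw).1.2 l
    rw [hBad, mem_biUnion]
    refine ⟨N, ?_, mem_powersetCard.2 ⟨fun w hw => ?_, hE3⟩⟩
    · obtain ⟨w, hw⟩ : E.Nonempty := card_pos.1 (by omega)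
      obtain ⟨⟨h1, -⟩, h2, h3⟩ := hEmem w hw
      have h4 := hlt _ h1
      have h5 := hlt _ h3
      rw [mem_range, pow_succ]
      omega
    · obtain ⟨⟨h1, -⟩, h2, h3⟩ := hEmem w hw
      rw [hC, mem_filter]
      exact ⟨mem_univ _, h1, h2, h3⟩


/-- a linear space of functions with independent values at any `M` words, of unfolding rank at most
`M n` for every set of positions -/
theorem exists_space (n M : ℕ) (hn : 1 ≤ n) : ∃ W : Finset ((Fin n → Fin 2) → ZMod 2),
    (∀ g ∈ W, ∀ h ∈ W, g + h ∈ W) ∧ W.Nonempty ∧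
    (∀ (E : Finset (Fin n → Fin 2)) (x₀ : Fin n → Fin 2), x₀ ∉ E → #E < M →
      ∃ g ∈ W, g x₀ = 1 ∧ ∀ x ∈ E, g x = 0) ∧
    ∀ g ∈ W, ∀ D : Finset (Fin n), rk g D ≤ M * n := by
  have hc0 : ∀ d d' : Fin 2, ((d : ℕ) : ZMod 2) = ((d' : ℕ) : ZMod 2) → d = d' := by decide
  classical
  haveI : Fact (Nat.Prime 2) := ⟨Nat.prime_two⟩
  let F := GaloisField 2 n
  have hfr : finrank (ZMod 2) F = n := GaloisField.finrank 2 (by omega)
  haveI : FiniteDimensional (ZMod 2) F := FiniteDimensional.of_finrank_pos (by omega)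
  let b : Basis (Fin n) (ZMod 2) F := finBasisOfFinrankEq (ZMod 2) F hfr
  let c : Fin 2 → ZMod 2 := fun d => ((d : ℕ) : ZMod 2)
  have hc : ∀ d d' : Fin 2, c d = c d' → d = d' := hc0
  let z : (Fin n → Fin 2) → F := fun w => ∑ i, c (w i) • b i
  let φ : F →ₗ[ZMod 2] ZMod 2 := b.coord ⟨0, hn⟩
  have hz : Function.Injective z := by
    intro w w' h
    funext i
    apply hc
    have h1 : ∀ u : Fin n → Fin 2, b.repr (z u) i = c (u i) := fun u =>
      congrFun (b.repr_sum_self fun i => c (u i)) i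
    rw [← h1 w, ← h1 w', h]
  refine ⟨univ.filter (· ∈ Un z φ M), fun g hg h hh => ?_, ⟨0, ?_⟩, fun E x₀ hx₀ hE => ?_,
    fun g hg D => ?_⟩
  · rw [mem_filter] at hg hh ⊢
    exact ⟨mem_univ _, Submodule.add_mem _ hg.2 hh.2⟩
  · rw [mem_filter]
    exact ⟨mem_univ _, Submodule.zero_mem _⟩
  · obtain ⟨f, hf, h1, h2⟩ := iso_un (z := z) (φ := φ) (M := M) ⟨b ⟨0, hn⟩, by
      simp [φ]⟩ E x₀ (fun w hw h => hx₀ (by rwa [← hz h])) hE
    exact ⟨f, mem_filter.2 ⟨mem_univ _, hf⟩, h1, h2⟩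
  · have h1 := rk_un (mem_filter.1 hg).2 D (fun v => ∑ i ∈ D, c (v i) • b i)
      (fun w => ∑ i ∈ Dᶜ, c (w i) • b i) (fun v w => by
        change ∑ i, c (D.piecewise v w i) • b i = _
        rw [← sum_add_sum_compl D]
        congr 1
        · refine sum_congr rfl fun i hi => ?_
          rw [piecewise_eq_of_mem _ _ _ hi]
        · refine sum_congr rfl fun i hi => ?_
          rw [piecewise_eq_of_notMem _ _ _ (mem_compl.1 hi)])
    rwa [hfr] at h1

/-- **The step.** -/
theorem step2 {n M t r R : ℕ} (hn : 1 ≤ n) (hM : 1 ≤ M)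
    (hcount : 2 * (2 ^ (n + n + 1) * (r ^ 2) ^ M) * 2 ^ t ≤ 2 ^ (t * M))
    {Y : Finset ℕ} {f : (Fin n → Fin 2) → ZMod 2} (h : Good n r R Y f) :
    ∃ (Y' : Finset ℕ) (f' : (Fin (n + n) → Fin 2) → ZMod 2),
      Good (n + n) (M - 1) (R * (M * (n + n)) ^ t) Y' f' ∧
        #Y ^ 2 ≤ 2 ^ (t + 1) * #Y' := by
  classical
  have hb : 0 < 2 ^ n := by positivity
  set Z := blk (2 ^ n) Y 2 with hZ
  have hZc : #Z = #Y ^ 2 := card_blk hb h.lt 2
  have hZlt : ∀ x ∈ Z, 2 * x < 2 ^ (n + n) := by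
    intro x hx
    rw [hZ, mem_blk_succ hb h.lt, mem_blk_succ hb h.lt] at hx
    obtain ⟨h1, h2, h3⟩ := hx
    have h4 := h.lt _ h1
    have h5 := h.lt _ h2
    have h6 : x / 2 ^ n / 2 ^ n = 0 := by
      simpa [blk] using h3
    have h7 : x / 2 ^ n < 2 ^ n := by
      rcases (Nat.div_eq_zero_iff).1 h6 with h | h
      · omega
      · exact h
    rw [Nat.mod_eq_of_lt h7] at h5
    have h8 := Nat.div_add_mod x (2 ^ n)
    rw [pow_add]
    nlinarith
  have hZrep : ∀ N, rpF Z N ≤ r ^ 2 := rp_blk hb h.lt h.rep 2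
  obtain ⟨W, hadd, hWne, hiso, hrk⟩ := exists_space (n + n) M (by omega)
  obtain ⟨P, hP1, hP2, hP3⟩ := exists_thinW (n := n + n) hM W hadd hWne hiso Z
    (card_pos.1 (by rw [hZc]; exact pow_pos (card_pos.2 h.ne) 2))
    (fun x hx => by have := hZlt x hx; omega) hZrep hcount
  have hmemZ : ∀ w : Fin (n + n) → Fin 2, LR.value w ∈ Z ↔
      LR.value (fun i => w (Fin.castAdd n i)) ∈ Y ∧
        LR.value (fun i => w (Fin.natAdd n i)) ∈ Y := by
    intro w
    have e1 := value_lt fun i => w (Fin.castAdd n i)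
    have e2 := value_lt fun i => w (Fin.natAdd n i)
    rw [hZ, mem_blk_succ hb h.lt, mem_blk_succ hb h.lt, value_add, Nat.add_mul_mod_self_left,
      Nat.mod_eq_of_lt e1, Nat.add_mul_div_left _ _ hb, Nat.div_eq_of_lt e1, zero_add,
      Nat.mod_eq_of_lt e2, Nat.div_eq_of_lt e2]
    simp [blk]
  set S : Finset ℕ := Finset.image LR.value
    ({w | LR.value w ∈ Z ∧ ∀ l, P l w = 1} : Finset (Fin (n + n) → Fin 2)) with hS
  have hmemS : ∀ w : Fin (n + n) → Fin 2, LR.value w ∈ S ↔ LR.value w ∈ Z ∧ ∀ l, P l w = 1 := by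
    intro w
    rw [hS, mem_image]
    constructor
    · rintro ⟨w', hw', h⟩
      rw [value_inj h] at hw'
      exact (mem_filter.1 hw').2
    · intro h
      exact ⟨w, mem_filter.2 ⟨mem_univ _, h⟩, rfl⟩
  have hSZ : ∀ x ∈ S, x ∈ Z := by
    intro x hx
    rw [hS, mem_image] at hx
    obtain ⟨w, hw, rfl⟩ := hx
    exact (mem_filter.1 hw).2.1
  have hSc : #S = #{w : Fin (n + n) → Fin 2 | LR.value w ∈ Z ∧ ∀ l, P l w = 1} :=
    card_image_of_injective _ value_inj
  have hcard : #Y ^ 2 ≤ 2 ^ (t + 1) * #S := by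
    rw [← hZc, hSc]
    exact hP2
  have hprod : ∀ w : Fin (n + n) → Fin 2, (∏ l, P l) w ≠ 0 ↔ ∀ l, P l w = 1 := by
    intro w
    have h01 : ∀ t : ZMod 2, t ≠ 0 ↔ t = 1 := by decide
    rw [prod_apply, prod_ne_zero_iff]
    simp only [mem_univ, true_imp_iff, h01]
  refine ⟨S, (fun w => f fun i => w (Fin.castAdd n i)) * (fun w => f fun i => w (Fin.natAdd n i)) *
    ∏ l, P l, ⟨?_, fun a ha => hZlt a (hSZ a ha), ?_, ?_, ?_⟩, hcard⟩
  · rw [← card_pos]
    have h1 : 0 < #Y ^ 2 := pow_pos (card_pos.2 h.ne) 2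
    by_contra h2
    have h3 : #S = 0 := by omega
    rw [h3, mul_zero] at hcard
    omega
  · intro w
    rw [Pi.mul_apply, Pi.mul_apply, mul_ne_zero_iff, mul_ne_zero_iff, hprod, h.supp, h.supp, hmemS,
      hmemZ]
  · intro m
    refine Nat.le_sub_one_of_lt (lt_of_le_of_lt ?_ (hP3 m))
    unfold rpF
    refine card_le_card_of_surjOn (fun w => (LR.value w, m - LR.value w)) ?_
    rintro ⟨x, y⟩ hxy
    rw [mem_coe, mem_filter, mem_product] at hxy
    obtain ⟨⟨hx, hy⟩, hm⟩ := hxy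
    simp only at hx hy hm
    obtain ⟨w, hw⟩ := exists_value (n := n + n) (x := x) (by
      have := hZlt x (hSZ x hx)
      omega)
    refine ⟨w, ?_, ?_⟩
    · rw [mem_coe, mem_filter]
      refine ⟨mem_univ _, (hmemS w).1 (by rwa [hw]), by omega, ?_⟩
      rw [hw, show m - x = y by omega]
      exact hSZ y hy
    · simp only [hw, Prod.mk.injEq, true_and]
      omega
  · intro c
    refine (rk_mul _ _ _).trans (Nat.mul_le_mul ?_ ?_)
    · refine (rk_mul _ _ _).trans ?_
      have h1 := rk_pull (Fin.castAdd n) f (univ.filter fun i : Fin (n + n) => (i : ℕ) < c)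
      have h2 := rk_pull (Fin.natAdd n) f (univ.filter fun i : Fin (n + n) => (i : ℕ) < c)
      have e1 : (univ.filter fun i : Fin n => Fin.castAdd n i ∈
          univ.filter fun i : Fin (n + n) => (i : ℕ) < c) =
          univ.filter fun i : Fin n => (i : ℕ) < c := by
        ext i
        simp
      have e2 : (univ.filter fun i : Fin n => Fin.natAdd n i ∈
          univ.filter fun i : Fin (n + n) => (i : ℕ) < c) =
          univ.filter fun i : Fin n => (i : ℕ) < c - n := by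
        ext i
        simp only [mem_filter, mem_univ, true_and, Fin.val_natAdd]
        omega
      rw [e1] at h1
      rw [e2] at h2
      rcases Nat.le_total c n with hc | hc
      · have h3 : rk f (univ.filter fun i : Fin n => (i : ℕ) < c - n) ≤ 1 :=
          rk_all f _ (Or.inr (by
            ext i
            simp only [mem_filter, mem_univ, true_and, notMem_empty, iff_false]
            omega))
        calc _ ≤ R * 1 := Nat.mul_le_mul (h1.trans (h.rank c)) (h2.trans h3)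
          _ = R := mul_one R
      · have h3 : rk f (univ.filter fun i : Fin n => (i : ℕ) < c) ≤ 1 :=
          rk_all f _ (Or.inl (by
            ext i
            simp only [mem_filter, mem_univ, true_and, iff_true]
            have := i.2
            omega))
        calc _ ≤ 1 * R := Nat.mul_le_mul (h1.trans h3) (h2.trans (h.rank (c - n)))
          _ = R := one_mul R
    · refine (rk_prod _ _ _).trans ?_
      refine (prod_le_prod' fun l _ => hrk _ (hP1 l) _).trans ?_
      rw [prod_const, card_univ, Fintype.card_fin]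

end Pool.Agent.Helper1.LR
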