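import Pool.Agent.Helper1.LR.Multi
import Pool.Agent.Helper1.LR.Step2

/-!
# The hierarchical construction, with univariate polynomials
-/

set_option autoImplicit false

namespace Pool.Agent.Helper1.LR

open Finset Pool.Agent.Helper84.TN Pool.Agent.Helper1.TY Pool.Agent.Helper45.TY

/-- **The construction at level `h`.** -/
theorem levels2 {M L₀ : ℕ} {δ : ℝ} (hM : 3 ≤ M) (hδ : 0 ≤ δ) (hL : 2 ≤ (1 / 2 - δ) * L₀)
    (hL0 : 1 ≤ L₀) (h : ℕ) : ∀ n, n = 2 ^ h * L₀ → ∃ (Y : Finset ℕ) (f : (Fin n → Fin 2) → ZMod 2) (R T E : ℕ),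
      Good n (M - 1) R Y f ∧ R ≤ 2 ^ L₀ * (M * n) ^ T ∧
      (T : ℝ) ≤ 4 * n / M + h * (4 * Nat.clog 2 M + 3) ∧
      (E : ℝ) ≤ 2 * n * h / M + (2 ^ h - 1) * (4 * Nat.clog 2 M + 4) ∧
      (2 : ℝ) ^ (δ * n) ≤ #Y * 2 ^ E := by
  induction h with
  | zero =>
    intro n hn
    rw [pow_zero, one_mul] at hn
    subst hn
    obtain ⟨Y, f, h1, h2⟩ := base hM hδ hL
    refine ⟨Y, f, 2 ^ n, 0, 0, h1, ?_, ?_, ?_, ?_⟩
    · rw [pow_zero, mul_one]
    · push_cast
      positivity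
    · push_cast
      norm_num
    · rw [pow_zero, mul_one]
      exact h2
  | succ h ih =>
    intro n hn
    obtain ⟨Y, f, R, T, E, hG, hR, hT, hE, hS⟩ := ih _ rfl
    set m := 2 ^ h * L₀ with hm
    have hnm : n = m + m := by
      rw [hn, hm, pow_succ]
      ring
    subst hnm
    set ρ := Nat.clog 2 M with hρ
    have hMρ : M ≤ 2 ^ ρ := Nat.le_pow_clog (by norm_num) _
    have hm1 : 1 ≤ m := Nat.mul_pos (by positivity) hL0
    obtain ⟨Y', f', hG', hY'⟩ := step2 (t := tn M ρ (m + m)) hm1 (by omega : 1 ≤ M)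
      (tn_count hM hMρ) hG
    have hMr : (3 : ℝ) ≤ M := by exact_mod_cast hM
    have ht := tn_le (ρ := ρ) (n := m + m) hM
    refine ⟨Y', f', _, T + tn M ρ (m + m), 2 * E + tn M ρ (m + m) + 1, hG', ?_, ?_, ?_, ?_⟩
    · calc R * (M * (m + m)) ^ tn M ρ (m + m) ≤
          2 ^ L₀ * (M * (m + m)) ^ T * (M * (m + m)) ^ tn M ρ (m + m) := by
            refine Nat.mul_le_mul_right _ (hR.trans ?_)
            gcongr
            omega
        _ = 2 ^ L₀ * (M * (m + m)) ^ (T + tn M ρ (m + m)) := by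
            rw [mul_assoc, ← pow_add]
    · push_cast at ht ⊢
      have e1 : 4 * ((m : ℝ) + m) / M = 4 * m / M + 2 * (m + m) / M := by ring
      rw [e1]
      linarith
    · push_cast at ht ⊢
      have e1 : 2 * ((m : ℝ) + m) * (h + 1) / M = 2 * (2 * m * h / M) + 2 * (m + m) / M := by ring
      rw [e1, pow_succ]
      linarith
    · have e1 : (2 : ℝ) ^ (δ * ((m + m : ℕ) : ℝ)) = ((2 : ℝ) ^ (δ * (m : ℝ))) ^ 2 := by
        rw [← Real.rpow_natCast _ 2, ← Real.rpow_mul (by norm_num)]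
        congr 1
        push_cast
        ring
      have e2 : ((#Y : ℝ)) ^ 2 ≤ 2 ^ (tn M ρ (m + m) + 1) * #Y' := by exact_mod_cast hY'
      rw [e1]
      calc ((2 : ℝ) ^ (δ * (m : ℝ))) ^ 2 ≤ (#Y * 2 ^ E) ^ 2 :=
            pow_le_pow_left₀ (by positivity) hS 2
        _ = (#Y : ℝ) ^ 2 * 2 ^ (2 * E) := by
            rw [mul_pow, ← pow_mul]
            ring
        _ ≤ 2 ^ (tn M ρ (m + m) + 1) * #Y' * 2 ^ (2 * E) := by gcongr
        _ = #Y' * 2 ^ (2 * E + tn M ρ (m + m) + 1) := by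
            ring

end Pool.Agent.Helper1.LR
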