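import Pool.Agent.Helper1.LR.All
import Pool.Agent.Helper1.LR.Multi2

/-!
# Sharpness of the bound for the rank along a tree, with univariate polynomials
-/

set_option autoImplicit false

namespace Pool.Agent.Helper1.LR

open Finset
open Pool.Agent.Helper84.TN (rk size)

/-- **Sharpness.** -/
theorem sharp_all2 (d : ℝ) (hd0 : 0 ≤ d) (hd : d < 1 / 2) :
    ∃ C : ℝ, 0 < C ∧ ∀ n M : ℕ, 2 ≤ n → C * Real.log n ≤ M → M ≤ n →
      ∃ (A : Set ℕ) (f : (Fin n → Fin 2) → ZMod 2) (T : Helper84.TN.Tree (Fin n)),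
        T.Proper ∧ T.set = Finset.univ ∧
        (∀ D ∈ T.blocks, (rk f D : ℝ) ≤
          Real.exp (C * (n / M + Real.log n ^ 2) * Real.log n)) ∧
        (∀ v, f v ≠ 0 ↔ Pool.Agent.Helper84.TN.value v ∈ A) ∧ (∀ a ∈ A, a < 2 ^ n) ∧
        (2 : ℝ) ^ (d * n) ≤ size f ∧ ∀ m, Pool.Agent.Helper82.CF.rep A m ≤ M := by
  set ε : ℝ := (1 / 2 - d) / 2 with hε
  have hε0 : 0 < ε := by rw [hε]; linarith
  have hε4 : ε ≤ 1 / 4 := by rw [hε]; linarith
  set C1 : ℕ := ⌈9 / ε⌉₊ with hC1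
  have hC1r : 9 / ε ≤ C1 := Nat.le_ceil _
  have hC1e : 9 ≤ ε * C1 := by
    rw [div_le_iff₀ hε0] at hC1r
    linarith
  have hC10 : (0 : ℝ) ≤ C1 := Nat.cast_nonneg _
  have hC1p : (1 : ℝ) ≤ C1 := by nlinarith
  refine ⟨400 + 40 * C1, by positivity, ?_⟩
  intro n M hn hCM hMn
  have hn2 : (2 : ℝ) ≤ n := by exact_mod_cast hn
  have hn0 : (0 : ℝ) < n := by linarith
  set ℓ : ℝ := Real.log n with hℓ
  have hlog2 : (0.69 : ℝ) < Real.log 2 := by
    have := Real.log_two_gt_d9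
    linarith
  have hlog2' : Real.log 2 ≤ 1 := by
    have := Real.log_two_lt_d9
    linarith
  have hℓ2 : Real.log 2 ≤ ℓ := Real.log_le_log (by norm_num) hn2
  have hℓ0 : (0.69 : ℝ) ≤ ℓ := hlog2.le.trans hℓ2
  have hMr : (276 : ℝ) ≤ M := by nlinarith
  have hM3 : 3 ≤ M := by
    have : (3 : ℝ) ≤ M := by linarith
    exact_mod_cast this
  have hM0 : (0 : ℝ) < M := by linarith
  have hMnr : (M : ℝ) ≤ n := by exact_mod_cast hMn
  set ρ : ℕ := Nat.clog 2 M with hρ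
  have hρ1 : 1 ≤ ρ := by
    rw [hρ, Nat.one_le_iff_ne_zero]
    intro h0
    have h1 : M ≤ 2 ^ Nat.clog 2 M := Nat.le_pow_clog (by norm_num) _
    rw [h0, pow_zero] at h1
    omega
  have hρℓ : (ρ : ℝ) + 1 ≤ 5 * ℓ := by
    have h1 : 2 ^ (ρ - 1) < M := Nat.pow_pred_clog_lt_self (by norm_num) (by omega)
    have h2 : ((2 : ℝ) ^ (ρ - 1)) ≤ n := by
      have : ((2 ^ (ρ - 1) : ℕ) : ℝ) < M := by exact_mod_cast h1
      push_cast at this
      linarith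
    have h3 := Real.log_le_log (by positivity) h2
    rw [Real.log_pow] at h3
    have h4 : ((ρ - 1 : ℕ) : ℝ) = ρ - 1 := by
      rw [Nat.cast_sub hρ1]
      norm_num
    rw [h4] at h3
    have h5 : (1 : ℝ) ≤ ρ := by exact_mod_cast hρ1
    have h6 : ((ρ : ℝ) - 1) * 0.69 ≤ (ρ - 1) * Real.log 2 :=
      mul_le_mul_of_nonneg_left hlog2.le (by linarith)
    linarith
  set B : ℕ := C1 * (ρ + 1) with hB
  have hB1 : 1 ≤ B := by
    have : 1 ≤ C1 := by exact_mod_cast hC1p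
    exact Nat.mul_pos this (by omega)
  have hBr : (B : ℝ) = C1 * (ρ + 1) := by
    rw [hB]
    push_cast
    ring
  have hBℓ : (B : ℝ) ≤ 5 * C1 * ℓ := by
    rw [hBr]
    have := mul_le_mul_of_nonneg_left hρℓ hC10
    linarith
  have hBn : B ≤ n := by
    have h1 : (B : ℝ) ≤ n := by
      have : 0 ≤ C1 * ℓ := mul_nonneg hC10 (by linarith)
      nlinarith
    exact_mod_cast h1
  set h : ℕ := Nat.log 2 (n / B) with hh
  have hq : 0 < n / B := Nat.div_pos hBn (by omega)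
  have h1 : 2 ^ h ≤ n / B := Nat.pow_log_le_self 2 (by omega)
  have h2 : n / B < 2 ^ (h + 1) := Nat.lt_pow_succ_log_self (by norm_num) _
  have hp : 0 < 2 ^ h := by positivity
  set L₀ : ℕ := n / 2 ^ h with hL₀
  have h3 : 2 ^ h * B ≤ n := (Nat.le_div_iff_mul_le (by omega)).1 h1
  have h4 : B ≤ L₀ := (Nat.le_div_iff_mul_le hp).2 (by rw [mul_comm]; exact h3)
  have h5 : n < 2 ^ (h + 1) * B := (Nat.div_lt_iff_lt_mul (by omega)).1 h2
  have h6 : L₀ < 2 * B := (Nat.div_lt_iff_lt_mul hp).2 (by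
    rw [pow_succ] at h5
    calc n < 2 ^ h * 2 * B := h5
      _ = 2 * B * 2 ^ h := by ring)
  have h7 : 2 ^ h * L₀ ≤ n := Nat.mul_div_le _ _
  have h8 : n < 2 ^ h * (L₀ + 1) := Nat.lt_mul_div_succ _ hp
  have h4r : (B : ℝ) ≤ L₀ := by exact_mod_cast h4
  have h6r : (L₀ : ℝ) ≤ 2 * B := by exact_mod_cast h6.le
  have hρr : (1 : ℝ) ≤ ρ := by exact_mod_cast hρ1
  have hεL : 9 * (ρ + 1) ≤ ε * L₀ := by
    have e1 : ε * B ≤ ε * L₀ := mul_le_mul_of_nonneg_left h4r hε0.le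
    rw [hBr] at e1
    nlinarith
  have hδ : (0 : ℝ) ≤ d + ε := by linarith
  have hL : 2 ≤ (1 / 2 - (d + ε)) * (L₀ : ℝ) := by
    have e1 : (1 : ℝ) / 2 - (d + ε) = ε := by rw [hε]; ring
    rw [e1]
    linarith
  have hL1 : 1 ≤ L₀ := hB1.trans h4
  obtain ⟨Y, f', R, T, E, hG, hR, hT, hE, hS⟩ := levels2 hM3 hδ hL hL1 h _ rfl
  set n' : ℕ := 2 ^ h * L₀ with hn'
  have hn'r : (n' : ℝ) ≤ n := by exact_mod_cast h7
  have hn'e : (n' : ℝ) = 2 ^ h * L₀ := by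
    rw [hn']
    push_cast
    ring
  have hn'1 : 1 ≤ n' := Nat.mul_pos hp hL1
  have hMn' : 1 ≤ M * n' := Nat.mul_pos (by omega) hn'1
  have hR2 : 2 ≤ 2 ^ L₀ * (M * n') ^ T := by
    calc 2 = 2 ^ 1 * 1 := by norm_num
      _ ≤ 2 ^ L₀ * (M * n') ^ T :=
        Nat.mul_le_mul (Nat.pow_le_pow_right (by norm_num) hL1) (Nat.one_le_pow _ _ hMn')
  obtain ⟨f, T', hT1, hT2, hT3, hT4, hT5, hT6, hT7⟩ :=
    exists_tree_set (n := n) (by omega) h7 hR2 (hG.mono hR)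
  have hhℓ : (h : ℝ) ≤ 1.5 * ℓ := by
    have e1 : 2 ^ h ≤ n := h1.trans (Nat.div_le_self _ _)
    have e2 : (2 : ℝ) ^ h ≤ n := by exact_mod_cast e1
    have e3 := Real.log_le_log (by positivity) e2
    rw [Real.log_pow] at e3
    have e4 : (h : ℝ) * 0.69 ≤ h * Real.log 2 :=
      mul_le_mul_of_nonneg_left hlog2.le (Nat.cast_nonneg _)
    linarith
  refine ⟨(Y : Set ℕ), f, T', hT1, hT2, fun D hD => ?_, hT4, hT5, ?_, fun m =>
    (hT7 m).trans (Nat.sub_le _ _)⟩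
  · have e1 : (rk f D : ℝ) ≤ ((2 ^ L₀ * (M * n') ^ T : ℕ) : ℝ) := by
      exact_mod_cast hT3 D hD
    refine e1.trans ?_
    have hMn'r : (0 : ℝ) < M * n' := by exact_mod_cast hMn'
    have e2 : ((2 ^ L₀ * (M * n') ^ T : ℕ) : ℝ) =
        Real.exp (L₀ * Real.log 2 + T * Real.log (M * n')) := by
      rw [Real.exp_add, Real.exp_nat_mul, Real.exp_nat_mul, Real.exp_log (by norm_num),
        Real.exp_log hMn'r]
      push_cast
      rfl
    rw [e2]
    refine Real.exp_le_exp.2 ?_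
    have e3 : Real.log (M * n') ≤ 2 * ℓ := by
      have : Real.log (M * n') ≤ Real.log ((n : ℝ) ^ 2) :=
        Real.log_le_log hMn'r (by
          rw [sq]
          exact mul_le_mul hMnr hn'r (Nat.cast_nonneg _) hn0.le)
      rw [Real.log_pow] at this
      push_cast at this
      exact this
    have e3' : 0 ≤ Real.log ((M : ℝ) * n') := Real.log_nonneg (by exact_mod_cast hMn')
    have e4 : (T : ℝ) ≤ 4 * (n / M) + 30 * ℓ ^ 2 := by
      have g1 : 4 * (n' : ℝ) / M ≤ 4 * (n / M) := by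
        rw [mul_div_assoc]
        gcongr
      have g2 : (h : ℝ) * (4 * ρ + 3) ≤ 1.5 * ℓ * (20 * ℓ) := by
        refine mul_le_mul hhℓ (by linarith) (by positivity) (by positivity)
      nlinarith
    have e5 : (T : ℝ) * Real.log (M * n') ≤ (4 * (n / M) + 30 * ℓ ^ 2) * (2 * ℓ) :=
      mul_le_mul e4 e3 e3' (by positivity)
    have e6 : (L₀ : ℝ) * Real.log 2 ≤ 10 * C1 * ℓ := by
      have : (L₀ : ℝ) * Real.log 2 ≤ L₀ * 1 :=
        mul_le_mul_of_nonneg_left hlog2' (Nat.cast_nonneg _)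
      linarith
    have e7 : 10 * C1 * ℓ ≤ 40 * C1 * (ℓ ^ 2 * ℓ) := by
      have g1 : (1 : ℝ) / 4 ≤ ℓ ^ 2 := by nlinarith
      have g2 : 0 ≤ C1 * ℓ := mul_nonneg hC10 (by linarith)
      calc 10 * C1 * ℓ = 40 * (C1 * ℓ) * (1 / 4) := by ring
        _ ≤ 40 * (C1 * ℓ) * ℓ ^ 2 := mul_le_mul_of_nonneg_left g1 (by positivity)
        _ = 40 * C1 * (ℓ ^ 2 * ℓ) := by ring
    have e8 : 0 ≤ (n : ℝ) / M * ℓ := by positivity
    have e9 : 0 ≤ (C1 : ℝ) * ((n : ℝ) / M * ℓ) := by positivity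
    have e10 : 0 ≤ ℓ ^ 2 * ℓ := by positivity
    calc (L₀ : ℝ) * Real.log 2 + T * Real.log (M * n') ≤
        40 * C1 * (ℓ ^ 2 * ℓ) + (4 * (n / M) + 30 * ℓ ^ 2) * (2 * ℓ) :=
          add_le_add (e6.trans e7) e5
      _ = 40 * C1 * (ℓ ^ 2 * ℓ) + 8 * ((n : ℝ) / M * ℓ) + 60 * (ℓ ^ 2 * ℓ) := by
          ring
      _ ≤ (400 + 40 * C1) * (n / M + ℓ ^ 2) * ℓ := by
          have : (400 + 40 * C1) * (n / M + ℓ ^ 2) * ℓ =
            400 * ((n : ℝ) / M * ℓ) + 40 * (C1 * ((n : ℝ) / M * ℓ)) +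
              400 * (ℓ ^ 2 * ℓ) + 40 * C1 * (ℓ ^ 2 * ℓ) := by ring
          rw [this]
          linarith
  · rw [hT6]
    have hn'0 : (0 : ℝ) ≤ n' := Nat.cast_nonneg _
    have g1 : 2 * (n' : ℝ) * h / M ≤ ε / 2 * n' := by
      have : (h : ℝ) ≤ ε / 4 * M := by
        have q1 : (400 + 40 * (C1 : ℝ)) * ℓ * (ε / 4) ≤ M * (ε / 4) :=
          mul_le_mul_of_nonneg_right hCM (by positivity)
        have q2 : 9 * ℓ ≤ ε * C1 * ℓ := mul_le_mul_of_nonneg_right hC1e (by linarith)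
        have q3 : 0 ≤ ℓ * ε := mul_nonneg (by linarith) hε0.le
        nlinarith
      rw [div_le_iff₀ hM0]
      have q4 := mul_le_mul_of_nonneg_left this hn'0
      linarith
    have hpr : (1 : ℝ) ≤ 2 ^ h := one_le_pow₀ (by norm_num)
    have g2 : (2 : ℝ) ^ h * (9 * (ρ + 1)) ≤ ε * n' := by
      rw [hn'e]
      have := mul_le_mul_of_nonneg_left hεL (by positivity : (0 : ℝ) ≤ 2 ^ h)
      linarith
    have g3 : ((2 : ℝ) ^ h - 1) * (4 * ρ + 4) ≤ 4 / 9 * (ε * n') := by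
      have q1 : ((2 : ℝ) ^ h - 1) * (4 * ρ + 4) ≤ 2 ^ h * (4 * ρ + 4) :=
        mul_le_mul_of_nonneg_right (by linarith) (by positivity)
      linarith
    have g4 : d * n ≤ d * n' + ε * n' / 36 := by
      have q1 : (n : ℝ) ≤ n' + 2 ^ h := by
        have : n ≤ n' + 2 ^ h := by
          rw [hn']
          calc n ≤ 2 ^ h * (L₀ + 1) := h8.le
            _ = 2 ^ h * L₀ + 2 ^ h := by ring
        exact_mod_cast this
      have q2 : (2 : ℝ) ^ h * 18 ≤ ε * n' := by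
        refine le_trans ?_ g2
        exact mul_le_mul_of_nonneg_left (by linarith) (by positivity)
      have q3 : d * n ≤ d * (n' + 2 ^ h) := mul_le_mul_of_nonneg_left q1 hd0
      have q4 : d * (2 : ℝ) ^ h ≤ 1 / 2 * 2 ^ h := mul_le_mul_of_nonneg_right hd.le (by positivity)
      linarith
    have g5 : d * n + E ≤ (d + ε) * n' := by
      have q1 : 0 ≤ ε * n' := by positivity
      linarith
    have g6 : (2 : ℝ) ^ (d * n) * 2 ^ E ≤ #Y * 2 ^ E := by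
      refine le_trans ?_ hS
      rw [← Real.rpow_natCast _ E, ← Real.rpow_add (by norm_num)]
      exact Real.rpow_le_rpow_of_exponent_le (by norm_num) g5
    exact le_of_mul_le_mul_right g6 (by positivity)

end Pool.Agent.Helper1.LR
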