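import Pool.Agent.Helper1.LR.Final
import Pool.Agent.Helper84.TN.Int

/-!
# Sharpness of the bound for the rank along a tree
-/

set_option autoImplicit false

namespace Pool.Agent.Helper1.LR

open Finset
open Pool.Agent.Helper84.TN (rk size)

/-- the tree whose blocks are the singletons and the initial segments -/
def comb {ι : Type} (g : ℕ → ι) : ℕ → Helper84.TN.Tree ι
  | 0 => .leaf (g 0)
  | m + 1 => .node (comb g m) (.leaf (g (m + 1)))

variable {ι : Type} [DecidableEq ι]

lemma comb_set (g : ℕ → ι) (m : ℕ) : (comb g m).set = (range (m + 1)).image g := by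
  induction m with
  | zero => simp [comb, Helper84.TN.Tree.set]
  | succ m ih =>
    rw [comb, Helper84.TN.Tree.set, ih, Helper84.TN.Tree.set, range_add_one (n := m + 1), image_insert, union_comm]
    rfl

lemma comb_proper (g : ℕ → ι) (m : ℕ) (hg : Set.InjOn g (Set.Iic m)) : (comb g m).Proper := by
  induction m with
  | zero => trivial
  | succ m ih =>
    refine ⟨ih (hg.mono (Set.Iic_subset_Iic.2 (Nat.le_succ m))), trivial, ?_⟩
    rw [comb_set, Helper84.TN.Tree.set, disjoint_singleton_right, mem_image]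
    rintro ⟨i, hi, h⟩
    rw [mem_range] at hi
    have := hg (Set.mem_Iic.2 (by omega : i ≤ m + 1)) (Set.mem_Iic.2 le_rfl) h
    omega

lemma comb_blocks (g : ℕ → ι) (m : ℕ) (D : Finset ι) (hD : D ∈ (comb g m).blocks) :
    (∃ i ≤ m, D = {g i}) ∨ ∃ i ≤ m, D = (range (i + 1)).image g := by
  induction m with
  | zero =>
    rw [comb, Helper84.TN.Tree.blocks, Set.mem_singleton_iff] at hD
    exact Or.inl ⟨0, le_rfl, hD⟩
  | succ m ih =>
    rw [comb, Helper84.TN.Tree.blocks, Set.mem_insert_iff, Set.mem_union] at hD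
    rcases hD with h | h | h
    · right
      refine ⟨m + 1, le_rfl, ?_⟩
      rw [h]
      exact comb_set g (m + 1)
    · rcases ih h with ⟨i, hi, h⟩ | ⟨i, hi, h⟩
      · exact Or.inl ⟨i, by omega, h⟩
      · exact Or.inr ⟨i, by omega, h⟩
    · rw [Helper84.TN.Tree.blocks, Set.mem_singleton_iff] at h
      exact Or.inl ⟨m + 1, le_rfl, h⟩

/-- **Sharpness.** -/
theorem sharp_comb (j L : ℕ) (hj : 1 ≤ j) (hL : 24 ≤ L) :
    ∃ (A : Set ℕ) (f : (Fin (j * L) → Fin 2) → ZMod 2) (T : Helper84.TN.Tree (Fin (j * L))),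
      T.Proper ∧ T.set = Finset.univ ∧
      (∀ D ∈ T.blocks, rk f D ≤ 2 ^ L * (j * L + 1) ^ (2 * j * Nat.clog 2 (L + 4))) ∧
      (∀ v, f v ≠ 0 ↔ Pool.Agent.Helper84.TN.value v ∈ A) ∧ (∀ a ∈ A, a < 2 ^ (j * L)) ∧
      2 ^ (j * L) ≤ size f ^ 4 ∧ ∀ m, Pool.Agent.Helper82.CF.rep A m ≤ L + 3 := by
  classical
  obtain ⟨S, f, h1, h2, h3, h4, h5⟩ := low_rank_sharp j L hj hL
  have hn : 0 < j * L := Nat.mul_pos hj (by omega)
  set g : ℕ → Fin (j * L) := fun i => ⟨i % (j * L), Nat.mod_lt _ hn⟩ with hg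
  have hgv : ∀ i, i ≤ j * L - 1 → (g i : ℕ) = i := fun i hi =>
    Nat.mod_eq_of_lt (by omega)
  refine ⟨S, f, comb g (j * L - 1), comb_proper g _ ?_, ?_, ?_, ?_, ?_, ?_, ?_⟩
  · intro i hi i' hi' h
    have h6 := congrArg Fin.val h
    rwa [hgv i hi, hgv i' hi'] at h6
  · rw [comb_set]
    ext i
    simp only [mem_univ, iff_true, mem_image, mem_range]
    have := i.2
    exact ⟨i, by omega, Fin.ext (hgv i (by omega))⟩
  · intro D hD
    refine h5 D ?_
    rcases comb_blocks g _ D hD with ⟨i, hi, rfl⟩ | ⟨i, hi, rfl⟩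
    · refine ⟨(g i : ℕ) / L, fun b hb => Or.inr fun i' hi' hmem => ?_⟩
      rw [mem_singleton] at hmem
      rw [hmem] at hi'
      exact hb hi'.symm
    · refine ⟨i / L, fun b hb => ?_⟩
      rcases Nat.lt_or_ge b (i / L) with h | h
      · left
        intro i' hi'
        rw [mem_image]
        refine ⟨i', ?_, Fin.ext (hgv i' (by have := i'.2; omega))⟩
        rw [mem_range]
        by_contra hcon
        have h6 : i / L ≤ (i' : ℕ) / L := Nat.div_le_div_right (by omega)
        omega
      · right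
        intro i' hi' hmem
        rw [mem_image] at hmem
        obtain ⟨i'', h6, h7⟩ := hmem
        rw [mem_range] at h6
        have h8 : (i' : ℕ) = i'' := by
          rw [← h7]
          exact hgv i'' (by omega)
        have h9 : (i' : ℕ) / L ≤ i / L := Nat.div_le_div_right (by omega)
        omega
  · intro v
    rw [h4 v]
    rfl
  · exact fun a ha => h1 a ha
  · have h6 : #S = size f := by
      have e1 : size f = ({v | f v ≠ 0} : Set (Fin (j * L) → Fin 2)).ncard := by
        unfold size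
        rw [← Set.ncard_coe_finset]
        congr 1
        ext v
        simp
      rw [e1, ← Set.ncard_coe_finset S, ← Set.ncard_image_of_injective _ value_inj]
      congr 1
      ext x
      rw [mem_coe, Set.mem_image]
      constructor
      · intro hx
        obtain ⟨w, hw⟩ := exists_value (h1 x hx)
        refine ⟨w, (h4 w).2 ?_, hw⟩
        change value w ∈ S
        rwa [hw]
      · rintro ⟨w, hw, rfl⟩
        exact (h4 w).1 hw
    rw [← h6]
    exact h2
  · intro m
    refine le_trans (le_of_eq ?_) (h3 m)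
    unfold Pool.Agent.Helper82.CF.rep
    rw [← Set.ncard_coe_finset]
    congr 1
    ext p
    rw [mem_coe, mem_filter, mem_product]
    constructor
    · rintro ⟨h1, h2, h3⟩; exact ⟨⟨h1, h2⟩, h3⟩
    · rintro ⟨⟨h1, h2⟩, h3⟩; exact ⟨h1, h2, h3⟩

end Pool.Agent.Helper1.LR
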