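import Pool.Agent.Helper1.LR.Multi
import Pool.Agent.Helper1.LR.Comb

/-!
# Padding with zeros, and the comb tree
-/

set_option autoImplicit false

namespace Pool.Agent.Helper1.LR

open Finset
open Pool.Agent.Helper84.TN (rk row size ind rk_ind rk_mul ind_pos ind_neg)
open Pool.Agent.Helper45.TY Pool.Agent.Helper1.TY

lemma rk_le_pow {ι : Type} [Fintype ι] [DecidableEq ι] (f : (ι → Fin 2) → ZMod 2)
    (D : Finset ι) : rk f D ≤ 2 ^ #D := by
  let ext : (D → Fin 2) → ι → Fin 2 := fun u i => if h : i ∈ D then u ⟨i, h⟩ else 0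
  have h1 : Set.range (row f D) ⊆ Set.range fun u : D → Fin 2 => row f D (ext u) := by
    rintro _ ⟨v, rfl⟩
    refine ⟨fun i => v i, ?_⟩
    funext w
    simp only [row]
    congr 1
    funext i
    by_cases hD : i ∈ D
    · rw [piecewise_eq_of_mem _ _ _ hD, piecewise_eq_of_mem _ _ _ hD]
      simp [ext, hD]
    · rw [piecewise_eq_of_notMem _ _ _ hD, piecewise_eq_of_notMem _ _ _ hD]
  refine (Submodule.finrank_mono (Submodule.span_mono h1)).trans
    ((finrank_range_le_card _).trans (le_of_eq ?_))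
  rw [Fintype.card_fun, Fintype.card_fin, Fintype.card_coe]

lemma testBit_value {n : ℕ} (w : Fin n → Fin 2) (r : ℕ) :
    (value w).testBit r = if h : r < n then decide ((w ⟨r, h⟩ : ℕ) = 1) else false := by
  split_ifs with h
  · rw [Nat.testBit_eq_decide_div_mod_eq, value_digit w ⟨r, h⟩]
  · exact Nat.testBit_lt_two_pow ((value_lt w).trans_le
      (Nat.pow_le_pow_right (by norm_num) (by omega)))

/-- the value of a word which ends with zeros -/
lemma value_cast {n' n : ℕ} (hn : n' ≤ n) (w : Fin n → Fin 2)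
    (hw : ∀ i : Fin n, n' ≤ (i : ℕ) → w i = 0) :
    value w = value fun i => w (Fin.castLE hn i) := by
  refine Nat.eq_of_testBit_eq fun r => ?_
  rw [testBit_value, testBit_value]
  by_cases h1 : r < n'
  · rw [dif_pos h1, dif_pos (h1.trans_le hn)]
    rfl
  · rw [dif_neg h1]
    split_ifs with h2
    · rw [hw ⟨r, h2⟩ (not_lt.1 h1)]
      rfl
    · rfl

/-- padding -/
lemma pad {n' n r R : ℕ} (hn : n' ≤ n) (hR : 1 ≤ R) {Y : Finset ℕ} {f' : (Fin n' → Fin 2) → ZMod 2}
    (h : Good n' r R Y f') :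
    ∃ f : (Fin n → Fin 2) → ZMod 2, (∀ w, f w ≠ 0 ↔ value w ∈ Y) ∧
      ∀ c : ℕ, rk f (univ.filter fun i : Fin n => (i : ℕ) < c) ≤ R := by
  classical
  refine ⟨(fun w => f' fun i => w (Fin.castLE hn i)) *
    ind (ZMod 2) (univ.filter fun i : Fin n => n' ≤ (i : ℕ)) 0, fun w => ?_, fun c => ?_⟩
  · rw [Pi.mul_apply, mul_ne_zero_iff, h.supp]
    constructor
    · rintro ⟨h1, h2⟩
      have h3 : ∀ i ∈ univ.filter fun i : Fin n => n' ≤ (i : ℕ), w i = (0 : Fin n → Fin 2) i := by
        by_contra h3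
        exact h2 (ind_neg h3)
      rw [value_cast hn w fun i hi => h3 i (mem_filter.2 ⟨mem_univ _, hi⟩)]
      exact h1
    · intro h1
      have h2 : value w < 2 ^ n' := by
        have := h.lt _ h1
        omega
      have h3 : ∀ i : Fin n, n' ≤ (i : ℕ) → w i = 0 := by
        intro i hi
        have h4 := value_digit w i
        have h5 : value w / 2 ^ (i : ℕ) = 0 :=
          Nat.div_eq_of_lt (h2.trans_le (Nat.pow_le_pow_right (by norm_num) hi))
        rw [h5, Nat.zero_mod] at h4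
        exact Fin.ext h4.symm
      refine ⟨by rwa [← value_cast hn w h3], ?_⟩
      have h4 : ind (ZMod 2) (univ.filter fun i : Fin n => n' ≤ (i : ℕ)) 0 w = 1 :=
        ind_pos fun i hi => h3 i (mem_filter.1 hi).2
      rw [h4]
      exact one_ne_zero
  · refine (rk_mul _ _ _).trans ?_
    have h1 := rk_pull (Fin.castLE hn) f' (univ.filter fun i : Fin n => (i : ℕ) < c)
    have e1 : (univ.filter fun i : Fin n' => Fin.castLE hn i ∈
        univ.filter fun i : Fin n => (i : ℕ) < c) =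
        univ.filter fun i : Fin n' => (i : ℕ) < c := by
      ext i
      simp
    rw [e1] at h1
    exact (Nat.mul_le_mul (h1.trans (h.rank c)) (rk_ind _ _ _)).trans (le_of_eq (mul_one _))

/-- the comb tree on `Fin n` -/
lemma exists_comb {n : ℕ} (hn : 1 ≤ n) : ∃ T : Helper84.TN.Tree (Fin n), T.Proper ∧
    T.set = Finset.univ ∧ ∀ D ∈ T.blocks, #D = 1 ∨
      ∃ c : ℕ, D = univ.filter fun i : Fin n => (i : ℕ) < c := by
  classical
  set g : ℕ → Fin n := fun i => ⟨i % n, Nat.mod_lt _ hn⟩ with hg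
  have hgv : ∀ i, i ≤ n - 1 → (g i : ℕ) = i := fun i hi => Nat.mod_eq_of_lt (by omega)
  refine ⟨comb g (n - 1), comb_proper g _ ?_, ?_, ?_⟩
  · intro i hi i' hi' h
    have h6 := congrArg Fin.val h
    rwa [hgv i hi, hgv i' hi'] at h6
  · rw [comb_set]
    ext i
    simp only [mem_univ, iff_true, mem_image, mem_range]
    have := i.2
    exact ⟨i, by omega, Fin.ext (hgv i (by omega))⟩
  · intro D hD
    rcases comb_blocks g _ D hD with ⟨i, hi, rfl⟩ | ⟨i, hi, rfl⟩
    · left
      exact card_singleton _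
    · right
      refine ⟨i + 1, ?_⟩
      ext x
      simp only [mem_image, mem_range, mem_filter, mem_univ, true_and]
      constructor
      · rintro ⟨y, hy, rfl⟩
        rw [hgv y (by omega)]
        exact hy
      · intro hx
        exact ⟨x, hx, Fin.ext (hgv x (by have := x.2; omega))⟩

/-- the sets of the levels, in the notions of the trees -/
theorem exists_tree_set {n' n r R : ℕ} (hn1 : 1 ≤ n) (hn : n' ≤ n) (hR : 2 ≤ R) {Y : Finset ℕ}
    {f' : (Fin n' → Fin 2) → ZMod 2} (h : Good n' r R Y f') :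
    ∃ (f : (Fin n → Fin 2) → ZMod 2) (T : Helper84.TN.Tree (Fin n)), T.Proper ∧
      T.set = Finset.univ ∧ (∀ D ∈ T.blocks, rk f D ≤ R) ∧
      (∀ v, f v ≠ 0 ↔ Pool.Agent.Helper84.TN.value v ∈ (Y : Set ℕ)) ∧
      (∀ a ∈ (Y : Set ℕ), a < 2 ^ n) ∧ size f = #Y ∧
      ∀ m, Pool.Agent.Helper82.CF.rep (Y : Set ℕ) m ≤ r := by
  classical
  obtain ⟨f, hf1, hf2⟩ := pad hn (by omega) h
  obtain ⟨T, hT1, hT2, hT3⟩ := exists_comb hn1
  have hlt : ∀ a ∈ Y, a < 2 ^ n := by
    intro a ha
    have h1 := h.lt a ha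
    have h2 : 2 ^ n' ≤ 2 ^ n := Nat.pow_le_pow_right (by norm_num) hn
    omega
  refine ⟨f, T, hT1, hT2, fun D hD => ?_, fun v => ?_, fun a ha => hlt a ha, ?_, fun m => ?_⟩
  · rcases hT3 D hD with h1 | ⟨c, rfl⟩
    · exact ((rk_le_pow f D).trans (by rw [h1, pow_one])).trans hR
    · exact hf2 c
  · rw [mem_coe]
    exact hf1 v
  · have e1 : size f = ({v | f v ≠ 0} : Set (Fin n → Fin 2)).ncard := by
      unfold size
      rw [← Set.ncard_coe_finset]
      congr 1
      ext v
      simp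
    rw [e1, ← Set.ncard_coe_finset Y, ← Set.ncard_image_of_injective _ value_inj]
    congr 1
    ext x
    rw [mem_coe, Set.mem_image]
    constructor
    · rintro ⟨w, hw, rfl⟩
      exact (hf1 w).1 hw
    · intro hx
      obtain ⟨w, hw⟩ := exists_value (hlt x hx)
      refine ⟨w, (hf1 w).2 ?_, hw⟩
      rwa [hw]
  · refine le_trans (le_of_eq ?_) (h.rep m)
    unfold Pool.Agent.Helper82.CF.rep rpF
    rw [← Set.ncard_coe_finset]
    congr 1
    ext p
    rw [mem_coe, mem_filter, mem_product]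
    constructor
    · rintro ⟨h1, h2, h3⟩; exact ⟨⟨h1, h2⟩, h3⟩
    · rintro ⟨⟨h1, h2⟩, h3⟩; exact ⟨h1, h2, h3⟩

end Pool.Agent.Helper1.LR
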