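import Pool.Agent.Helper1.LR.Frob
import Pool.Agent.Helper29.LS.Alg

/-!
# Unfolding ranks of polynomials in the values of blocks
-/

set_option autoImplicit false

namespace Pool.Agent.Helper1.LR

open Finset Module Pool.Agent.Helper84.TN

variable {ι β K V : Type} [DecidableEq ι] [Field K] [Finite ι] [Finite β]

lemma gk_zero (D : Finset ι) : rk (0 : (ι → β) → K) D ≤ 0 := by
  unfold rk
  have h1 : Submodule.span K (Set.range (row (0 : (ι → β) → K) D)) ≤ ⊥ := by
    rw [Submodule.span_le]
    rintro _ ⟨v, rfl⟩
    rfl
  rw [le_bot_iff.1 h1, finrank_bot]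

lemma gk_sum {κ : Type} (s : Finset κ) (g : κ → (ι → β) → K) (D : Finset ι) :
    rk (∑ l ∈ s, g l) D ≤ ∑ l ∈ s, rk (g l) D := by
  classical
  induction s using Finset.induction_on with
  | empty =>
    rw [sum_empty, sum_empty]
    exact gk_zero D
  | insert a s ha ih =>
    rw [sum_insert ha, sum_insert ha]
    exact (gk_add _ _ _).trans (Nat.add_le_add_left ih _)

lemma finrank_pow_le {A : Type} [CommRing A] [Algebra K A] [FiniteDimensional K A]
    (U : Submodule K A) {a : ℕ} (hU : finrank K U ≤ a) (d : ℕ) : finrank K ↥(U ^ d) ≤ a ^ d := by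
  induction d with
  | zero =>
    rw [pow_zero, pow_zero, Submodule.one_eq_span]
    have h := finrank_span_finset_le_card (R := K) ({1} : Finset A)
    rwa [Finset.coe_singleton, Finset.card_singleton] at h
  | succ d ih =>
    rw [pow_succ, pow_succ]
    exact (finrank_mul_le _ _).trans (Nat.mul_le_mul ih hU)

/-- **Polynomials in the values of the uncut blocks.** -/
theorem gk_word (ψ : V → K) {J d : ℕ} (B : Fin J → Finset ι) (blk : Fin J → (ι → β) → V)
    (hblk : ∀ i w w', (∀ x ∈ B i, w x = w' x) → blk i w = blk i w') (D : Finset ι) (i₀ : Fin J)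
    (hD : ∀ i, i ≠ i₀ → B i ⊆ D ∨ Disjoint (B i) D) (v₀ : V)
    {P : (Fin J → V) → K} (hP : P ∈ Pool.Agent.Helper29.LS.PolK ψ J d) :
    rk (fun w : ι → β => P (Function.update (fun i => blk i w) i₀ v₀)) D ≤ (J + 1) ^ d := by
  classical
  haveI : FiniteDimensional K ((ι → β) → K) := inferInstance
  let gen : Fin J → (ι → β) → K := fun i => if i = i₀ ∨ B i ⊆ D then 1 else fun w => ψ (blk i w)
  set U : Submodule K ((ι → β) → K) := Submodule.span K (insert 1 (Set.range gen)) with hU
  have h1U : (1 : (ι → β) → K) ∈ U := Submodule.subset_span (Set.mem_insert _ _)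
  have hgU : ∀ i, gen i ∈ U := fun i => Submodule.subset_span (Set.mem_insert_of_mem _ ⟨i, rfl⟩)
  have hUr : finrank K U ≤ J + 1 := by
    have h : (insert 1 (Set.range gen) : Set ((ι → β) → K)) =
        ((insert 1 (univ.image gen) : Finset _) : Set ((ι → β) → K)) := by
      push_cast
      rw [Set.image_univ]
    rw [hU, h]
    refine (finrank_span_finset_le_card _).trans ((card_insert_le _ _).trans ?_)
    refine Nat.add_le_add_right (card_image_le.trans (le_of_eq ?_)) 1
    rw [card_univ, Fintype.card_fin]
  refine le_trans (Submodule.finrank_mono ?_) (finrank_pow_le U hUr d)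
  rw [Submodule.span_le]
  rintro _ ⟨v, rfl⟩
  let φ : ((Fin J → V) → K) →ₐ[K] ((ι → β) → K) :=
    Pi.algHom K _ fun w => Pi.evalAlgHom K (fun _ => K)
      (Function.update (fun i => blk i (D.piecewise v w)) i₀ v₀)
  have hφ : ∀ Q : (Fin J → V) → K, ∀ w, φ Q w =
      Q (Function.update (fun i => blk i (D.piecewise v w)) i₀ v₀) := fun _ _ => rfl
  have haff : (Pool.Agent.Helper29.LS.AffK ψ J).map φ.toLinearMap ≤ U := by
    unfold Pool.Agent.Helper29.LS.AffK
    rw [Submodule.map_span, Submodule.span_le]
    rintro _ ⟨g, hg, rfl⟩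
    rcases hg with rfl | ⟨i, rfl⟩
    · change φ 1 ∈ U
      rw [map_one]
      exact h1U
    · change φ (fun c => ψ (c i)) ∈ U
      by_cases hi : i = i₀
      · have : φ (fun c => ψ (c i)) = ψ v₀ • (1 : (ι → β) → K) := by
          funext w
          rw [hφ]
          simp [hi]
        rw [this]
        exact Submodule.smul_mem _ _ h1U
      · by_cases hB : B i ⊆ D
        · have : φ (fun c => ψ (c i)) = ψ (blk i v) • (1 : (ι → β) → K) := by
            funext w
            rw [hφ]
            have e1 : blk i (D.piecewise v w) = blk i v := hblk i _ _ fun x hx =>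
              piecewise_eq_of_mem _ _ _ (hB hx)
            simp [hi, e1]
          rw [this]
          exact Submodule.smul_mem _ _ h1U
        · have h2 : Disjoint (B i) D := (hD i hi).resolve_left hB
          have : φ (fun c => ψ (c i)) = gen i := by
            funext w
            rw [hφ]
            have e1 : blk i (D.piecewise v w) = blk i w := hblk i _ _ fun x hx =>
              piecewise_eq_of_notMem _ _ _ (disjoint_left.1 h2 hx)
            simp only [gen]
            rw [if_neg (not_or.2 ⟨hi, hB⟩), Function.update_of_ne hi, e1]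
          rw [this]
          exact hgU i
  have hpow : (Pool.Agent.Helper29.LS.PolK ψ J d).map φ.toLinearMap ≤ U ^ d := by
    unfold Pool.Agent.Helper29.LS.PolK
    rw [Submodule.map_pow]
    exact pow_le_pow_left' haff d
  exact hpow ⟨P, hP, rfl⟩

end Pool.Agent.Helper1.LR
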