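import Pool.Agent.Helper1.LR.Both
import Pool.Agent.Helper1.LR.All2

/-!
# Sharpness for all sizes of the representation function, up to one logarithm
-/

set_option autoImplicit false

namespace Pool.Agent.Helper1.LR

open Finset
open Pool.Agent.Helper84.TN (rk size SuppRank)
open Pool.Agent.Helper82.CF (rep)
open Pool.Agent.Helper1.TY (rpF exists_sidon)

/-- the level sets (proved in `Helper29/LS/Uni`) -/
def Block2 : Prop := ∀ (n L J m : ℕ) (S₀ : Finset ℕ), 1 ≤ J → 1 ≤ L → J * L ≤ n →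
  (∀ a ∈ S₀, 2 * a < 2 ^ L) → (∀ N, rpF S₀ N ≤ 2) → S₀.card ≤ 2 ^ m → 1 ≤ m →
  2 ^ (2 * J * (J + 1)) < 2 ^ m →
    ∃ (A : Set ℕ) (S : Finset (Fin n → Fin 2)) (T : Helper84.TN.Tree (Fin n)),
      T.Proper ∧ T.set = Finset.univ ∧
      (∀ D ∈ T.blocks, SuppRank S D (S₀.card * (1 + (J * (2 * J + 2)) ^ m))) ∧
      (∀ v, v ∈ S ↔ Helper84.TN.value v ∈ A) ∧ (∀ a ∈ A, a < 2 ^ (J * L)) ∧
      S₀.card ^ J ≤ 2 ^ m * S.card ∧ ∀ N, rep A N ≤ 2 * J + 1

/-- `M ≤ n ^ (1 / 3)`: the level sets of helper29 -/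
lemma mid2 (hblock : Block2) {d ε : ℝ} {n M : ℕ} (hd0 : 0 ≤ d) (hε : 0 < ε) (hdε : 1 / 2 - (d + ε) = ε)
    (hM0 : 8 ≤ ε * M) (hM3 : M ^ 3 ≤ n) :
    Concl d n M (20 * (n / M * Real.log M)) := by
  have hε4 : ε ≤ 1 / 4 := by linarith
  have hMr : (32 : ℝ) ≤ M := by
    have h0 : (0 : ℝ) ≤ M := Nat.cast_nonneg _
    nlinarith
  have hM : 32 ≤ M := by exact_mod_cast hMr
  have hM0' : (0 : ℝ) < M := by linarith
  set J : ℕ := (M - 1) / 2 with hJ
  have hJ1 : 2 * J + 1 ≤ M := by omega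
  have hJ2 : M ≤ 2 * J + 2 := by omega
  have hJ3 : 1 ≤ J := by omega
  have hJ4 : M ≤ 4 * J := by omega
  set L : ℕ := n / J with hL
  have hJL : J * L ≤ n := Nat.mul_div_le _ _
  have hnL : n < J * (L + 1) := Nat.lt_mul_div_succ _ (by omega)
  have hL1 : 2 * J * (J + 1) + 1 ≤ L := by
    refine (Nat.le_div_iff_mul_le (by omega)).2 ?_
    calc (2 * J * (J + 1) + 1) * J ≤ (2 * J + 1) ^ 3 := by nlinarith [Nat.zero_le (J ^ 3)]
      _ ≤ M ^ 3 := Nat.pow_le_pow_left hJ1 3
      _ ≤ n := hM3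
  have hLM : M ≤ L := by nlinarith
  have hL0 : 1 ≤ L := by omega
  have hLr : (M : ℝ) ≤ L := by exact_mod_cast hLM
  have hL1r : (1 : ℝ) ≤ L := by exact_mod_cast hL0
  have hsid : 2 ≤ (1 / 2 - (d + ε)) * (L : ℝ) := by
    rw [hdε]
    have := mul_le_mul_of_nonneg_left hLr hε.le
    linarith
  obtain ⟨S₀, h1, h2, h3⟩ := exists_sidon (q := 2) (l := L) le_rfl (δ := d + ε) (by linarith) hsid
  have h3' : (2 : ℝ) ^ ((d + ε) * (L : ℝ)) ≤ #S₀ := by
    have := h3
    push_cast at this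
    exact this
  have hS₀ : #S₀ ≤ 2 ^ L := by
    have : S₀ ⊆ range (2 ^ L) := by
      intro a ha
      rw [mem_range]
      have := h1 a ha
      omega
    exact (card_le_card this).trans (le_of_eq (card_range _))
  obtain ⟨A, S, T, hT1, hT2, hT3, hT4, hT5, hT6, hT7⟩ :=
    hblock n L J L S₀ hJ3 hL0 hJL h1 h2 hS₀ hL0 (Nat.pow_lt_pow_right (by norm_num) (by omega))
  have hJr : (1 : ℝ) ≤ J := by exact_mod_cast hJ3
  refine ⟨_, S, T, hT1, hT2, hT3, ?_, ?_, fun m => ?_⟩
  · set lam : ℝ := Real.log M with hlam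
    have hlog2 : (0.69 : ℝ) < Real.log 2 := by
      have := Real.log_two_gt_d9
      linarith
    have hlog2' : Real.log 2 ≤ 1 := by
      have := Real.log_two_lt_d9
      linarith
    have hlam2 : Real.log 2 ≤ lam := Real.log_le_log (by norm_num) (by linarith)
    have hlam0 : (0.69 : ℝ) ≤ lam := hlog2.le.trans hlam2
    have hJJ : 1 ≤ J * (2 * J + 2) := Nat.mul_pos hJ3 (by omega)
    have e1 : ((#S₀ * (1 + (J * (2 * J + 2)) ^ L) : ℕ) : ℝ) ≤
        Real.exp (L * Real.log 2 + (Real.log 2 + L * Real.log ((J * (2 * J + 2) : ℕ) : ℝ))) := by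
      rw [Real.exp_add, Real.exp_add, Real.exp_nat_mul, Real.exp_nat_mul,
        Real.exp_log (by norm_num), Real.exp_log (by exact_mod_cast hJJ)]
      have g1 : #S₀ * (1 + (J * (2 * J + 2)) ^ L) ≤ 2 ^ L * (2 * (J * (2 * J + 2)) ^ L) := by
        refine Nat.mul_le_mul hS₀ ?_
        have : 1 ≤ (J * (2 * J + 2)) ^ L := Nat.one_le_pow _ _ hJJ
        omega
      have g2 : ((#S₀ * (1 + (J * (2 * J + 2)) ^ L) : ℕ) : ℝ) ≤
          ((2 ^ L * (2 * (J * (2 * J + 2)) ^ L) : ℕ) : ℝ) := by exact_mod_cast g1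
      refine g2.trans (le_of_eq ?_)
      push_cast
      rfl
    refine e1.trans (Real.exp_le_exp.2 ?_)
    have e3 : Real.log ((J * (2 * J + 2) : ℕ) : ℝ) ≤ 2 * lam := by
      have g1 : J * (2 * J + 2) ≤ M ^ 2 := by nlinarith
      have g2 : ((J * (2 * J + 2) : ℕ) : ℝ) ≤ (M : ℝ) ^ 2 := by exact_mod_cast g1
      have g3 := Real.log_le_log (by exact_mod_cast hJJ) g2
      rw [Real.log_pow] at g3
      push_cast at g3 ⊢
      exact g3
    have e5 : (L : ℝ) ≤ 4 * (n / M) := by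
      have g1 : (L : ℝ) ≤ n / J := Nat.cast_div_le
      have g2 : (n : ℝ) / J ≤ 4 * (n / M) := by
        have g3 : (M : ℝ) ≤ 4 * J := by exact_mod_cast hJ4
        rw [div_le_iff₀ (by linarith)]
        have g4 : (n : ℝ) = n / M * M := by field_simp
        have g5 : 0 ≤ (n : ℝ) / M := by positivity
        calc (n : ℝ) = n / M * M := g4
          _ ≤ n / M * (4 * J) := mul_le_mul_of_nonneg_left g3 g5
          _ = 4 * (n / M) * J := by ring
      exact g1.trans g2
    have e6 : (2 : ℝ) ≤ 3 * lam := by linarith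
    calc (L : ℝ) * Real.log 2 + (Real.log 2 + L * Real.log ((J * (2 * J + 2) : ℕ) : ℝ)) ≤
        L * 1 + (L + L * (2 * lam)) := by
          refine add_le_add (mul_le_mul_of_nonneg_left hlog2' (by linarith))
            (add_le_add (by linarith) (mul_le_mul_of_nonneg_left e3 (by linarith)))
      _ = L * (2 + 2 * lam) := by ring
      _ ≤ L * (5 * lam) := mul_le_mul_of_nonneg_left (by linarith) (by linarith)
      _ ≤ 4 * (n / M) * (5 * lam) := mul_le_mul_of_nonneg_right e5 (by positivity)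
      _ = 20 * (n / M * lam) := by ring
  · have g1 : ((2 : ℝ) ^ ((d + ε) * (L : ℝ))) ^ J ≤ (2 : ℝ) ^ L * #S := by
      calc ((2 : ℝ) ^ ((d + ε) * (L : ℝ))) ^ J ≤ (#S₀ : ℝ) ^ J :=
            pow_le_pow_left₀ (by positivity) h3' J
        _ ≤ (2 : ℝ) ^ L * #S := by exact_mod_cast hT6
    have g2 : (2 : ℝ) ^ L * (2 : ℝ) ^ (d * n) ≤ ((2 : ℝ) ^ ((d + ε) * (L : ℝ))) ^ J := by
      rw [← Real.rpow_natCast _ L, ← Real.rpow_natCast _ J, ← Real.rpow_mul (by norm_num),
        ← Real.rpow_add (by norm_num)]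
      refine Real.rpow_le_rpow_of_exponent_le (by norm_num) ?_
      have q1 : (n : ℝ) ≤ J * (L + 1) := by exact_mod_cast hnL.le
      have q2 : d * n ≤ d * (J * (L + 1)) := mul_le_mul_of_nonneg_left q1 hd0
      have q3 : (2 : ℝ) ≤ ε * J := by
        have g3 : (M : ℝ) ≤ 4 * J := by exact_mod_cast hJ4
        have := mul_le_mul_of_nonneg_left g3 hε.le
        linarith
      have q4 : 2 * (L : ℝ) ≤ ε * J * L := mul_le_mul_of_nonneg_right q3 (by linarith)
      have q5 : (J : ℝ) ≤ L := by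
        have : J ≤ L := by omega
        exact_mod_cast this
      have q6 : d * J ≤ 1 * J := mul_le_mul_of_nonneg_right (by linarith) (by linarith)
      have q7 : (d + ε) * (L : ℝ) * J = d * (J * L) + ε * J * L := by ring
      have q8 : d * (J * ((L : ℝ) + 1)) = d * (J * L) + d * J := by ring
      rw [q7]
      linarith
    exact le_of_mul_le_mul_left (g2.trans g1) (by positivity)
  · rw [image_eq hT4 fun a ha => (hT5 a ha).trans_le (Nat.pow_le_pow_right (by norm_num) hJL)]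
    exact (hT7 m).trans hJ1

/-- `M > n ^ (1 / 3)`: the hierarchical construction -/
lemma large2 {d C1 : ℝ} {n M : ℕ} (hC1 : 0 < C1) (hn : 2 ≤ n)
    (h : ∃ (A : Set ℕ) (f : (Fin n → Fin 2) → ZMod 2) (T : Helper84.TN.Tree (Fin n)),
        T.Proper ∧ T.set = Finset.univ ∧
        (∀ D ∈ T.blocks, (rk f D : ℝ) ≤
          Real.exp (C1 * (n / M + Real.log n ^ 2) * Real.log n)) ∧
        (∀ v, f v ≠ 0 ↔ Pool.Agent.Helper84.TN.value v ∈ A) ∧ (∀ a ∈ A, a < 2 ^ n) ∧
        (2 : ℝ) ^ (d * n) ≤ size f ∧ ∀ m, Pool.Agent.Helper82.CF.rep A m ≤ M)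
    (hM : 1 ≤ M) (hM3 : n ≤ M ^ 3) :
    Concl d n M (3 * C1 * (n / M * Real.log M + Real.log n ^ 3)) := by
  classical
  obtain ⟨A, f, T, hT1, hT2, hT3, hT4, hT5, hT6, hT7⟩ := h
  set B : ℝ := C1 * (n / M + Real.log n ^ 2) * Real.log n with hB
  refine Concl.mono (B := B) ?_ ?_
  · set S : Finset (Fin n → Fin 2) := univ.filter fun v => f v ≠ 0 with hS
    have hmem : ∀ v, v ∈ S ↔ f v ≠ 0 := fun v => by
      rw [hS, mem_filter]
      exact ⟨fun h => h.2, fun h => ⟨mem_univ _, h⟩⟩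
    refine ⟨⌊Real.exp B⌋₊, S, T, hT1, hT2, fun D hD => ⟨ZMod 2, inferInstance, f, fun v =>
      (hmem v).symm, Nat.le_floor (hT3 D hD)⟩, Nat.floor_le (Real.exp_pos _).le, ?_, fun m => ?_⟩
    · refine hT6.trans (le_of_eq ?_)
      have e1 : size f = ({v | f v ≠ 0} : Set (Fin n → Fin 2)).ncard := by
        unfold size
        rw [← Set.ncard_coe_finset]
        congr 1
        ext v
        simp
      rw [e1, ← Set.ncard_coe_finset]
      congr 2
      ext v
      simp [hS]
    · rw [image_eq (A := A) (fun v => (hmem v).trans (hT4 v)) hT5]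
      exact hT7 m
  · have hn0 : (0 : ℝ) < n := by
      have : (2 : ℝ) ≤ n := by exact_mod_cast hn
      linarith
    have hM0 : (0 : ℝ) < M := by exact_mod_cast hM
    have e1 : Real.log n ≤ 3 * Real.log M := by
      have : (n : ℝ) ≤ (M : ℝ) ^ 3 := by exact_mod_cast hM3
      have := Real.log_le_log hn0 this
      rw [Real.log_pow] at this
      push_cast at this
      exact this
    have e0 : 0 ≤ Real.log n := Real.log_nonneg (by
      have : (2 : ℝ) ≤ n := by exact_mod_cast hn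
      linarith)
    have e3 : (n : ℝ) / M * Real.log n ≤ n / M * (3 * Real.log M) :=
      mul_le_mul_of_nonneg_left e1 (by positivity)
    have e4 : 0 ≤ Real.log n ^ 3 := by positivity
    calc B = C1 * (n / M * Real.log n) + C1 * Real.log n ^ 3 := by
          rw [hB]
          ring
      _ ≤ C1 * (n / M * (3 * Real.log M)) + 3 * C1 * Real.log n ^ 3 := by
          refine add_le_add (mul_le_mul_of_nonneg_left e3 hC1.le) ?_
          have := mul_nonneg hC1.le e4
          linarith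
      _ = 3 * C1 * (n / M * Real.log M + Real.log n ^ 3) := by ring

/-- **Sharpness for all `M`.** -/
theorem law_of (hblock : Block2) (d : ℝ) (hd : d < 1 / 2) :
    ∃ C : ℝ, 0 < C ∧ ∀ n M : ℕ, C ≤ n → 2 ≤ M → M ≤ n →
      ∃ (s : ℕ) (S : Finset (Fin n → Fin 2)) (T : Helper84.TN.Tree (Fin n)), T.Proper ∧
        T.set = Finset.univ ∧ (∀ D ∈ T.blocks, SuppRank S D s) ∧
        (s : ℝ) ≤ Real.exp (C * (n / M * Real.log M + Real.log n ^ 3)) ∧
        (2 : ℝ) ^ (d * n) ≤ #S ∧
        ∀ m, rep {a | ∃ v ∈ S, Pool.Agent.Helper84.TN.value v = a} m ≤ M := by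
  wlog hd0 : 0 ≤ d generalizing d
  · obtain ⟨C, hC, h⟩ := this 0 (by norm_num) le_rfl
    refine ⟨C, hC, fun n M hn hM hMn => ?_⟩
    obtain ⟨s, S, T, h1, h2, h3, h4, h5, h6⟩ := h n M hn hM hMn
    refine ⟨s, S, T, h1, h2, h3, h4, le_trans ?_ h5, h6⟩
    refine Real.rpow_le_rpow_of_exponent_le (by norm_num) ?_
    exact mul_le_mul_of_nonneg_right (not_le.1 hd0).le (Nat.cast_nonneg _)
  set ε : ℝ := (1 / 2 - d) / 2 with hε
  have hε0 : 0 < ε := by rw [hε]; linarith
  have hε4 : ε ≤ 1 / 4 := by rw [hε]; linarith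
  have hdε : 1 / 2 - (d + ε) = ε := by rw [hε]; ring
  obtain ⟨C1, hC1, hsharp⟩ := sharp_all2 d hd0 hd
  have hie : (0 : ℝ) < 1 / ε := by positivity
  have h6C : (0 : ℝ) ≤ (6 * C1) ^ 6 := by positivity
  refine ⟨9 * C1 + 30 + 17 * (1 / ε) + (6 * C1) ^ 6, by positivity, ?_⟩
  intro n M hn hM hMn
  have hn30 : (30 : ℝ) ≤ n := by linarith
  have hn2 : 2 ≤ n := by
    have : (2 : ℝ) ≤ n := by linarith
    exact_mod_cast this
  have hn0 : (0 : ℝ) < n := by linarith
  have hMr : (2 : ℝ) ≤ M := by exact_mod_cast hM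
  have hM0 : (0 : ℝ) < M := by linarith
  have hlog2 : (0.69 : ℝ) < Real.log 2 := by
    have := Real.log_two_gt_d9
    linarith
  have hlog2' : Real.log 2 ≤ 1 := by
    have := Real.log_two_lt_d9
    linarith
  have hlam2 : Real.log 2 ≤ Real.log M := Real.log_le_log (by norm_num) hMr
  have hlam0 : (0.69 : ℝ) ≤ Real.log M := hlog2.le.trans hlam2
  have hnM : 0 ≤ (n : ℝ) / M * Real.log M := by positivity
  have hl4 : 0 ≤ Real.log n ^ 3 := by positivity
  change Concl d n M _
  by_cases h1 : M ^ 3 ≤ n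
  · by_cases h2 : 8 ≤ ε * M
    · refine (mid2 hblock hd0 hε0 hdε h2 h1).mono ?_
      have : (20 : ℝ) * (n / M * Real.log M) ≤
          (9 * C1 + 30 + 17 * (1 / ε) + (6 * C1) ^ 6) * (n / M * Real.log M) :=
        mul_le_mul_of_nonneg_right (by linarith) hnM
      refine this.trans ?_
      exact mul_le_mul_of_nonneg_left (by linarith) (by positivity)
    · rw [not_le] at h2
      refine (small hd0 (by omega) ?_ hM).mono ?_
      · have e1 : (1 : ℝ) / 2 - d = 2 * ε := by rw [hε]; ring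
        rw [e1]
        have e2 : 17 * (1 / ε) ≤ n := by linarith
        have e3 : ε * (17 * (1 / ε)) ≤ ε * n := mul_le_mul_of_nonneg_left e2 hε0.le
        have e4 : ε * (17 * (1 / ε)) = 17 := by
          field_simp
        linarith
      · have e1 : (n : ℝ) * Real.log 2 ≤ 17 * (1 / ε) * (n / M * Real.log M) := by
          have g1 : (1 : ℝ) ≤ 17 * (1 / ε) * (1 / M * Real.log M) := by
            have q1 : (M : ℝ) < 8 * (1 / ε) := by
              rw [mul_one_div, lt_div_iff₀ hε0]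
              linarith
            have q2 : (0.476 : ℝ) ≤ Real.log M := by linarith
            have q3 : (1 : ℝ) ≤ 17 * (1 / ε) * 0.476 / M := by
              rw [le_div_iff₀ hM0]
              nlinarith
            calc (1 : ℝ) ≤ 17 * (1 / ε) * 0.476 / M := q3
              _ = 17 * (1 / ε) * (1 / M * 0.476) := by ring
              _ ≤ 17 * (1 / ε) * (1 / M * Real.log M) := by gcongr
          calc (n : ℝ) * Real.log 2 ≤ n * 1 := mul_le_mul_of_nonneg_left hlog2' hn0.le
            _ ≤ n * (17 * (1 / ε) * (1 / M * Real.log M)) :=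
                mul_le_mul_of_nonneg_left g1 hn0.le
            _ = 17 * (1 / ε) * (n / M * Real.log M) := by ring
        refine e1.trans ?_
        have : 17 * (1 / ε) * (n / M * Real.log M) ≤
            (9 * C1 + 30 + 17 * (1 / ε) + (6 * C1) ^ 6) * (n / M * Real.log M) :=
          mul_le_mul_of_nonneg_right (by linarith) hnM
        refine this.trans ?_
        exact mul_le_mul_of_nonneg_left (by linarith) (by positivity)
  · have h2 : n ≤ M ^ 3 := (not_le.1 h1).le
    have h3 : C1 * Real.log n ≤ M := by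
      set y : ℝ := (n : ℝ) ^ (1 / 6 : ℝ) with hy
      have hy6 : y ^ 6 = n := by
        rw [hy, ← Real.rpow_natCast, ← Real.rpow_mul hn0.le]
        norm_num
      have hy0 : 0 < y := by positivity
      have g1 : 6 * C1 ≤ y := by
        by_contra hcon
        rw [not_le] at hcon
        have : y ^ 6 < (6 * C1) ^ 6 := pow_lt_pow_left₀ hcon hy0.le (by norm_num)
        rw [hy6] at this
        linarith
      have g2 : Real.log n ≤ 6 * y := by
        have := Real.log_le_rpow_div hn0.le (by norm_num : (0 : ℝ) < 1 / 6)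
        have e : (n : ℝ) ^ (1 / 6 : ℝ) / (1 / 6) = 6 * y := by
          rw [hy]
          ring
        rwa [e] at this
      have g3 : y ^ 2 ≤ M := by
        by_contra hcon
        rw [not_le] at hcon
        have q1 : (M : ℝ) ^ 3 < (y ^ 2) ^ 3 := pow_lt_pow_left₀ hcon hM0.le (by norm_num)
        have q2 : (y ^ 2) ^ 3 = n := by
          rw [← pow_mul, hy6]
        rw [q2] at q1
        have q3 : (n : ℝ) ≤ (M : ℝ) ^ 3 := by exact_mod_cast h2
        linarith
      calc C1 * Real.log n ≤ C1 * (6 * y) := mul_le_mul_of_nonneg_left g2 hC1.le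
        _ = 6 * C1 * y := by ring
        _ ≤ y * y := mul_le_mul_of_nonneg_right g1 hy0.le
        _ = y ^ 2 := by ring
        _ ≤ M := g3
    refine (large2 hC1 hn2 (hsharp n M hn2 h3 hMn) (by omega) h2).mono ?_
    refine mul_le_mul_of_nonneg_right ?_ (by positivity)
    linarith

end Pool.Agent.Helper1.LR
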