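import Pool.Agent.Helper29.LS.Uni

/-!
The level sets have small support rank at all initial segments of the positions.
-/

open Finset

namespace Pool.Agent.Helper1.LR.CutBlock

open Pool.Agent.Helper29.LS

open Pool.Agent.Helper82.CF (rep)
open Pool.Agent.Helper1.TY (rpF)
open Pool.Agent.Helper1.LR (value value_block value_digit value_lt gk_sum gk_one_sub gk_pow
  gk_dep_one gk_prod gk_zero exists_comb)
open Pool.Agent.Helper84.TN (rk rk_mul ind rk_ind row SuppRank)
open Polynomial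

/-- **The block set**, ranks at all initial segments. -/
theorem block_cut2 {n L J m : ℕ} {S₀ : Finset ℕ} (hJ : 1 ≤ J) (hL : 1 ≤ L) (hn : J * L ≤ n)
    (hS1 : ∀ a ∈ S₀, 2 * a < 2 ^ L) (hS2 : ∀ N, rpF S₀ N ≤ 2) (hm : S₀.card ≤ 2 ^ m)
    (hm1 : 1 ≤ m) (hq : 2 ^ (2 * J * (J + 1)) < 2 ^ m) :
    ∃ (A : Set ℕ) (S : Finset (Fin n → Fin 2)),
      (∀ k : ℕ, SuppRank S (Finset.univ.filter fun i : Fin n => (i : ℕ) < k)
        (S₀.card * (1 + (J * (2 * J + 2)) ^ m))) ∧
      (∀ v, v ∈ S ↔ Helper84.TN.value v ∈ A) ∧ (∀ a ∈ A, a < 2 ^ (J * L)) ∧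
      S₀.card ^ J ≤ 2 ^ m * S.card ∧ ∀ N, rep A N ≤ 2 * J + 1 := by
  classical
  haveI : Fact (Nat.Prime 2) := ⟨Nat.prime_two⟩
  haveI : NeZero J := ⟨by omega⟩
  let K := GaloisField 2 m
  haveI : Fintype K := Fintype.ofFinite K
  have hcard : Fintype.card K = 2 ^ m := by
    rw [← Nat.card_eq_fintype_card]
    exact GaloisField.card 2 m (by omega)
  let E := FiniteField.Extension K 2 J
  have hfin : Module.finrank K E = J := FiniteField.finrank_extension K 2 J
  let ω : Fin J → E := fun i => (Module.finBasisOfFinrankEq K E hfin) i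
  have hω : LinearIndependent K ω := (Module.finBasisOfFinrankEq K E hfin).linearIndependent
  obtain ⟨φ, lam, hlam⟩ : ∃ (φ : E →ₗ[K] K) (lam : E), φ lam = 1 := by
    refine ⟨(Module.finBasisOfFinrankEq K E hfin).coord ⟨0, hJ⟩,
      (Module.finBasisOfFinrankEq K E hfin) ⟨0, hJ⟩, ?_⟩
    rw [Module.Basis.coord_apply, Module.Basis.repr_self, Finsupp.single_eq_same]
  set B : Finset (Fin (2 ^ L)) := univ.filter fun v => (v : ℕ) ∈ S₀ with hB
  have hBmem : ∀ v, v ∈ B ↔ (v : ℕ) ∈ S₀ := by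
    intro v
    rw [hB, Finset.mem_filter]
    exact ⟨fun h => h.2, fun h => ⟨Finset.mem_univ _, h⟩⟩
  have hBcard : B.card = S₀.card := by
    refine Finset.card_bij (fun v _ => (v : ℕ)) (fun v hv => (hBmem v).1 hv)
      (fun v _ v' _ h => Fin.ext h) ?_
    intro a ha
    exact ⟨⟨a, by have := hS1 a ha; omega⟩, (hBmem _).2 ha, rfl⟩
  obtain ⟨ψ, hψ⟩ : ∃ ψ : Fin (2 ^ L) → K, Set.InjOn ψ (B : Set (Fin (2 ^ L))) := by
    have h1 : B.card ≤ (univ : Finset K).card := by
      rw [hBcard, Finset.card_univ, hcard]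
      exact hm
    obtain ⟨B', -, hB'⟩ := Finset.exists_subset_card_eq h1
    obtain ⟨e⟩ : Nonempty (B ≃ B') := ⟨Finset.equivOfCardEq hB'.symm⟩
    refine ⟨fun v => if h : v ∈ B then (e ⟨v, h⟩ : K) else 0, ?_⟩
    intro v hv v' hv' h
    rw [Finset.mem_coe] at hv hv'
    simp only [dif_pos hv, dif_pos hv'] at h
    have := e.injective (Subtype.ext h)
    exact congrArg Subtype.val this
  obtain ⟨g, hg, hgood⟩ := exists_good2 (J := J) (B := B) (by rw [hBcard, hcard]; exact hm)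
    (WE φ ψ ω (2 * J + 2))
    (fun W hW hWc c hc => isolateE hlam hψ hω hW (le_of_eq hWc) hc) (by rw [hcard]; exact hq)
  obtain ⟨t, ht⟩ := exists_level (J := J) B g (by rw [hcard]; exact Nat.two_pow_pos m)
  have hn1 : 1 ≤ n := le_trans (Nat.mul_pos hJ hL) hn
  set S : Finset (Fin n → Fin 2) := univ.filter fun w => value w ∈ levN (2 ^ L) J B g t with hS
  have hSmem : ∀ w, w ∈ S ↔ value w ∈ levN (2 ^ L) J B g t := by
    intro w
    rw [hS, Finset.mem_filter]
    exact ⟨fun h => h.2, fun h => ⟨Finset.mem_univ _, h⟩⟩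
  have epow : (2 ^ L) ^ J = 2 ^ (J * L) := by rw [← pow_mul, mul_comm L J]
  have hlt : ∀ a ∈ levN (2 ^ L) J B g t, a < 2 ^ (J * L) := by
    rintro a ⟨c, -, rfl⟩
    exact lt_of_lt_of_eq (finFunctionFinEquiv c).2 epow
  refine ⟨levN (2 ^ L) J B g t, S, fun k => ?_, fun v => hSmem v, hlt, ?_,
    fun N => rep_levN (Nat.two_pow_pos L) hS1 hS2 hBmem hgood t N⟩
  · set D : Finset (Fin n) := Finset.univ.filter fun i : Fin n => (i : ℕ) < k with hD
    obtain ⟨i₀, hi₀⟩ := comb_cut (L := L) (D := D) hJ (Or.inr ⟨k, hD⟩)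
    refine ⟨K, inferInstance, fn n L J m B g t, fun w => ?_, ?_⟩
    · rw [fn_ne hcard hm1, hSmem]
    · rw [← hBcard]
      refine rk_fn_of hL t D i₀ hi₀ fun v₀ => ?_
      have h1 : g - t • 1 ∈ WE φ ψ ω (2 * J + 2) :=
        Submodule.sub_mem _ hg (Submodule.smul_mem _ _ (one_mem_WE hlam ψ ω (by omega)))
      have h2 := rk_WE (fun i => pb n L i) (fun i w => bk L J i w)
        (fun i w w' h => bk_congr i w w' h) D i₀ hi₀ v₀ h1
      rw [hfin] at h2
      exact h2
  · rw [← hBcard]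
    refine ht.trans ?_
    rw [hcard]
    refine Nat.mul_le_mul_left _ ?_
    have h1 : ∀ c : Fin J → Fin (2 ^ L), ∃ w : Fin n → Fin 2,
        value w = (finFunctionFinEquiv c : ℕ) := by
      intro c
      apply Helper1.LR.exists_value
      exact (lt_of_lt_of_eq (finFunctionFinEquiv c).2 epow).trans_le
        (Nat.pow_le_pow_right (by norm_num) hn)
    choose W hW using h1
    refine Finset.card_le_card_of_injOn W ?_ ?_
    · intro c hc
      rw [Finset.mem_coe, hSmem, hW]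
      exact ⟨c, hc, rfl⟩
    · intro c _ c' _ h
      have h2 : (finFunctionFinEquiv c : ℕ) = finFunctionFinEquiv c' := by
        rw [← hW c, ← hW c', h]
      exact finFunctionFinEquiv.injective (Fin.ext h2)

end Pool.Agent.Helper1.LR.CutBlock
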