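import Mathlib

/-!
# Choosing a tuple of functions over `ZMod 2` which avoids bad sets
-/

set_option autoImplicit false

namespace Pool.Agent.Helper1.LR

open Finset

variable {Ω : Type} [Fintype Ω] [DecidableEq Ω]

lemma card_one (W : Finset (Ω → ZMod 2)) (hadd : ∀ g ∈ W, ∀ h ∈ W, g + h ∈ W) (M : ℕ)
    (hiso : ∀ (E : Finset Ω) (x₀ : Ω), x₀ ∉ E → #E < M → ∃ g ∈ W, g x₀ = 1 ∧ ∀ x ∈ E, g x = 0)
    (E : Finset Ω) : #E ≤ M → #{g ∈ W | ∀ x ∈ E, g x = 1} * 2 ^ #E = #W := by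
  induction E using Finset.induction_on with
  | empty =>
    intro _
    rw [card_empty, pow_zero, mul_one, filter_true_of_mem]
    intro g _ x hx
    exact absurd hx (notMem_empty _)
  | insert x₀ E hx ih =>
    intro hM
    rw [card_insert_of_notMem hx] at hM ⊢
    obtain ⟨h, hW, h1, h2⟩ := hiso E x₀ hx (by omega)
    have e1 : ∀ t : ZMod 2, t = 1 → ¬ (t + 1 = 1) := by decide
    have e2 : ∀ t : ZMod 2, ¬ t = 1 → t + 1 = 1 := by decide
    have e3 : ∀ t : ZMod 2, t + t = 0 := by decide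
    have hh : ∀ g : Ω → ZMod 2, g + h + h = g := by
      intro g
      funext x
      rw [Pi.add_apply, Pi.add_apply, add_assoc, e3, add_zero]
    have h4 : {g ∈ W | ∀ x ∈ insert x₀ E, g x = 1} =
        {g ∈ {g ∈ W | ∀ x ∈ E, g x = 1} | g x₀ = 1} := by
      ext g
      simp only [mem_filter, mem_insert, forall_eq_or_imp]
      tauto
    have key : #{g ∈ {g ∈ W | ∀ x ∈ E, g x = 1} | g x₀ = 1} =
        #{g ∈ {g ∈ W | ∀ x ∈ E, g x = 1} | ¬ g x₀ = 1} := by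
      refine card_bij' (fun g _ => g + h) (fun g _ => g + h) ?_ ?_ ?_ ?_
      · intro g hg
        rw [mem_filter, mem_filter] at hg ⊢
        obtain ⟨⟨g1, g2⟩, g3⟩ := hg
        refine ⟨⟨hadd g g1 h hW, fun x hxE => ?_⟩, ?_⟩
        · rw [Pi.add_apply, g2 x hxE, h2 x hxE, add_zero]
        · rw [Pi.add_apply, h1]
          exact e1 _ g3
      · intro g hg
        rw [mem_filter, mem_filter] at hg ⊢
        obtain ⟨⟨g1, g2⟩, g3⟩ := hg
        refine ⟨⟨hadd g g1 h hW, fun x hxE => ?_⟩, ?_⟩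
        · rw [Pi.add_apply, g2 x hxE, h2 x hxE, add_zero]
        · rw [Pi.add_apply, h1]
          exact e2 _ g3
      · intro g _
        exact hh g
      · intro g _
        exact hh g
    have h3 := card_filter_add_card_filter_not (s := {g ∈ W | ∀ x ∈ E, g x = 1})
      (fun g => g x₀ = 1)
    rw [h4, ← ih (by omega), ← h3, ← key, pow_succ]
    ring

theorem exists_tuple (W : Finset (Ω → ZMod 2)) (hadd : ∀ g ∈ W, ∀ h ∈ W, g + h ∈ W)
    (hW : W.Nonempty) {M t : ℕ} (hM : 1 ≤ M)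
    (hiso : ∀ (E : Finset Ω) (x₀ : Ω), x₀ ∉ E → #E < M → ∃ g ∈ W, g x₀ = 1 ∧ ∀ x ∈ E, g x = 0)
    (X : Finset Ω) (hX : X.Nonempty) (Bad : Finset (Finset Ω)) (hBad : ∀ E ∈ Bad, #E = M)
    (hcount : 2 * #Bad * 2 ^ t ≤ 2 ^ (t * M)) :
    ∃ P : Fin t → Ω → ZMod 2, (∀ l, P l ∈ W) ∧ (∀ E ∈ Bad, ¬ ∀ l, ∀ x ∈ E, P l x = 1) ∧
      #X ≤ 2 ^ (t + 1) * #{x ∈ X | ∀ l, P l x = 1} := by
  set T : Finset (Fin t → Ω → ZMod 2) := Fintype.piFinset fun _ : Fin t => W with hT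
  have hcT : #T = #W ^ t := by
    rw [hT, Fintype.card_piFinset, prod_const, card_univ, Fintype.card_fin]
  have hE : ∀ E : Finset Ω, #E ≤ M →
      #{P ∈ T | ∀ l, ∀ x ∈ E, P l x = 1} * 2 ^ (t * #E) = #W ^ t := by
    intro E hEM
    have h1 : {P ∈ T | ∀ l, ∀ x ∈ E, P l x = 1} =
        Fintype.piFinset fun _ : Fin t => {g ∈ W | ∀ x ∈ E, g x = 1} := by
      ext P
      simp only [hT, mem_filter, Fintype.mem_piFinset]
      exact ⟨fun h l => ⟨h.1 l, h.2 l⟩, fun h => ⟨fun l => (h l).1, fun l => (h l).2⟩⟩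
    rw [h1, Fintype.card_piFinset, prod_const, card_univ, Fintype.card_fin, mul_comm t, pow_mul,
      ← mul_pow, card_one W hadd M hiso E hEM]
  have sum1 : (∑ P ∈ T, #{x ∈ X | ∀ l, P l x = 1}) * 2 ^ t = #X * #W ^ t := by
    have h1 : ∑ P ∈ T, #{x ∈ X | ∀ l, P l x = 1} = ∑ x ∈ X, #{P ∈ T | ∀ l, P l x = 1} := by
      simp only [card_filter]
      exact sum_comm
    rw [h1, sum_mul, sum_congr rfl fun x _ => ?_, sum_const, smul_eq_mul]
    have h2 := hE {x} (by rwa [card_singleton])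
    rw [card_singleton, mul_one] at h2
    rw [← h2]
    simp only [mem_singleton, forall_eq]
  have sum2 : (∑ P ∈ T, #{E ∈ Bad | ∀ l, ∀ x ∈ E, P l x = 1}) * 2 ^ (t * M) =
      #Bad * #W ^ t := by
    have h1 : ∑ P ∈ T, #{E ∈ Bad | ∀ l, ∀ x ∈ E, P l x = 1} =
        ∑ E ∈ Bad, #{P ∈ T | ∀ l, ∀ x ∈ E, P l x = 1} := by
      simp only [card_filter]
      exact sum_comm
    rw [h1, sum_mul, sum_congr rfl fun E hEB => ?_, sum_const, smul_eq_mul]
    have h2 := hE E (le_of_eq (hBad E hEB))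
    rw [hBad E hEB] at h2
    exact h2
  by_contra hcon
  push Not at hcon
  have hw : 0 < #W ^ t := pow_pos (card_pos.2 hW) t
  have hX0 : 0 < #X := card_pos.2 hX
  have hall : ∀ P ∈ T, 2 ^ (t + 1) * #{x ∈ X | ∀ l, P l x = 1} + 1 ≤
      #X + 2 ^ (t + 1) * (#X * #{E ∈ Bad | ∀ l, ∀ x ∈ E, P l x = 1}) := by
    intro P hP
    rcases Nat.eq_zero_or_pos #{E ∈ Bad | ∀ l, ∀ x ∈ E, P l x = 1} with h0 | h0
    · have h1 := hcon P (fun l => Fintype.mem_piFinset.1 hP l) (fun E hEB => by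
        by_contra hall
        push Not at hall
        rw [card_eq_zero] at h0
        have : E ∈ ({E ∈ Bad | ∀ l, ∀ x ∈ E, P l x = 1} : Finset (Finset Ω)) :=
          mem_filter.2 ⟨hEB, hall⟩
        rw [h0] at this
        exact notMem_empty _ this)
      omega
    · have h1 : #{x ∈ X | ∀ l, P l x = 1} ≤ #X * #{E ∈ Bad | ∀ l, ∀ x ∈ E, P l x = 1} :=
        (card_filter_le _ _).trans (Nat.le_mul_of_pos_right _ h0)
      have h2 := Nat.mul_le_mul_left (2 ^ (t + 1)) h1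
      omega
  have h1 := sum_le_sum hall
  rw [sum_add_distrib, sum_add_distrib, sum_const, sum_const, smul_eq_mul, smul_eq_mul, mul_one,
    ← mul_sum, ← mul_sum, ← mul_sum, hcT] at h1
  set A := ∑ P ∈ T, #{x ∈ X | ∀ l, P l x = 1} with hA
  set B := ∑ P ∈ T, #{E ∈ Bad | ∀ l, ∀ x ∈ E, P l x = 1} with hB
  have h2 : 2 ^ (t + 1) * A = 2 * (#X * #W ^ t) := by
    rw [← sum1, pow_succ]
    ring
  have h3 : 2 ^ (t + 1) * B ≤ #W ^ t := by
    have h4 : 2 ^ (t + 1) * B * 2 ^ (t * M) ≤ #W ^ t * 2 ^ (t * M) := by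
      calc 2 ^ (t + 1) * B * 2 ^ (t * M) = 2 ^ (t + 1) * (B * 2 ^ (t * M)) := by ring
        _ = 2 ^ (t + 1) * (#Bad * #W ^ t) := by rw [sum2]
        _ = #W ^ t * (2 * #Bad * 2 ^ t) := by ring
        _ ≤ #W ^ t * 2 ^ (t * M) := Nat.mul_le_mul_left _ hcount
    exact Nat.le_of_mul_le_mul_right h4 (by positivity)
  have h5 : 2 ^ (t + 1) * (#X * B) ≤ #X * #W ^ t := by
    calc 2 ^ (t + 1) * (#X * B) = #X * (2 ^ (t + 1) * B) := by ring
      _ ≤ #X * #W ^ t := Nat.mul_le_mul_left _ h3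
  rw [h2] at h1
  have h6 : #W ^ t * #X = #X * #W ^ t := mul_comm _ _
  rw [h6] at h1
  omega

end Pool.Agent.Helper1.LR
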