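import Pool.Agent.Helper84.TN.Rank
import Pool.Agent.Helper1.TY.Sharp

/-!
# Binary words: digits and blocks, and ranks of products
-/

set_option autoImplicit false

namespace Pool.Agent.Helper1.LR

open Finset Pool.Agent.Helper84.TN Pool.Agent.Helper1.TY

/-- the number with the binary digits `w` -/
def value {n : ℕ} (w : Fin n → Fin 2) : ℕ := ∑ i, (w i : ℕ) * 2 ^ (i : ℕ)

variable {n : ℕ}

lemma value_eq (w : Fin n → Fin 2) : value w = (finFunctionFinEquiv w : ℕ) :=
  (finFunctionFinEquiv_apply w).symm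

lemma value_lt (w : Fin n → Fin 2) : value w < 2 ^ n := by
  rw [value_eq]
  exact (finFunctionFinEquiv w).2

lemma value_inj : Function.Injective (value (n := n)) := by
  intro w w' h
  rw [value_eq, value_eq] at h
  exact finFunctionFinEquiv.injective (Fin.ext h)

lemma exists_value {x : ℕ} (hx : x < 2 ^ n) : ∃ w : Fin n → Fin 2, value w = x := by
  refine ⟨finFunctionFinEquiv.symm ⟨x, hx⟩, ?_⟩
  rw [value_eq, Equiv.apply_symm_apply]

lemma value_digit (w : Fin n → Fin 2) (i : Fin n) : value w / 2 ^ (i : ℕ) % 2 = w i := by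
  have h := congrFun (finFunctionFinEquiv.symm_apply_apply w) i
  have h1 : ((finFunctionFinEquiv.symm (finFunctionFinEquiv w)) i : ℕ) =
      (finFunctionFinEquiv w : ℕ) / 2 ^ (i : ℕ) % 2 := rfl
  rw [value_eq, ← h1, h]

lemma value_block {L b : ℕ} (w w' : Fin n → Fin 2) (h : ∀ i : Fin n, (i : ℕ) / L = b → w i = w' i) :
    value w / (2 ^ L) ^ b % 2 ^ L = value w' / (2 ^ L) ^ b % 2 ^ L := by
  rw [← pow_mul]
  refine Nat.eq_of_testBit_eq fun r => ?_
  rw [Nat.testBit_mod_two_pow, Nat.testBit_mod_two_pow, Nat.testBit_div_two_pow,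
    Nat.testBit_div_two_pow]
  by_cases hr : r < L
  · by_cases hn : r + L * b < n
    · have h1 := h ⟨r + L * b, hn⟩ (by
        simp only
        rw [Nat.add_mul_div_left _ _ (by omega), Nat.div_eq_of_lt hr, zero_add])
      have h2 := value_digit w ⟨r + L * b, hn⟩
      have h3 := value_digit w' ⟨r + L * b, hn⟩
      simp only at h2 h3
      rw [Nat.testBit_eq_decide_div_mod_eq, Nat.testBit_eq_decide_div_mod_eq, h2, h3, h1]
    · have h1 : ∀ u : Fin n → Fin 2, (value u).testBit (r + L * b) = false := fun u =>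
        Nat.testBit_lt_two_pow ((value_lt u).trans_le (Nat.pow_le_pow_right (by norm_num)
          (by omega)))
      rw [h1, h1]
  · simp [hr]

/-- membership in the block sums, block by block -/
lemma mem_blk_iff {q : ℕ} {S₀ : Finset ℕ} (hb : 0 < q) (hS : ∀ a ∈ S₀, 2 * a < q) (m : ℕ) :
    ∀ x, x ∈ blk q S₀ m ↔ (∀ b < m, x / q ^ b % q ∈ S₀) ∧ x / q ^ m = 0 := by
  induction m with
  | zero =>
    intro x
    simp [blk]
  | succ m ih =>
    intro x
    rw [mem_blk_succ hb hS, ih]
    constructor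
    · rintro ⟨h1, h2, h3⟩
      refine ⟨fun b hbm => ?_, ?_⟩
      · rcases Nat.eq_zero_or_pos b with h | h
        · rw [h, pow_zero, Nat.div_one]
          exact h1
        · obtain ⟨b', rfl⟩ : ∃ b', b = b' + 1 := ⟨b - 1, by omega⟩
          have := h2 b' (by omega)
          rwa [Nat.div_div_eq_div_mul, ← pow_succ'] at this
      · rwa [Nat.div_div_eq_div_mul, ← pow_succ'] at h3
    · rintro ⟨h1, h2⟩
      refine ⟨?_, fun b hbm => ?_, ?_⟩
      · have := h1 0 (by omega)
        rwa [pow_zero, Nat.div_one] at this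
      · have := h1 (b + 1) (by omega)
        rwa [Nat.div_div_eq_div_mul, ← pow_succ']
      · rwa [Nat.div_div_eq_div_mul, ← pow_succ']

section Ranks

variable {ι : Type} [Fintype ι] [DecidableEq ι]

lemma rk_one (D : Finset ι) : rk (1 : (ι → Fin 2) → ZMod 2) D ≤ 1 :=
  rk_le_one 1 fun v => ⟨1, by
    rw [one_smul]
    rfl⟩

lemma rk_prod {κ : Type} (s : Finset κ) (g : κ → (ι → Fin 2) → ZMod 2) (D : Finset ι) :
    rk (∏ l ∈ s, g l) D ≤ ∏ l ∈ s, rk (g l) D := by
  classical
  induction s using Finset.induction_on with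
  | empty =>
    rw [prod_empty, prod_empty]
    exact rk_one D
  | insert a s ha ih =>
    rw [prod_insert ha, prod_insert ha]
    exact (rk_mul _ _ _).trans (Nat.mul_le_mul_left _ ih)

/-- a function of the digits in `B`, where `B` is contained in `D` or disjoint from `D` -/
lemma rk_dep_one (f : (ι → Fin 2) → ZMod 2) (B D : Finset ι)
    (hf : ∀ w w', (∀ i ∈ B, w i = w' i) → f w = f w') (h : B ⊆ D ∨ Disjoint B D) :
    rk f D ≤ 1 := by
  rcases h with h | h
  · refine rk_le_one 1 fun v => ⟨f v, ?_⟩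
    funext w
    rw [Pi.smul_apply, Pi.one_apply, smul_eq_mul, mul_one]
    refine hf _ _ fun i hi => ?_
    rw [piecewise_eq_of_mem _ _ _ (h hi)]
  · refine rk_le_one f fun v => ⟨1, ?_⟩
    funext w
    rw [Pi.smul_apply, smul_eq_mul, one_mul]
    refine hf _ _ fun i hi => ?_
    rw [piecewise_eq_of_notMem _ _ _ (disjoint_left.1 h hi)]

/-- a function of the digits in `B` -/
lemma rk_dep (f : (ι → Fin 2) → ZMod 2) (B D : Finset ι)
    (hf : ∀ w w', (∀ i ∈ B, w i = w' i) → f w = f w') : rk f D ≤ 2 ^ #B := by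
  let ext : (B → Fin 2) → ι → Fin 2 := fun u i => if h : i ∈ B then u ⟨i, h⟩ else 0
  have h1 : Set.range (row f D) ⊆ Set.range fun u : B → Fin 2 => row f D (ext u) := by
    rintro _ ⟨v, rfl⟩
    refine ⟨fun i => v i, ?_⟩
    funext w
    refine hf _ _ fun i hi => ?_
    by_cases hD : i ∈ D
    · rw [piecewise_eq_of_mem _ _ _ hD, piecewise_eq_of_mem _ _ _ hD]
      simp [ext, hi]
    · rw [piecewise_eq_of_notMem _ _ _ hD, piecewise_eq_of_notMem _ _ _ hD]
  refine (Submodule.finrank_mono (Submodule.span_mono h1)).trans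
    ((finrank_range_le_card _).trans (le_of_eq ?_))
  rw [Fintype.card_fun, Fintype.card_fin, Fintype.card_coe]

end Ranks

end Pool.Agent.Helper1.LR
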