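import Pool.Agent.Helper1.LR.Poly
import Pool.Agent.Helper1.LR.Pick
import Pool.Agent.Helper1.LR.Words

/-!
# A set with few representations and with a unique choice of small unfolding ranks
-/

set_option autoImplicit false

namespace Pool.Agent.Helper1.LR

open Finset Pool.Agent.Helper84.TN Pool.Agent.Helper1.TY Pool.Agent.Helper45.TY

/-- the main construction, for a set of numbers less than `2 ^ n` whose representation function is
at most `2 ^ j` -/
theorem exists_sub {n j L : ℕ} (hj : 1 ≤ j) (hn : n ≤ j * L) (Y : Finset ℕ) (hY : Y.Nonempty)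
    (hlt : ∀ x ∈ Y, x < 2 ^ n) (hrep : ∀ N, rpF Y N ≤ 2 ^ j) :
    ∃ P : Fin (2 * j) → (Fin n → Fin 2) → ZMod 2,
      (∀ l, P l ∈ Pol (Fin n) (Nat.clog 2 (L + 4))) ∧
      #Y ≤ 2 ^ (2 * j + 1) *
        #{w : Fin n → Fin 2 | value w ∈ Y ∧ ∀ l, P l w = 1} ∧
      ∀ N, #{w : Fin n → Fin 2 | (value w ∈ Y ∧ ∀ l, P l w = 1) ∧ value w ≤ N ∧
        N - value w ∈ Y} ≤ L + 3 := by
  classical
  set W : Finset ((Fin n → Fin 2) → ZMod 2) :=
    univ.filter (· ∈ Pol (Fin n) (Nat.clog 2 (L + 4))) with hW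
  have hmemW : ∀ g, g ∈ W ↔ g ∈ Pol (Fin n) (Nat.clog 2 (L + 4)) := fun g => by
    rw [hW, mem_filter]
    exact ⟨fun h => h.2, fun h => ⟨mem_univ _, h⟩⟩
  set X : Finset (Fin n → Fin 2) := {w | value w ∈ Y} with hX
  set C : ℕ → Finset (Fin n → Fin 2) := fun N => {w | value w ∈ Y ∧ value w ≤ N ∧
    N - value w ∈ Y} with hC
  have hCc : ∀ N, #(C N) ≤ 2 ^ j := by
    intro N
    refine le_trans ?_ (hrep N)
    unfold rpF
    refine card_le_card_of_injOn (fun w => (value w, N - value w)) ?_ ?_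
    · intro w hw
      rw [hC, mem_coe, mem_filter] at hw
      obtain ⟨-, h1, h2, h3⟩ := hw
      rw [mem_coe, mem_filter, mem_product]
      exact ⟨⟨h1, h3⟩, by simp only; omega⟩
    · intro w _ w' _ h
      exact value_inj (Prod.mk.inj h).1
  set Bad : Finset (Finset (Fin n → Fin 2)) :=
    (range (2 ^ (n + 1))).biUnion fun N => powersetCard (L + 4) (C N) with hBad
  have hBc : #Bad ≤ 2 ^ (n + 1) * (2 ^ j) ^ (L + 4) := by
    refine card_biUnion_le.trans ?_
    calc ∑ N ∈ range (2 ^ (n + 1)), #(powersetCard (L + 4) (C N)) ≤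
        ∑ _N ∈ range (2 ^ (n + 1)), (2 ^ j) ^ (L + 4) := by
          refine sum_le_sum fun N _ => ?_
          rw [card_powersetCard]
          exact (Nat.choose_le_pow _ _).trans (Nat.pow_le_pow_left (hCc N) _)
      _ = 2 ^ (n + 1) * (2 ^ j) ^ (L + 4) := by
          rw [sum_const, card_range, smul_eq_mul]
  have hXY : #X = #Y := by
    refine card_bij (fun w _ => value w) ?_ ?_ ?_
    · intro w hw
      rw [hX, mem_filter] at hw
      exact hw.2
    · intro w _ w' _ h
      exact value_inj h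
    · intro x hx
      obtain ⟨w, hw⟩ := exists_value (hlt x hx)
      refine ⟨w, ?_, hw⟩
      rw [hX, mem_filter, hw]
      exact ⟨mem_univ _, hx⟩
  obtain ⟨P, hP1, hP2, hP3⟩ := exists_tuple W (fun g hg h hh => by
      rw [hmemW] at hg hh ⊢
      exact Submodule.add_mem _ hg hh) ⟨0, (hmemW _).2 (Submodule.zero_mem _)⟩
    (M := L + 4) (t := 2 * j) (by omega) (fun E x₀ hx₀ hE => by
      obtain ⟨g, hg, h1, h2⟩ := isolate (Nat.clog 2 (L + 4)) E x₀ hx₀
        (hE.trans_le (Nat.le_pow_clog (by norm_num) _))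
      exact ⟨g, (hmemW g).2 hg, h1, h2⟩) X (card_pos.1 (by rw [hXY]; exact card_pos.2 hY)) Bad
    (fun E hE => by
      rw [hBad, mem_biUnion] at hE
      obtain ⟨N, _, hE⟩ := hE
      exact (mem_powersetCard.1 hE).2) (by
      calc 2 * #Bad * 2 ^ (2 * j) ≤ 2 * (2 ^ (n + 1) * (2 ^ j) ^ (L + 4)) * 2 ^ (2 * j) := by
            gcongr
        _ = 2 ^ (n + 2 + j * (L + 4) + 2 * j) := by
            rw [← pow_mul]
            ring
        _ ≤ 2 ^ (2 * j * (L + 4)) := by
            refine Nat.pow_le_pow_right (by norm_num) ?_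
            nlinarith)
  refine ⟨P, fun l => (hmemW _).1 (hP1 l), ?_, ?_⟩
  · rw [hXY] at hP3
    refine hP3.trans (le_of_eq ?_)
    rw [hX, filter_filter]
  · intro N
    by_contra hcon
    push Not at hcon
    obtain ⟨E, hE1, hE2⟩ := exists_subset_card_eq (Nat.succ_le_of_lt hcon)
    have hE3 : #E = L + 4 := hE2
    have hEmem : ∀ w ∈ E, (value w ∈ Y ∧ ∀ l, P l w = 1) ∧ value w ≤ N ∧ N - value w ∈ Y :=
      fun w hw => (mem_filter.1 (hE1 hw)).2
    refine hP2 E ?_ fun l w hw => (hEmem w hw).1.2 l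
    rw [hBad, mem_biUnion]
    refine ⟨N, ?_, mem_powersetCard.2 ⟨fun w hw => ?_, hE3⟩⟩
    · obtain ⟨w, hw⟩ : E.Nonempty := card_pos.1 (by omega)
      obtain ⟨⟨h1, -⟩, h2, h3⟩ := hEmem w hw
      have h4 := hlt _ h1
      have h5 := hlt _ h3
      rw [mem_range, pow_succ]
      omega
    · obtain ⟨⟨h1, -⟩, h2, h3⟩ := hEmem w hw
      rw [hC, mem_filter]
      exact ⟨mem_univ _, h1, h2, h3⟩

/-- **Few representations with small unfolding ranks.** -/
theorem low_rank_sharp (j L : ℕ) (hj : 1 ≤ j) (hL : 24 ≤ L) :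
    ∃ (S : Finset ℕ) (f : (Fin (j * L) → Fin 2) → ZMod 2),
      (∀ a ∈ S, a < 2 ^ (j * L)) ∧ 2 ^ (j * L) ≤ #S ^ 4 ∧
      (∀ m, #{p ∈ S ×ˢ S | p.1 + p.2 = m} ≤ L + 3) ∧
      (∀ w, f w ≠ 0 ↔ ∑ i, (w i : ℕ) * 2 ^ (i : ℕ) ∈ S) ∧
      ∀ D : Finset (Fin (j * L)),
        (∃ b₀, ∀ b, b ≠ b₀ → (∀ i : Fin (j * L), (i : ℕ) / L = b → i ∈ D) ∨
          ∀ i : Fin (j * L), (i : ℕ) / L = b → i ∉ D) →
        rk f D ≤ 2 ^ L * (j * L + 1) ^ (2 * j * Nat.clog 2 (L + 4)) := by
  classical
  obtain ⟨S₀, h1, h2, h3⟩ := exists_sidon (q := 2) (l := L) le_rfl (δ := 3 / 8) (by norm_num) (by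
    have : (24 : ℝ) ≤ L := by exact_mod_cast hL
    linarith)
  have hb : 0 < 2 ^ L := by positivity
  set Y := blk (2 ^ L) S₀ j with hY
  have hlt : ∀ x ∈ Y, x < 2 ^ (j * L) := by
    intro x hx
    have := blk_lt hb h1 j x hx
    rwa [← pow_mul, mul_comm L j] at this
  have hS₀ : (2 : ℝ) ^ (3 / 8 * (L : ℝ)) ≤ #S₀ := by
    have := h3
    push_cast at this
    exact this
  have hS₀1 : 1 ≤ #S₀ := by
    have h4 : (1 : ℝ) ≤ (2 : ℝ) ^ (3 / 8 * (L : ℝ)) := Real.one_le_rpow (by norm_num) (by positivity)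
    have h5 : (1 : ℝ) ≤ #S₀ := h4.trans hS₀
    exact_mod_cast h5
  have hYc : #Y = #S₀ ^ j := card_blk hb h1 j
  have hYne : Y.Nonempty := card_pos.1 (by rw [hYc]; positivity)
  obtain ⟨P, hP1, hP2, hP3⟩ := exists_sub hj le_rfl Y hYne hlt (rp_blk hb h1 h2 j)
  set S : Finset ℕ := Finset.image value
    ({w | value w ∈ Y ∧ ∀ l, P l w = 1} : Finset (Fin (j * L) → Fin 2)) with hS
  have hmemS : ∀ w : Fin (j * L) → Fin 2, value w ∈ S ↔ value w ∈ Y ∧ ∀ l, P l w = 1 := by
    intro w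
    rw [hS, mem_image]
    constructor
    · rintro ⟨w', hw', h⟩
      rw [value_inj h] at hw'
      exact (mem_filter.1 hw').2
    · intro h
      exact ⟨w, mem_filter.2 ⟨mem_univ _, h⟩, rfl⟩
  have hSY : ∀ x ∈ S, x ∈ Y := by
    intro x hx
    rw [hS, mem_image] at hx
    obtain ⟨w, hw, rfl⟩ := hx
    exact (mem_filter.1 hw).2.1
  have hSc : #S = #{w : Fin (j * L) → Fin 2 | value w ∈ Y ∧ ∀ l, P l w = 1} :=
    card_image_of_injective _ value_inj
  let F : ℕ → (Fin (j * L) → Fin 2) → ZMod 2 := fun b w =>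
    if value w / (2 ^ L) ^ b % 2 ^ L ∈ S₀ then 1 else 0
  have hF : ∀ w : Fin (j * L) → Fin 2, (∏ b ∈ range j, F b) w ≠ 0 ↔ value w ∈ Y := by
    intro w
    rw [prod_apply, prod_ne_zero_iff, hY, mem_blk_iff hb h1]
    constructor
    · intro h
      refine ⟨fun b hbj => ?_, ?_⟩
      · have := h b (mem_range.2 hbj)
        by_contra hno
        exact this (if_neg hno)
      · rw [Nat.div_eq_zero_iff]
        right
        rw [← pow_mul, mul_comm L j]
        exact value_lt w
    · rintro ⟨h, -⟩ b hbj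
      have := h b (mem_range.1 hbj)
      simp only [F, if_pos this]
      decide
  have hPr : ∀ w : Fin (j * L) → Fin 2, (∏ l, P l) w ≠ 0 ↔ ∀ l, P l w = 1 := by
    intro w
    have h01 : ∀ t : ZMod 2, t ≠ 0 ↔ t = 1 := by decide
    rw [prod_apply, prod_ne_zero_iff]
    simp only [mem_univ, true_imp_iff, h01]
  refine ⟨S, (∏ b ∈ range j, F b) * ∏ l, P l, fun a ha => hlt a (hSY a ha), ?_, ?_, ?_, ?_⟩
  · -- the cardinality
    rw [← hSc, hYc] at hP2
    have e1 : ((2 : ℝ) ^ (3 / 8 * (L : ℝ))) ^ j ≤ (2 : ℝ) ^ (2 * j + 1) * #S := by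
      calc ((2 : ℝ) ^ (3 / 8 * (L : ℝ))) ^ j ≤ (#S₀ : ℝ) ^ j :=
            pow_le_pow_left₀ (by positivity) hS₀ j
        _ ≤ (2 : ℝ) ^ (2 * j + 1) * #S := by exact_mod_cast hP2
    have e2 : (2 : ℝ) ^ (((j * L : ℕ) : ℝ) / 4) ≤ #S := by
      have e3 : (2 : ℝ) ^ (((j * L : ℕ) : ℝ) / 4) * (2 : ℝ) ^ (2 * j + 1) ≤
          ((2 : ℝ) ^ (3 / 8 * (L : ℝ))) ^ j := by
        rw [← Real.rpow_natCast _ (2 * j + 1), ← Real.rpow_natCast _ j, ← Real.rpow_mul (by norm_num),
          ← Real.rpow_add (by norm_num)]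
        refine Real.rpow_le_rpow_of_exponent_le (by norm_num) ?_
        have hLr : (24 : ℝ) ≤ L := by exact_mod_cast hL
        have hjr : (1 : ℝ) ≤ j := by exact_mod_cast hj
        push_cast
        nlinarith
      have e4 := e3.trans e1
      rw [mul_comm] at e4
      exact le_of_mul_le_mul_left e4 (by positivity)
    have e5 : ((2 : ℝ) ^ (j * L)) ≤ (#S : ℝ) ^ 4 := by
      calc ((2 : ℝ) ^ (j * L)) = ((2 : ℝ) ^ (((j * L : ℕ) : ℝ) / 4)) ^ 4 := by
            rw [← Real.rpow_natCast _ 4, ← Real.rpow_mul (by norm_num), ← Real.rpow_natCast]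
            congr 1
            push_cast
            ring
        _ ≤ (#S : ℝ) ^ 4 := pow_le_pow_left₀ (by positivity) e2 4
    exact_mod_cast e5
  · -- the representations
    intro m
    refine le_trans ?_ (hP3 m)
    refine card_le_card_of_surjOn (fun w => (value w, m - value w)) ?_
    rintro ⟨x, y⟩ hxy
    rw [mem_coe, mem_filter, mem_product] at hxy
    obtain ⟨⟨hx, hy⟩, hm⟩ := hxy
    simp only at hx hy hm
    obtain ⟨w, hw⟩ := exists_value (hlt x (hSY x hx))
    refine ⟨w, ?_, ?_⟩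
    · rw [mem_coe, mem_filter]
      refine ⟨mem_univ _, (hmemS w).1 (by rwa [hw]), by omega, ?_⟩
      rw [hw, show m - x = y by omega]
      exact hSY y hy
    · simp only [hw, Prod.mk.injEq, true_and]
      omega
  · intro w
    change _ ↔ value w ∈ S
    rw [Pi.mul_apply, mul_ne_zero_iff, hF, hPr, hmemS]
  · rintro D ⟨b₀, hD⟩
    refine (rk_mul _ _ _).trans (Nat.mul_le_mul ?_ ?_)
    · refine (rk_prod _ _ _).trans ?_
      have hdep : ∀ b (w w' : Fin (j * L) → Fin 2),
          (∀ i ∈ ({i | (i : ℕ) / L = b} : Finset (Fin (j * L))), w i = w' i) → F b w = F b w' := by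
        intro b w w' h
        have := value_block (L := L) (b := b) w w' fun i hi => h i (mem_filter.2 ⟨mem_univ _, hi⟩)
        simp only [F]
        rw [this]
      have hcard : ∀ b, #({i | (i : ℕ) / L = b} : Finset (Fin (j * L))) ≤ L := by
        intro b
        have hL0 : 0 < L := by omega
        have : #({i | (i : ℕ) / L = b} : Finset (Fin (j * L))) ≤ #(Finset.Ico (b * L) (b * L + L)) := by
          refine card_le_card_of_injOn (fun i => (i : ℕ)) ?_ ?_
          · intro i hi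
            rw [mem_coe, mem_filter] at hi
            obtain ⟨-, hi⟩ := hi
            rw [mem_coe, mem_Ico, ← hi]
            exact ⟨Nat.div_mul_le_self _ _, Nat.lt_div_mul_add hL0⟩
          · intro i _ i' _ h
            exact Fin.ext h
        rwa [Nat.card_Ico, Nat.add_sub_cancel_left] at this
      have hone : ∀ b, rk (F b) D ≤ if b = b₀ then 2 ^ L else 1 := by
        intro b
        split_ifs with hbb
        · exact (rk_dep (F b) _ D (hdep b)).trans (Nat.pow_le_pow_right (by norm_num) (hcard b))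
        · refine rk_dep_one (F b) _ D (hdep b) ?_
          rcases hD b hbb with h | h
          · left
            intro i hi
            exact h i (mem_filter.1 hi).2
          · right
            rw [disjoint_left]
            intro i hi
            exact h i (mem_filter.1 hi).2
      refine (prod_le_prod' fun b _ => hone b).trans ?_
      rw [prod_ite_eq']
      split_ifs
      · exact le_rfl
      · exact Nat.one_le_two_pow
    · refine (rk_prod _ _ _).trans ?_
      refine (prod_le_prod' fun l _ => rk_pol (hP1 l) D).trans ?_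
      rw [prod_const, card_univ, Fintype.card_fin, Fintype.card_fin, ← pow_mul, mul_comm (Nat.clog _ _)]

end Pool.Agent.Helper1.LR
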