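import Pool.Agent.Helper84.TN.Rank

/-!
# Unfolding ranks over a finite field: powers, sums and functions of few letters
-/

set_option autoImplicit false

namespace Pool.Agent.Helper1.LR

open Finset Pool.Agent.Helper84.TN

variable {ι β K : Type} [DecidableEq ι] [Field K] [Finite ι] [Finite β]

lemma gk_one (D : Finset ι) : rk (1 : (ι → β) → K) D ≤ 1 :=
  rk_le_one 1 fun v => ⟨1, by
    rw [one_smul]
    rfl⟩

lemma gk_prod {κ : Type} (s : Finset κ) (g : κ → (ι → β) → K) (D : Finset ι) :
    rk (∏ l ∈ s, g l) D ≤ ∏ l ∈ s, rk (g l) D := by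
  classical
  induction s using Finset.induction_on with
  | empty =>
    rw [prod_empty, prod_empty]
    exact gk_one D
  | insert a s ha ih =>
    rw [prod_insert ha, prod_insert ha]
    exact (rk_mul _ _ _).trans (Nat.mul_le_mul_left _ ih)

lemma gk_add (f g : (ι → β) → K) (D : Finset ι) : rk (f + g) D ≤ rk f D + rk g D := by
  refine le_trans (Submodule.finrank_mono ?_) (Submodule.finrank_add_le_finrank_add_finrank
    (Submodule.span K (Set.range (row f D))) (Submodule.span K (Set.range (row g D))))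
  rw [Submodule.span_le]
  rintro _ ⟨v, rfl⟩
  have h1 : row (f + g) D v = row f D v + row g D v := rfl
  rw [h1]
  exact Submodule.add_mem_sup (Submodule.subset_span ⟨v, rfl⟩) (Submodule.subset_span ⟨v, rfl⟩)

lemma gk_neg (f : (ι → β) → K) (D : Finset ι) : rk (-f) D ≤ rk f D := by
  refine Submodule.finrank_mono ?_
  rw [Submodule.span_le]
  rintro _ ⟨v, rfl⟩
  have h1 : row (-f) D v = -row f D v := rfl
  rw [h1]
  exact Submodule.neg_mem _ (Submodule.subset_span ⟨v, rfl⟩)

lemma gk_one_sub (g : (ι → β) → K) (D : Finset ι) : rk (1 - g) D ≤ 1 + rk g D := by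
  rw [sub_eq_add_neg]
  exact (gk_add _ _ _).trans (add_le_add (gk_one D) (gk_neg g D))

/-- powers of the characteristic -/
lemma gk_frob (p : ℕ) [Fact p.Prime] [CharP K p] (f : (ι → β) → K) (D : Finset ι) (i : ℕ) :
    rk (f ^ p ^ i) D ≤ rk f D := by
  classical
  set V := Submodule.span K (Set.range (row f D)) with hV
  set b := Module.finBasis K V with hb
  have h1 : Submodule.span K (Set.range (row (f ^ p ^ i) D)) ≤
      Submodule.span K (Set.range fun l => ((b l : V) : (ι → β) → K) ^ p ^ i) := by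
    rw [Submodule.span_le]
    rintro _ ⟨v, rfl⟩
    have h2 : row (f ^ p ^ i) D v = row f D v ^ p ^ i := rfl
    have h3 : row f D v ∈ V := Submodule.subset_span ⟨v, rfl⟩
    have h4 := congrArg (fun u : V => (u : (ι → β) → K)) (b.sum_repr ⟨row f D v, h3⟩)
    simp only [Submodule.coe_sum, Submodule.coe_smul] at h4
    have h5 : row f D v ^ p ^ i = ∑ l, (b.repr ⟨row f D v, h3⟩ l) ^ p ^ i •
        ((b l : V) : (ι → β) → K) ^ p ^ i := by
      funext w
      have h6 := congrFun h4 w
      rw [Finset.sum_apply] at h6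
      rw [Pi.pow_apply, ← h6, sum_pow_char_pow, Finset.sum_apply]
      refine sum_congr rfl fun l _ => ?_
      rw [Pi.smul_apply, Pi.smul_apply, smul_eq_mul, smul_eq_mul, mul_pow, Pi.pow_apply]
    rw [h2, h5]
    exact Submodule.sum_mem _ fun l _ =>
      Submodule.smul_mem _ _ (Submodule.subset_span ⟨l, rfl⟩)
  refine (Submodule.finrank_mono h1).trans ((finrank_range_le_card _).trans ?_)
  rw [Fintype.card_fin]
  rfl

/-- **The power `2 ^ m - 1`.** -/
theorem gk_pow [CharP K 2] (f : (ι → β) → K) (D : Finset ι) (m : ℕ) :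
    rk (f ^ (2 ^ m - 1)) D ≤ rk f D ^ m := by
  have h1 : f ^ (2 ^ m - 1) = ∏ i ∈ range m, f ^ 2 ^ i := by
    rw [prod_pow_eq_pow_sum, Nat.geomSum_eq le_rfl]
    norm_num
  rw [h1]
  refine (gk_prod _ _ _).trans ?_
  refine (prod_le_prod' fun i _ => gk_frob 2 f D i).trans ?_
  rw [prod_const, card_range]

/-- a function of the letters in `B`, where `B` is contained in `D` or disjoint from `D` -/
lemma gk_dep_one (f : (ι → β) → K) (B D : Finset ι)
    (hf : ∀ w w', (∀ i ∈ B, w i = w' i) → f w = f w') (h : B ⊆ D ∨ Disjoint B D) :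
    rk f D ≤ 1 := by
  rcases h with h | h
  · refine rk_le_one 1 fun v => ⟨f v, ?_⟩
    funext w
    rw [Pi.smul_apply, Pi.one_apply, smul_eq_mul, mul_one]
    refine hf _ _ fun i hi => ?_
    rw [piecewise_eq_of_mem _ _ _ (h hi)]
  · refine rk_le_one f fun v => ⟨1, ?_⟩
    funext w
    rw [Pi.smul_apply, smul_eq_mul, one_mul]
    refine hf _ _ fun i hi => ?_
    rw [piecewise_eq_of_notMem _ _ _ (disjoint_left.1 h hi)]

end Pool.Agent.Helper1.LR
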