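import Pool.Agent.Helper1.LR.Poly

/-!
# Polynomials over a field of characteristic 2: isolation in cubes, and counting
-/

set_option autoImplicit false

namespace Pool.Agent.Helper1.LR

open Finset Module Pool.Agent.Helper84.TN

section Space

variable (J : ℕ) (K : Type) [Field K]

/-- the affine functions of `J` variables in `K` -/
def AffK : Submodule K ((Fin J → K) → K) :=
  Submodule.span K (insert 1 (Set.range fun (i : Fin J) (x : Fin J → K) => x i))

variable {J K}

lemma one_mem_affK : (1 : (Fin J → K) → K) ∈ AffK J K :=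
  Submodule.subset_span (Set.mem_insert _ _)

lemma co_mem_affK (i : Fin J) : (fun x : Fin J → K => x i) ∈ AffK J K :=
  Submodule.subset_span (Set.mem_insert_of_mem _ ⟨i, rfl⟩)

lemma finrank_affK [Finite K] : finrank K (AffK J K) ≤ J + 1 := by
  classical
  have h : (insert 1 (Set.range fun (i : Fin J) (x : Fin J → K) => x i) :
      Set ((Fin J → K) → K)) =
      ((insert 1 (univ.image fun (i : Fin J) (x : Fin J → K) => x i) : Finset _) :
        Set ((Fin J → K) → K)) := by
    push_cast
    rw [Set.image_univ]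
  unfold AffK
  rw [h]
  refine (finrank_span_finset_le_card _).trans ((card_insert_le _ _).trans ?_)
  exact Nat.add_le_add_right (card_image_le.trans (le_of_eq (by simp))) 1

lemma finrank_affK_pow [Finite K] (d : ℕ) : finrank K ↥(AffK J K ^ d) ≤ (J + 1) ^ d := by
  induction d with
  | zero =>
    rw [pow_zero, pow_zero, Submodule.one_eq_span]
    have h := finrank_span_finset_le_card (R := K) ({1} : Finset ((Fin J → K) → K))
    rwa [Finset.coe_singleton, Finset.card_singleton] at h
  | succ d ih =>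
    rw [pow_succ, pow_succ]
    exact (finrank_mul_le _ _).trans (Nat.mul_le_mul ih finrank_affK)

end Space

section Iso

variable {J : ℕ} {K : Type} [Field K] [CharP K 2]

/-- the word of a point of the cube with the corners `p`, `p'` -/
noncomputable def wd (p : Fin J → K) (x : Fin J → K) : Fin J → Fin 2 := by
  classical
  exact fun i => if x i = p i then 0 else 1

lemma wd_inj {p p' x y : Fin J → K} (hx : ∀ i, x i = p i ∨ x i = p' i)
    (hy : ∀ i, y i = p i ∨ y i = p' i) (h : wd p x = wd p y) : x = y := by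
  funext i
  have h1 := congrFun h i
  unfold wd at h1
  by_cases h2 : x i = p i
  · by_cases h3 : y i = p i
    · rw [h2, h3]
    · simp [h2, h3] at h1
  · by_cases h3 : y i = p i
    · simp [h2, h3] at h1
    · rw [(hx i).resolve_left h2, (hy i).resolve_left h3]

lemma lift_pol (p p' : Fin J → K) (d : ℕ) : ∀ g ∈ Pol (Fin J) d, ∃ G ∈ AffK J K ^ d,
    ∀ x : Fin J → K, (∀ i, x i = p i ∨ x i = p' i) →
      G x = ZMod.castHom (dvd_refl 2) K (g (wd p x)) := by
  classical
  have haff : ∀ g ∈ Aff (Fin J), ∃ G ∈ AffK J K,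
      ∀ x : Fin J → K, (∀ i, x i = p i ∨ x i = p' i) →
        G x = ZMod.castHom (dvd_refl 2) K (g (wd p x)) := by
    intro g hg
    induction hg using Submodule.span_induction with
    | mem g hg =>
      rcases hg with rfl | ⟨i, rfl⟩
      · exact ⟨1, one_mem_affK, fun x _ => by simp⟩
      · by_cases h : p i = p' i
        · refine ⟨0, Submodule.zero_mem _, fun x hx => ?_⟩
          have h1 : x i = p i := by
            rcases hx i with h2 | h2
            · exact h2
            · rw [h2, h]
          simp [bitf, wd, h1]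
        · refine ⟨(p' i - p i)⁻¹ • ((fun x : Fin J → K => x i) - p i • 1),
            Submodule.smul_mem _ _ (Submodule.sub_mem _ (co_mem_affK i)
              (Submodule.smul_mem _ _ one_mem_affK)), fun x hx => ?_⟩
          have h0 : p' i - p i ≠ 0 := sub_ne_zero.2 (Ne.symm h)
          simp only [Pi.smul_apply, Pi.sub_apply, Pi.one_apply, smul_eq_mul, mul_one]
          rcases hx i with h2 | h2
          · simp [bitf, wd, h2]
          · have h3 : x i ≠ p i := by
              rw [h2]
              exact Ne.symm h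
            rw [h2, inv_mul_cancel₀ h0]
            have h4 : wd p x i = 1 := by
              unfold wd
              exact if_neg h3
            simp [bitf, h4]
    | zero => exact ⟨0, Submodule.zero_mem _, fun x _ => by simp⟩
    | add g h _ _ hg hh =>
      obtain ⟨G, hG, hG'⟩ := hg
      obtain ⟨H, hH, hH'⟩ := hh
      refine ⟨G + H, Submodule.add_mem _ hG hH, fun x hx => ?_⟩
      rw [Pi.add_apply, Pi.add_apply, hG' x hx, hH' x hx, map_add]
    | smul a g _ hg =>
      obtain ⟨G, hG, hG'⟩ := hg
      refine ⟨ZMod.castHom (dvd_refl 2) K a • G, Submodule.smul_mem _ _ hG, fun x hx => ?_⟩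
      rw [Pi.smul_apply, Pi.smul_apply, smul_eq_mul, smul_eq_mul, hG' x hx, map_mul]
  induction d with
  | zero =>
    intro g hg
    unfold Pol at hg
    rw [pow_zero, Submodule.mem_one] at hg
    obtain ⟨c, rfl⟩ := hg
    refine ⟨ZMod.castHom (dvd_refl 2) K c • 1, ?_, fun x _ => ?_⟩
    · rw [pow_zero]
      exact Submodule.smul_mem _ _ (Submodule.one_le.1 le_rfl)
    · simp [Algebra.algebraMap_eq_smul_one]
  | succ d ih =>
    intro g hg
    unfold Pol at hg
    rw [pow_succ] at hg
    refine Submodule.mul_induction_on hg (fun u hu v hv => ?_) fun u v hu hv => ?_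
    · obtain ⟨G, hG, hG'⟩ := ih u hu
      obtain ⟨H, hH, hH'⟩ := haff v hv
      refine ⟨G * H, ?_, fun x hx => ?_⟩
      · rw [pow_succ]
        exact Submodule.mul_mem_mul hG hH
      · rw [Pi.mul_apply, Pi.mul_apply, hG' x hx, hH' x hx, map_mul]
    · obtain ⟨G, hG, hG'⟩ := hu
      obtain ⟨H, hH, hH'⟩ := hv
      refine ⟨G + H, Submodule.add_mem _ hG hH, fun x hx => ?_⟩
      rw [Pi.add_apply, Pi.add_apply, hG' x hx, hH' x hx, map_add]

/-- **Isolation in a cube.** -/
theorem isoK (p p' : Fin J → K) (d : ℕ) (E : Finset (Fin J → K)) (x₀ : Fin J → K)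
    (hx₀ : x₀ ∉ E) (hx₀c : ∀ i, x₀ i = p i ∨ x₀ i = p' i)
    (hEc : ∀ x ∈ E, ∀ i, x i = p i ∨ x i = p' i) (hE : #E < 2 ^ d) :
    ∃ G ∈ AffK J K ^ d, G x₀ = 1 ∧ ∀ x ∈ E, G x = 0 := by
  classical
  obtain ⟨g, hg, h1, h2⟩ := isolate d (E.image (wd p)) (wd p x₀) (by
    rw [mem_image]
    rintro ⟨x, hx, h⟩
    exact hx₀ (by rwa [← wd_inj (hEc x hx) hx₀c h])) (card_image_le.trans_lt hE)
  obtain ⟨G, hG, hG'⟩ := lift_pol p p' d g hg
  refine ⟨G, hG, ?_, fun x hx => ?_⟩
  · rw [hG' x₀ hx₀c, h1, map_one]
  · rw [hG' x (hEc x hx), h2 _ (mem_image_of_mem _ hx), map_zero]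

end Iso

section Count

variable {X K : Type} [Fintype K] [DecidableEq K] [Field K] [DecidableEq X]

/-- prescribed values at isolated points -/
theorem card_eval [DecidableEq (X → K)] (W : Finset (X → K)) (hadd : ∀ g ∈ W, ∀ h ∈ W, g + h ∈ W)
    (hsmul : ∀ (c : K), ∀ g ∈ W, c • g ∈ W) (τ : X → K) (E : Finset X) :
    (∀ E' ⊆ E, ∀ x₀ ∈ E, x₀ ∉ E' → ∃ g ∈ W, g x₀ = 1 ∧ ∀ x ∈ E', g x = 0) →
      #{g ∈ W | ∀ x ∈ E, g x = τ x} * Fintype.card K ^ #E = #W := by
  induction E using Finset.induction_on with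
  | empty =>
    intro _
    rw [card_empty, pow_zero, mul_one, filter_true_of_mem]
    intro g _ x hx
    exact absurd hx (notMem_empty _)
  | insert x₀ E hx ih =>
    intro hiso
    rw [card_insert_of_notMem hx]
    have ih' := ih fun E' hE' x hxE hxE' =>
      hiso E' (hE'.trans (subset_insert _ _)) x (mem_insert_of_mem hxE) hxE'
    obtain ⟨h, hW, h1, h2⟩ := hiso E (subset_insert _ _) x₀ (mem_insert_self _ _) hx
    set A : Finset (X → K) := {g ∈ W | ∀ x ∈ E, g x = τ x} with hA
    have h4 : {g ∈ W | ∀ x ∈ insert x₀ E, g x = τ x} = {g ∈ A | g x₀ = τ x₀} := by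
      ext g
      simp only [hA, mem_filter, mem_insert, forall_eq_or_imp]
      tauto
    have key : ∀ c : K, #{g ∈ A | g x₀ = c} = #{g ∈ A | g x₀ = τ x₀} := by
      intro c
      refine card_bij' (fun g _ => g + (τ x₀ - c) • h) (fun g _ => g + (c - τ x₀) • h) ?_ ?_ ?_ ?_
      · intro g hg
        rw [mem_filter, hA, mem_filter] at hg ⊢
        obtain ⟨⟨g1, g2⟩, g3⟩ := hg
        refine ⟨⟨hadd g g1 _ (hsmul _ h hW), fun x hxE => ?_⟩, ?_⟩
        · rw [Pi.add_apply, Pi.smul_apply, g2 x hxE, h2 x hxE, smul_zero, add_zero]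
        · rw [Pi.add_apply, Pi.smul_apply, h1, g3, smul_eq_mul, mul_one]
          ring
      · intro g hg
        rw [mem_filter, hA, mem_filter] at hg ⊢
        obtain ⟨⟨g1, g2⟩, g3⟩ := hg
        refine ⟨⟨hadd g g1 _ (hsmul _ h hW), fun x hxE => ?_⟩, ?_⟩
        · rw [Pi.add_apply, Pi.smul_apply, g2 x hxE, h2 x hxE, smul_zero, add_zero]
        · rw [Pi.add_apply, Pi.smul_apply, h1, g3, smul_eq_mul, mul_one]
          ring
      · intro g _
        change g + (τ x₀ - c) • h + (c - τ x₀) • h = g
        rw [add_assoc, ← add_smul]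
        simp
      · intro g _
        change g + (c - τ x₀) • h + (τ x₀ - c) • h = g
        rw [add_assoc, ← add_smul]
        simp
    have h5 : #A = Fintype.card K * #{g ∈ A | g x₀ = τ x₀} := by
      rw [card_eq_sum_card_fiberwise (f := fun g : X → K => g x₀) (t := univ)
        (fun g _ => mem_univ _), sum_congr rfl fun c _ => key c, sum_const, card_univ, smul_eq_mul]
    rw [h4, ← ih', h5, pow_succ]
    ring

end Count

end Pool.Agent.Helper1.LR
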