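import Pool.Agent.Helper1.LR.Both2
import Pool.Agent.Helper29.LS.Uni

/-!
# Sharpness for all sizes of the representation function, up to one logarithm
-/

set_option autoImplicit false

namespace Pool.Agent.Helper1.LR

open Pool.Agent.Helper84.TN (SuppRank)
open Pool.Agent.Helper82.CF (rep)

theorem block2 : Block2 := by
  intro n L J m S₀ h1 h2 h3 h4 h5 h6 h7 h8
  exact Pool.Agent.Helper29.LS.block_set2 h1 h2 h3 h4 h5 h6 h7 h8

/-- **Sharpness for all `M`.** -/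
theorem law2 (d : ℝ) (hd : d < 1 / 2) :
    ∃ C : ℝ, 0 < C ∧ ∀ n M : ℕ, C ≤ n → 2 ≤ M → M ≤ n →
      ∃ (s : ℕ) (S : Finset (Fin n → Fin 2)) (T : Helper84.TN.Tree (Fin n)), T.Proper ∧
        T.set = Finset.univ ∧ (∀ D ∈ T.blocks, SuppRank S D s) ∧
        (s : ℝ) ≤ Real.exp (C * (n / M * Real.log M + Real.log n ^ 3)) ∧
        (2 : ℝ) ^ (d * n) ≤ S.card ∧
        ∀ m, rep {a | ∃ v ∈ S, Pool.Agent.Helper84.TN.value v = a} m ≤ M :=
  law_of block2 d hd

end Pool.Agent.Helper1.LR
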