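import Pool.Agent.Helper1.LR.Both2
import Pool.Agent.Helper1.LR.CutBlock
import Pool.Agent.Helper84.MP.Cut

/-!
# Sharpness for all sizes of the representation function, ranks at all cuts of the digits
-/

set_option autoImplicit false

namespace Pool.Agent.Helper1.LR

open Finset
open Pool.Agent.Helper84.TN (rk row size ind rk_ind rk_mul ind_pos ind_neg SuppRank)
open Pool.Agent.Helper82.CF (rep)
open Pool.Agent.Helper45.TY hiding rep
open Pool.Agent.Helper1.TY
open Pool.Agent.Helper84.MP (ini)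

/-- the conclusion, with the bound `exp B` for the ranks at the initial segments -/
def ConclC (d : ℝ) (n M : ℕ) (B : ℝ) : Prop :=
  ∃ (s : ℕ) (S : Finset (Fin n → Fin 2)), (∀ k, SuppRank S (ini n k) s) ∧ (s : ℝ) ≤ Real.exp B ∧
    (2 : ℝ) ^ (d * n) ≤ #S ∧
    ∀ m, rep {a | ∃ v ∈ S, Pool.Agent.Helper84.TN.value v = a} m ≤ M

lemma ConclC.mono {d : ℝ} {n M : ℕ} {B B' : ℝ} (h : ConclC d n M B) (hB : B ≤ B') :
    ConclC d n M B' := by
  obtain ⟨s, S, h3, h4, h5, h6⟩ := h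
  exact ⟨s, S, h3, h4.trans (Real.exp_le_exp.2 hB), h5, h6⟩

/-- the sets of the levels, ranks at the initial segments -/
theorem exists_cut_set {n' n r R : ℕ} (hn : n' ≤ n) (hR : 2 ≤ R) {Y : Finset ℕ}
    {f' : (Fin n' → Fin 2) → ZMod 2} (h : Good n' r R Y f') :
    ∃ f : (Fin n → Fin 2) → ZMod 2, (∀ k : ℕ, rk f (ini n k) ≤ R) ∧
      (∀ v, f v ≠ 0 ↔ Pool.Agent.Helper84.TN.value v ∈ (Y : Set ℕ)) ∧
      (∀ a ∈ (Y : Set ℕ), a < 2 ^ n) ∧ size f = #Y ∧
      ∀ m, Pool.Agent.Helper82.CF.rep (Y : Set ℕ) m ≤ r := by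
  classical
  obtain ⟨f, hf1, hf2⟩ := pad hn (by omega) h
  have hlt : ∀ a ∈ Y, a < 2 ^ n := by
    intro a ha
    have h1 := h.lt a ha
    have h2 : 2 ^ n' ≤ 2 ^ n := Nat.pow_le_pow_right (by norm_num) hn
    omega
  refine ⟨f, hf2, fun v => ?_, fun a ha => hlt a ha, ?_, fun m => ?_⟩
  · rw [mem_coe]
    exact hf1 v
  · have e1 : size f = ({v | f v ≠ 0} : Set (Fin n → Fin 2)).ncard := by
      unfold size
      rw [← Set.ncard_coe_finset]
      congr 1
      ext v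
      simp
    rw [e1, ← Set.ncard_coe_finset Y, ← Set.ncard_image_of_injective _ value_inj]
    congr 1
    ext x
    rw [mem_coe, Set.mem_image]
    constructor
    · rintro ⟨w, hw, rfl⟩
      exact (hf1 w).1 hw
    · intro hx
      obtain ⟨w, hw⟩ := exists_value (hlt x hx)
      refine ⟨w, (hf1 w).2 ?_, hw⟩
      rwa [hw]
  · refine le_trans (le_of_eq ?_) (h.rep m)
    unfold Pool.Agent.Helper82.CF.rep rpF
    rw [← Set.ncard_coe_finset]
    congr 1
    ext p
    rw [mem_coe, mem_filter, mem_product]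
    constructor
    · rintro ⟨h1, h2, h3⟩; exact ⟨⟨h1, h2⟩, h3⟩
    · rintro ⟨⟨h1, h2⟩, h3⟩; exact ⟨h1, h2, h3⟩

/-- **Sharpness**, ranks at the initial segments. -/
theorem sharp_all2c (d : ℝ) (hd0 : 0 ≤ d) (hd : d < 1 / 2) :
    ∃ C : ℝ, 0 < C ∧ ∀ n M : ℕ, 2 ≤ n → C * Real.log n ≤ M → M ≤ n →
      ∃ (A : Set ℕ) (f : (Fin n → Fin 2) → ZMod 2),
        (∀ k : ℕ, (rk f (ini n k) : ℝ) ≤
          Real.exp (C * (n / M + Real.log n ^ 2) * Real.log n)) ∧
        (∀ v, f v ≠ 0 ↔ Pool.Agent.Helper84.TN.value v ∈ A) ∧ (∀ a ∈ A, a < 2 ^ n) ∧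
        (2 : ℝ) ^ (d * n) ≤ size f ∧ ∀ m, Pool.Agent.Helper82.CF.rep A m ≤ M := by
  set ε : ℝ := (1 / 2 - d) / 2 with hε
  have hε0 : 0 < ε := by rw [hε]; linarith
  have hε4 : ε ≤ 1 / 4 := by rw [hε]; linarith
  set C1 : ℕ := ⌈9 / ε⌉₊ with hC1
  have hC1r : 9 / ε ≤ C1 := Nat.le_ceil _
  have hC1e : 9 ≤ ε * C1 := by
    rw [div_le_iff₀ hε0] at hC1r
    linarith
  have hC10 : (0 : ℝ) ≤ C1 := Nat.cast_nonneg _
  have hC1p : (1 : ℝ) ≤ C1 := by nlinarith
  refine ⟨400 + 40 * C1, by positivity, ?_⟩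
  intro n M hn hCM hMn
  have hn2 : (2 : ℝ) ≤ n := by exact_mod_cast hn
  have hn0 : (0 : ℝ) < n := by linarith
  set ℓ : ℝ := Real.log n with hℓ
  have hlog2 : (0.69 : ℝ) < Real.log 2 := by
    have := Real.log_two_gt_d9
    linarith
  have hlog2' : Real.log 2 ≤ 1 := by
    have := Real.log_two_lt_d9
    linarith
  have hℓ2 : Real.log 2 ≤ ℓ := Real.log_le_log (by norm_num) hn2
  have hℓ0 : (0.69 : ℝ) ≤ ℓ := hlog2.le.trans hℓ2
  have hMr : (276 : ℝ) ≤ M := by nlinarith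
  have hM3 : 3 ≤ M := by
    have : (3 : ℝ) ≤ M := by linarith
    exact_mod_cast this
  have hM0 : (0 : ℝ) < M := by linarith
  have hMnr : (M : ℝ) ≤ n := by exact_mod_cast hMn
  set ρ : ℕ := Nat.clog 2 M with hρ
  have hρ1 : 1 ≤ ρ := by
    rw [hρ, Nat.one_le_iff_ne_zero]
    intro h0
    have h1 : M ≤ 2 ^ Nat.clog 2 M := Nat.le_pow_clog (by norm_num) _
    rw [h0, pow_zero] at h1
    omega
  have hρℓ : (ρ : ℝ) + 1 ≤ 5 * ℓ := by
    have h1 : 2 ^ (ρ - 1) < M := Nat.pow_pred_clog_lt_self (by norm_num) (by omega)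
    have h2 : ((2 : ℝ) ^ (ρ - 1)) ≤ n := by
      have : ((2 ^ (ρ - 1) : ℕ) : ℝ) < M := by exact_mod_cast h1
      push_cast at this
      linarith
    have h3 := Real.log_le_log (by positivity) h2
    rw [Real.log_pow] at h3
    have h4 : ((ρ - 1 : ℕ) : ℝ) = ρ - 1 := by
      rw [Nat.cast_sub hρ1]
      norm_num
    rw [h4] at h3
    have h5 : (1 : ℝ) ≤ ρ := by exact_mod_cast hρ1
    have h6 : ((ρ : ℝ) - 1) * 0.69 ≤ (ρ - 1) * Real.log 2 :=
      mul_le_mul_of_nonneg_left hlog2.le (by linarith)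
    linarith
  set B : ℕ := C1 * (ρ + 1) with hB
  have hB1 : 1 ≤ B := by
    have : 1 ≤ C1 := by exact_mod_cast hC1p
    exact Nat.mul_pos this (by omega)
  have hBr : (B : ℝ) = C1 * (ρ + 1) := by
    rw [hB]
    push_cast
    ring
  have hBℓ : (B : ℝ) ≤ 5 * C1 * ℓ := by
    rw [hBr]
    have := mul_le_mul_of_nonneg_left hρℓ hC10
    linarith
  have hBn : B ≤ n := by
    have h1 : (B : ℝ) ≤ n := by
      have : 0 ≤ C1 * ℓ := mul_nonneg hC10 (by linarith)
      nlinarith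
    exact_mod_cast h1
  set h : ℕ := Nat.log 2 (n / B) with hh
  have hq : 0 < n / B := Nat.div_pos hBn (by omega)
  have h1 : 2 ^ h ≤ n / B := Nat.pow_log_le_self 2 (by omega)
  have h2 : n / B < 2 ^ (h + 1) := Nat.lt_pow_succ_log_self (by norm_num) _
  have hp : 0 < 2 ^ h := by positivity
  set L₀ : ℕ := n / 2 ^ h with hL₀
  have h3 : 2 ^ h * B ≤ n := (Nat.le_div_iff_mul_le (by omega)).1 h1
  have h4 : B ≤ L₀ := (Nat.le_div_iff_mul_le hp).2 (by rw [mul_comm]; exact h3)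
  have h5 : n < 2 ^ (h + 1) * B := (Nat.div_lt_iff_lt_mul (by omega)).1 h2
  have h6 : L₀ < 2 * B := (Nat.div_lt_iff_lt_mul hp).2 (by
    rw [pow_succ] at h5
    calc n < 2 ^ h * 2 * B := h5
      _ = 2 * B * 2 ^ h := by ring)
  have h7 : 2 ^ h * L₀ ≤ n := Nat.mul_div_le _ _
  have h8 : n < 2 ^ h * (L₀ + 1) := Nat.lt_mul_div_succ _ hp
  have h4r : (B : ℝ) ≤ L₀ := by exact_mod_cast h4
  have h6r : (L₀ : ℝ) ≤ 2 * B := by exact_mod_cast h6.le
  have hρr : (1 : ℝ) ≤ ρ := by exact_mod_cast hρ1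
  have hεL : 9 * (ρ + 1) ≤ ε * L₀ := by
    have e1 : ε * B ≤ ε * L₀ := mul_le_mul_of_nonneg_left h4r hε0.le
    rw [hBr] at e1
    nlinarith
  have hδ : (0 : ℝ) ≤ d + ε := by linarith
  have hL : 2 ≤ (1 / 2 - (d + ε)) * (L₀ : ℝ) := by
    have e1 : (1 : ℝ) / 2 - (d + ε) = ε := by rw [hε]; ring
    rw [e1]
    linarith
  have hL1 : 1 ≤ L₀ := hB1.trans h4
  obtain ⟨Y, f', R, T, E, hG, hR, hT, hE, hS⟩ := levels2 hM3 hδ hL hL1 h _ rfl
  set n' : ℕ := 2 ^ h * L₀ with hn'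
  have hn'r : (n' : ℝ) ≤ n := by exact_mod_cast h7
  have hn'e : (n' : ℝ) = 2 ^ h * L₀ := by
    rw [hn']
    push_cast
    ring
  have hn'1 : 1 ≤ n' := Nat.mul_pos hp hL1
  have hMn' : 1 ≤ M * n' := Nat.mul_pos (by omega) hn'1
  have hR2 : 2 ≤ 2 ^ L₀ * (M * n') ^ T := by
    calc 2 = 2 ^ 1 * 1 := by norm_num
      _ ≤ 2 ^ L₀ * (M * n') ^ T :=
        Nat.mul_le_mul (Nat.pow_le_pow_right (by norm_num) hL1) (Nat.one_le_pow _ _ hMn')
  obtain ⟨f, hT3, hT4, hT5, hT6, hT7⟩ :=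
    exists_cut_set (n := n) h7 hR2 (hG.mono hR)
  have hhℓ : (h : ℝ) ≤ 1.5 * ℓ := by
    have e1 : 2 ^ h ≤ n := h1.trans (Nat.div_le_self _ _)
    have e2 : (2 : ℝ) ^ h ≤ n := by exact_mod_cast e1
    have e3 := Real.log_le_log (by positivity) e2
    rw [Real.log_pow] at e3
    have e4 : (h : ℝ) * 0.69 ≤ h * Real.log 2 :=
      mul_le_mul_of_nonneg_left hlog2.le (Nat.cast_nonneg _)
    linarith
  refine ⟨(Y : Set ℕ), f, fun k => ?_, hT4, hT5, ?_, fun m =>
    (hT7 m).trans (Nat.sub_le _ _)⟩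
  · have e1 : (rk f (ini n k) : ℝ) ≤ ((2 ^ L₀ * (M * n') ^ T : ℕ) : ℝ) := by
      exact_mod_cast hT3 k
    refine e1.trans ?_
    have hMn'r : (0 : ℝ) < M * n' := by exact_mod_cast hMn'
    have e2 : ((2 ^ L₀ * (M * n') ^ T : ℕ) : ℝ) =
        Real.exp (L₀ * Real.log 2 + T * Real.log (M * n')) := by
      rw [Real.exp_add, Real.exp_nat_mul, Real.exp_nat_mul, Real.exp_log (by norm_num),
        Real.exp_log hMn'r]
      push_cast
      rfl
    rw [e2]
    refine Real.exp_le_exp.2 ?_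
    have e3 : Real.log (M * n') ≤ 2 * ℓ := by
      have : Real.log (M * n') ≤ Real.log ((n : ℝ) ^ 2) :=
        Real.log_le_log hMn'r (by
          rw [sq]
          exact mul_le_mul hMnr hn'r (Nat.cast_nonneg _) hn0.le)
      rw [Real.log_pow] at this
      push_cast at this
      exact this
    have e3' : 0 ≤ Real.log ((M : ℝ) * n') := Real.log_nonneg (by exact_mod_cast hMn')
    have e4 : (T : ℝ) ≤ 4 * (n / M) + 30 * ℓ ^ 2 := by
      have g1 : 4 * (n' : ℝ) / M ≤ 4 * (n / M) := by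
        rw [mul_div_assoc]
        gcongr
      have g2 : (h : ℝ) * (4 * ρ + 3) ≤ 1.5 * ℓ * (20 * ℓ) := by
        refine mul_le_mul hhℓ (by linarith) (by positivity) (by positivity)
      nlinarith
    have e5 : (T : ℝ) * Real.log (M * n') ≤ (4 * (n / M) + 30 * ℓ ^ 2) * (2 * ℓ) :=
      mul_le_mul e4 e3 e3' (by positivity)
    have e6 : (L₀ : ℝ) * Real.log 2 ≤ 10 * C1 * ℓ := by
      have : (L₀ : ℝ) * Real.log 2 ≤ L₀ * 1 :=
        mul_le_mul_of_nonneg_left hlog2' (Nat.cast_nonneg _)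
      linarith
    have e7 : 10 * C1 * ℓ ≤ 40 * C1 * (ℓ ^ 2 * ℓ) := by
      have g1 : (1 : ℝ) / 4 ≤ ℓ ^ 2 := by nlinarith
      have g2 : 0 ≤ C1 * ℓ := mul_nonneg hC10 (by linarith)
      calc 10 * C1 * ℓ = 40 * (C1 * ℓ) * (1 / 4) := by ring
        _ ≤ 40 * (C1 * ℓ) * ℓ ^ 2 := mul_le_mul_of_nonneg_left g1 (by positivity)
        _ = 40 * C1 * (ℓ ^ 2 * ℓ) := by ring
    have e8 : 0 ≤ (n : ℝ) / M * ℓ := by positivity
    have e9 : 0 ≤ (C1 : ℝ) * ((n : ℝ) / M * ℓ) := by positivity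
    have e10 : 0 ≤ ℓ ^ 2 * ℓ := by positivity
    calc (L₀ : ℝ) * Real.log 2 + T * Real.log (M * n') ≤
        40 * C1 * (ℓ ^ 2 * ℓ) + (4 * (n / M) + 30 * ℓ ^ 2) * (2 * ℓ) :=
          add_le_add (e6.trans e7) e5
      _ = 40 * C1 * (ℓ ^ 2 * ℓ) + 8 * ((n : ℝ) / M * ℓ) + 60 * (ℓ ^ 2 * ℓ) := by
          ring
      _ ≤ (400 + 40 * C1) * (n / M + ℓ ^ 2) * ℓ := by
          have : (400 + 40 * C1) * (n / M + ℓ ^ 2) * ℓ =
            400 * ((n : ℝ) / M * ℓ) + 40 * (C1 * ((n : ℝ) / M * ℓ)) +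
              400 * (ℓ ^ 2 * ℓ) + 40 * C1 * (ℓ ^ 2 * ℓ) := by ring
          rw [this]
          linarith
  · rw [hT6]
    have hn'0 : (0 : ℝ) ≤ n' := Nat.cast_nonneg _
    have g1 : 2 * (n' : ℝ) * h / M ≤ ε / 2 * n' := by
      have : (h : ℝ) ≤ ε / 4 * M := by
        have q1 : (400 + 40 * (C1 : ℝ)) * ℓ * (ε / 4) ≤ M * (ε / 4) :=
          mul_le_mul_of_nonneg_right hCM (by positivity)
        have q2 : 9 * ℓ ≤ ε * C1 * ℓ := mul_le_mul_of_nonneg_right hC1e (by linarith)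
        have q3 : 0 ≤ ℓ * ε := mul_nonneg (by linarith) hε0.le
        nlinarith
      rw [div_le_iff₀ hM0]
      have q4 := mul_le_mul_of_nonneg_left this hn'0
      linarith
    have hpr : (1 : ℝ) ≤ 2 ^ h := one_le_pow₀ (by norm_num)
    have g2 : (2 : ℝ) ^ h * (9 * (ρ + 1)) ≤ ε * n' := by
      rw [hn'e]
      have := mul_le_mul_of_nonneg_left hεL (by positivity : (0 : ℝ) ≤ 2 ^ h)
      linarith
    have g3 : ((2 : ℝ) ^ h - 1) * (4 * ρ + 4) ≤ 4 / 9 * (ε * n') := by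
      have q1 : ((2 : ℝ) ^ h - 1) * (4 * ρ + 4) ≤ 2 ^ h * (4 * ρ + 4) :=
        mul_le_mul_of_nonneg_right (by linarith) (by positivity)
      linarith
    have g4 : d * n ≤ d * n' + ε * n' / 36 := by
      have q1 : (n : ℝ) ≤ n' + 2 ^ h := by
        have : n ≤ n' + 2 ^ h := by
          rw [hn']
          calc n ≤ 2 ^ h * (L₀ + 1) := h8.le
            _ = 2 ^ h * L₀ + 2 ^ h := by ring
        exact_mod_cast this
      have q2 : (2 : ℝ) ^ h * 18 ≤ ε * n' := by
        refine le_trans ?_ g2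
        exact mul_le_mul_of_nonneg_left (by linarith) (by positivity)
      have q3 : d * n ≤ d * (n' + 2 ^ h) := mul_le_mul_of_nonneg_left q1 hd0
      have q4 : d * (2 : ℝ) ^ h ≤ 1 / 2 * 2 ^ h := mul_le_mul_of_nonneg_right hd.le (by positivity)
      linarith
    have g5 : d * n + E ≤ (d + ε) * n' := by
      have q1 : 0 ≤ ε * n' := by positivity
      linarith
    have g6 : (2 : ℝ) ^ (d * n) * 2 ^ E ≤ #Y * 2 ^ E := by
      refine le_trans ?_ hS
      rw [← Real.rpow_natCast _ E, ← Real.rpow_add (by norm_num)]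
      exact Real.rpow_le_rpow_of_exponent_le (by norm_num) g5
    exact le_of_mul_le_mul_right g6 (by positivity)

/-- very small `M`: a Sidon set -/
lemma smallC {d : ℝ} {n M : ℕ} (hd0 : 0 ≤ d) (hn : 1 ≤ n) (hn2 : 2 ≤ (1 / 2 - d) * n)
    (hM : 2 ≤ M) : ConclC d n M (n * Real.log 2) := by
  classical
  obtain ⟨S₀, h1, h2, h3⟩ := exists_sidon (q := 2) (l := n) le_rfl hd0 hn2
  have hlt : ∀ a ∈ (S₀ : Set ℕ), a < 2 ^ n := by
    intro a ha
    have := h1 a ha
    omega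
  set S : Finset (Fin n → Fin 2) := {v | value v ∈ S₀} with hS
  have hmem : ∀ v, v ∈ S ↔ Pool.Agent.Helper84.TN.value v ∈ (S₀ : Set ℕ) := by
    intro v
    rw [hS, mem_filter, mem_coe]
    exact ⟨fun h => h.2, fun h => ⟨mem_univ _, h⟩⟩
  have hcard : #S = #S₀ := by
    refine card_bij (fun v _ => value v) ?_ ?_ ?_
    · intro v hv
      exact (mem_filter.1 hv).2
    · intro v _ v' _ h
      exact value_inj h
    · intro x hx
      obtain ⟨w, hw⟩ := exists_value (hlt x hx)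
      refine ⟨w, mem_filter.2 ⟨mem_univ _, ?_⟩, hw⟩
      rwa [hw]
  refine ⟨2 ^ n, S, fun k => ?_, ?_, ?_, fun m => ?_⟩
  · refine ⟨ZMod 2, inferInstance, fun v => if v ∈ S then 1 else 0, fun v => ?_, ?_⟩
    · by_cases h : v ∈ S <;> simp [h]
    · refine (rk_le_pow _ (ini n k)).trans (Nat.pow_le_pow_right (by norm_num) ?_)
      calc #(ini n k) ≤ #(univ : Finset (Fin n)) := card_le_card (subset_univ _)
        _ = n := by rw [card_univ, Fintype.card_fin]
  · push_cast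
    rw [Real.exp_nat_mul, Real.exp_log (by norm_num)]
  · rw [hcard]
    have := h3
    push_cast at this
    exact this
  · rw [image_eq hmem hlt, rep_coe']
    exact (h2 m).trans hM

/-- `M ≤ n ^ (1 / 3)`: the level sets of helper29 -/
lemma mid2C {d ε : ℝ} {n M : ℕ} (hd0 : 0 ≤ d) (hε : 0 < ε) (hdε : 1 / 2 - (d + ε) = ε)
    (hM0 : 8 ≤ ε * M) (hM3 : M ^ 3 ≤ n) :
    ConclC d n M (20 * (n / M * Real.log M)) := by
  have hε4 : ε ≤ 1 / 4 := by linarith
  have hMr : (32 : ℝ) ≤ M := by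
    have h0 : (0 : ℝ) ≤ M := Nat.cast_nonneg _
    nlinarith
  have hM : 32 ≤ M := by exact_mod_cast hMr
  have hM0' : (0 : ℝ) < M := by linarith
  set J : ℕ := (M - 1) / 2 with hJ
  have hJ1 : 2 * J + 1 ≤ M := by omega
  have hJ2 : M ≤ 2 * J + 2 := by omega
  have hJ3 : 1 ≤ J := by omega
  have hJ4 : M ≤ 4 * J := by omega
  set L : ℕ := n / J with hL
  have hJL : J * L ≤ n := Nat.mul_div_le _ _
  have hnL : n < J * (L + 1) := Nat.lt_mul_div_succ _ (by omega)
  have hL1 : 2 * J * (J + 1) + 1 ≤ L := by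
    refine (Nat.le_div_iff_mul_le (by omega)).2 ?_
    calc (2 * J * (J + 1) + 1) * J ≤ (2 * J + 1) ^ 3 := by nlinarith [Nat.zero_le (J ^ 3)]
      _ ≤ M ^ 3 := Nat.pow_le_pow_left hJ1 3
      _ ≤ n := hM3
  have hLM : M ≤ L := by nlinarith
  have hL0 : 1 ≤ L := by omega
  have hLr : (M : ℝ) ≤ L := by exact_mod_cast hLM
  have hL1r : (1 : ℝ) ≤ L := by exact_mod_cast hL0
  have hsid : 2 ≤ (1 / 2 - (d + ε)) * (L : ℝ) := by
    rw [hdε]
    have := mul_le_mul_of_nonneg_left hLr hε.le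
    linarith
  obtain ⟨S₀, h1, h2, h3⟩ := exists_sidon (q := 2) (l := L) le_rfl (δ := d + ε) (by linarith) hsid
  have h3' : (2 : ℝ) ^ ((d + ε) * (L : ℝ)) ≤ #S₀ := by
    have := h3
    push_cast at this
    exact this
  have hS₀ : #S₀ ≤ 2 ^ L := by
    have : S₀ ⊆ range (2 ^ L) := by
      intro a ha
      rw [mem_range]
      have := h1 a ha
      omega
    exact (card_le_card this).trans (le_of_eq (card_range _))
  obtain ⟨A, S, hT3, hT4, hT5, hT6, hT7⟩ :=
    CutBlock.block_cut2 (n := n) (m := L) hJ3 hL0 hJL h1 h2 hS₀ hL0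
      (Nat.pow_lt_pow_right (by norm_num) (by omega))
  have hJr : (1 : ℝ) ≤ J := by exact_mod_cast hJ3
  refine ⟨_, S, hT3, ?_, ?_, fun m => ?_⟩
  · set lam : ℝ := Real.log M with hlam
    have hlog2 : (0.69 : ℝ) < Real.log 2 := by
      have := Real.log_two_gt_d9
      linarith
    have hlog2' : Real.log 2 ≤ 1 := by
      have := Real.log_two_lt_d9
      linarith
    have hlam2 : Real.log 2 ≤ lam := Real.log_le_log (by norm_num) (by linarith)
    have hlam0 : (0.69 : ℝ) ≤ lam := hlog2.le.trans hlam2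
    have hJJ : 1 ≤ J * (2 * J + 2) := Nat.mul_pos hJ3 (by omega)
    have e1 : ((#S₀ * (1 + (J * (2 * J + 2)) ^ L) : ℕ) : ℝ) ≤
        Real.exp (L * Real.log 2 + (Real.log 2 + L * Real.log ((J * (2 * J + 2) : ℕ) : ℝ))) := by
      rw [Real.exp_add, Real.exp_add, Real.exp_nat_mul, Real.exp_nat_mul,
        Real.exp_log (by norm_num), Real.exp_log (by exact_mod_cast hJJ)]
      have g1 : #S₀ * (1 + (J * (2 * J + 2)) ^ L) ≤ 2 ^ L * (2 * (J * (2 * J + 2)) ^ L) := by
        refine Nat.mul_le_mul hS₀ ?_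
        have : 1 ≤ (J * (2 * J + 2)) ^ L := Nat.one_le_pow _ _ hJJ
        omega
      have g2 : ((#S₀ * (1 + (J * (2 * J + 2)) ^ L) : ℕ) : ℝ) ≤
          ((2 ^ L * (2 * (J * (2 * J + 2)) ^ L) : ℕ) : ℝ) := by exact_mod_cast g1
      refine g2.trans (le_of_eq ?_)
      push_cast
      rfl
    refine e1.trans (Real.exp_le_exp.2 ?_)
    have e3 : Real.log ((J * (2 * J + 2) : ℕ) : ℝ) ≤ 2 * lam := by
      have g1 : J * (2 * J + 2) ≤ M ^ 2 := by nlinarith
      have g2 : ((J * (2 * J + 2) : ℕ) : ℝ) ≤ (M : ℝ) ^ 2 := by exact_mod_cast g1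
      have g3 := Real.log_le_log (by exact_mod_cast hJJ) g2
      rw [Real.log_pow] at g3
      push_cast at g3 ⊢
      exact g3
    have e5 : (L : ℝ) ≤ 4 * (n / M) := by
      have g1 : (L : ℝ) ≤ n / J := Nat.cast_div_le
      have g2 : (n : ℝ) / J ≤ 4 * (n / M) := by
        have g3 : (M : ℝ) ≤ 4 * J := by exact_mod_cast hJ4
        rw [div_le_iff₀ (by linarith)]
        have g4 : (n : ℝ) = n / M * M := by field_simp
        have g5 : 0 ≤ (n : ℝ) / M := by positivity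
        calc (n : ℝ) = n / M * M := g4
          _ ≤ n / M * (4 * J) := mul_le_mul_of_nonneg_left g3 g5
          _ = 4 * (n / M) * J := by ring
      exact g1.trans g2
    have e6 : (2 : ℝ) ≤ 3 * lam := by linarith
    calc (L : ℝ) * Real.log 2 + (Real.log 2 + L * Real.log ((J * (2 * J + 2) : ℕ) : ℝ)) ≤
        L * 1 + (L + L * (2 * lam)) := by
          refine add_le_add (mul_le_mul_of_nonneg_left hlog2' (by linarith))
            (add_le_add (by linarith) (mul_le_mul_of_nonneg_left e3 (by linarith)))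
      _ = L * (2 + 2 * lam) := by ring
      _ ≤ L * (5 * lam) := mul_le_mul_of_nonneg_left (by linarith) (by linarith)
      _ ≤ 4 * (n / M) * (5 * lam) := mul_le_mul_of_nonneg_right e5 (by positivity)
      _ = 20 * (n / M * lam) := by ring
  · have g1 : ((2 : ℝ) ^ ((d + ε) * (L : ℝ))) ^ J ≤ (2 : ℝ) ^ L * #S := by
      calc ((2 : ℝ) ^ ((d + ε) * (L : ℝ))) ^ J ≤ (#S₀ : ℝ) ^ J :=
            pow_le_pow_left₀ (by positivity) h3' J
        _ ≤ (2 : ℝ) ^ L * #S := by exact_mod_cast hT6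
    have g2 : (2 : ℝ) ^ L * (2 : ℝ) ^ (d * n) ≤ ((2 : ℝ) ^ ((d + ε) * (L : ℝ))) ^ J := by
      rw [← Real.rpow_natCast _ L, ← Real.rpow_natCast _ J, ← Real.rpow_mul (by norm_num),
        ← Real.rpow_add (by norm_num)]
      refine Real.rpow_le_rpow_of_exponent_le (by norm_num) ?_
      have q1 : (n : ℝ) ≤ J * (L + 1) := by exact_mod_cast hnL.le
      have q2 : d * n ≤ d * (J * (L + 1)) := mul_le_mul_of_nonneg_left q1 hd0
      have q3 : (2 : ℝ) ≤ ε * J := by
        have g3 : (M : ℝ) ≤ 4 * J := by exact_mod_cast hJ4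
        have := mul_le_mul_of_nonneg_left g3 hε.le
        linarith
      have q4 : 2 * (L : ℝ) ≤ ε * J * L := mul_le_mul_of_nonneg_right q3 (by linarith)
      have q5 : (J : ℝ) ≤ L := by
        have : J ≤ L := by omega
        exact_mod_cast this
      have q6 : d * J ≤ 1 * J := mul_le_mul_of_nonneg_right (by linarith) (by linarith)
      have q7 : (d + ε) * (L : ℝ) * J = d * (J * L) + ε * J * L := by ring
      have q8 : d * (J * ((L : ℝ) + 1)) = d * (J * L) + d * J := by ring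
      rw [q7]
      linarith
    exact le_of_mul_le_mul_left (g2.trans g1) (by positivity)
  · rw [image_eq hT4 fun a ha => (hT5 a ha).trans_le (Nat.pow_le_pow_right (by norm_num) hJL)]
    exact (hT7 m).trans hJ1

/-- `M > n ^ (1 / 3)`: the hierarchical construction -/
lemma large2C {d C1 : ℝ} {n M : ℕ} (hC1 : 0 < C1) (hn : 2 ≤ n)
    (h : ∃ (A : Set ℕ) (f : (Fin n → Fin 2) → ZMod 2),
        (∀ k : ℕ, (rk f (ini n k) : ℝ) ≤
          Real.exp (C1 * (n / M + Real.log n ^ 2) * Real.log n)) ∧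
        (∀ v, f v ≠ 0 ↔ Pool.Agent.Helper84.TN.value v ∈ A) ∧ (∀ a ∈ A, a < 2 ^ n) ∧
        (2 : ℝ) ^ (d * n) ≤ size f ∧ ∀ m, Pool.Agent.Helper82.CF.rep A m ≤ M)
    (hM : 1 ≤ M) (hM3 : n ≤ M ^ 3) :
    ConclC d n M (3 * C1 * (n / M * Real.log M + Real.log n ^ 3)) := by
  classical
  obtain ⟨A, f, hT3, hT4, hT5, hT6, hT7⟩ := h
  set B : ℝ := C1 * (n / M + Real.log n ^ 2) * Real.log n with hB
  refine ConclC.mono (B := B) ?_ ?_
  · set S : Finset (Fin n → Fin 2) := univ.filter fun v => f v ≠ 0 with hS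
    have hmem : ∀ v, v ∈ S ↔ f v ≠ 0 := fun v => by
      rw [hS, mem_filter]
      exact ⟨fun h => h.2, fun h => ⟨mem_univ _, h⟩⟩
    refine ⟨⌊Real.exp B⌋₊, S, fun k => ⟨ZMod 2, inferInstance, f, fun v =>
      (hmem v).symm, Nat.le_floor (hT3 k)⟩, Nat.floor_le (Real.exp_pos _).le, ?_, fun m => ?_⟩
    · refine hT6.trans (le_of_eq ?_)
      have e1 : size f = ({v | f v ≠ 0} : Set (Fin n → Fin 2)).ncard := by
        unfold size
        rw [← Set.ncard_coe_finset]
        congr 1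
        ext v
        simp
      rw [e1, ← Set.ncard_coe_finset]
      congr 2
      ext v
      simp [hS]
    · rw [image_eq (A := A) (fun v => (hmem v).trans (hT4 v)) hT5]
      exact hT7 m
  · have hn0 : (0 : ℝ) < n := by
      have : (2 : ℝ) ≤ n := by exact_mod_cast hn
      linarith
    have hM0 : (0 : ℝ) < M := by exact_mod_cast hM
    have e1 : Real.log n ≤ 3 * Real.log M := by
      have : (n : ℝ) ≤ (M : ℝ) ^ 3 := by exact_mod_cast hM3
      have := Real.log_le_log hn0 this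
      rw [Real.log_pow] at this
      push_cast at this
      exact this
    have e0 : 0 ≤ Real.log n := Real.log_nonneg (by
      have : (2 : ℝ) ≤ n := by exact_mod_cast hn
      linarith)
    have e3 : (n : ℝ) / M * Real.log n ≤ n / M * (3 * Real.log M) :=
      mul_le_mul_of_nonneg_left e1 (by positivity)
    have e4 : 0 ≤ Real.log n ^ 3 := by positivity
    calc B = C1 * (n / M * Real.log n) + C1 * Real.log n ^ 3 := by
          rw [hB]
          ring
      _ ≤ C1 * (n / M * (3 * Real.log M)) + 3 * C1 * Real.log n ^ 3 := by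
          refine add_le_add (mul_le_mul_of_nonneg_left e3 hC1.le) ?_
          have := mul_nonneg hC1.le e4
          linarith
      _ = 3 * C1 * (n / M * Real.log M + Real.log n ^ 3) := by ring

/-- **Sharpness for all `M`**, ranks at all cuts of the digits. -/
theorem law_cut (d : ℝ) (hd : d < 1 / 2) :
    ∃ C : ℝ, 0 < C ∧ ∀ n M : ℕ, C ≤ n → 2 ≤ M → M ≤ n →
      ∃ (s : ℕ) (S : Finset (Fin n → Fin 2)), (∀ k, SuppRank S (ini n k) s) ∧
        (s : ℝ) ≤ Real.exp (C * (n / M * Real.log M + Real.log n ^ 3)) ∧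
        (2 : ℝ) ^ (d * n) ≤ #S ∧
        ∀ m, rep {a | ∃ v ∈ S, Pool.Agent.Helper84.TN.value v = a} m ≤ M := by
  wlog hd0 : 0 ≤ d generalizing d
  · obtain ⟨C, hC, h⟩ := this 0 (by norm_num) le_rfl
    refine ⟨C, hC, fun n M hn hM hMn => ?_⟩
    obtain ⟨s, S, h3, h4, h5, h6⟩ := h n M hn hM hMn
    refine ⟨s, S, h3, h4, le_trans ?_ h5, h6⟩
    refine Real.rpow_le_rpow_of_exponent_le (by norm_num) ?_
    exact mul_le_mul_of_nonneg_right (not_le.1 hd0).le (Nat.cast_nonneg _)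
  set ε : ℝ := (1 / 2 - d) / 2 with hε
  have hε0 : 0 < ε := by rw [hε]; linarith
  have hε4 : ε ≤ 1 / 4 := by rw [hε]; linarith
  have hdε : 1 / 2 - (d + ε) = ε := by rw [hε]; ring
  obtain ⟨C1, hC1, hsharp⟩ := sharp_all2c d hd0 hd
  have hie : (0 : ℝ) < 1 / ε := by positivity
  have h6C : (0 : ℝ) ≤ (6 * C1) ^ 6 := by positivity
  refine ⟨9 * C1 + 30 + 17 * (1 / ε) + (6 * C1) ^ 6, by positivity, ?_⟩
  intro n M hn hM hMn
  have hn30 : (30 : ℝ) ≤ n := by linarith
  have hn2 : 2 ≤ n := by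
    have : (2 : ℝ) ≤ n := by linarith
    exact_mod_cast this
  have hn0 : (0 : ℝ) < n := by linarith
  have hMr : (2 : ℝ) ≤ M := by exact_mod_cast hM
  have hM0 : (0 : ℝ) < M := by linarith
  have hlog2 : (0.69 : ℝ) < Real.log 2 := by
    have := Real.log_two_gt_d9
    linarith
  have hlog2' : Real.log 2 ≤ 1 := by
    have := Real.log_two_lt_d9
    linarith
  have hlam2 : Real.log 2 ≤ Real.log M := Real.log_le_log (by norm_num) hMr
  have hlam0 : (0.69 : ℝ) ≤ Real.log M := hlog2.le.trans hlam2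
  have hnM : 0 ≤ (n : ℝ) / M * Real.log M := by positivity
  have hl4 : 0 ≤ Real.log n ^ 3 := by positivity
  change ConclC d n M _
  by_cases h1 : M ^ 3 ≤ n
  · by_cases h2 : 8 ≤ ε * M
    · refine (mid2C hd0 hε0 hdε h2 h1).mono ?_
      have : (20 : ℝ) * (n / M * Real.log M) ≤
          (9 * C1 + 30 + 17 * (1 / ε) + (6 * C1) ^ 6) * (n / M * Real.log M) :=
        mul_le_mul_of_nonneg_right (by linarith) hnM
      refine this.trans ?_
      exact mul_le_mul_of_nonneg_left (by linarith) (by positivity)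
    · rw [not_le] at h2
      refine (smallC hd0 (by omega) ?_ hM).mono ?_
      · have e1 : (1 : ℝ) / 2 - d = 2 * ε := by rw [hε]; ring
        rw [e1]
        have e2 : 17 * (1 / ε) ≤ n := by linarith
        have e3 : ε * (17 * (1 / ε)) ≤ ε * n := mul_le_mul_of_nonneg_left e2 hε0.le
        have e4 : ε * (17 * (1 / ε)) = 17 := by
          field_simp
        linarith
      · have e1 : (n : ℝ) * Real.log 2 ≤ 17 * (1 / ε) * (n / M * Real.log M) := by
          have g1 : (1 : ℝ) ≤ 17 * (1 / ε) * (1 / M * Real.log M) := by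
            have q1 : (M : ℝ) < 8 * (1 / ε) := by
              rw [mul_one_div, lt_div_iff₀ hε0]
              linarith
            have q2 : (0.476 : ℝ) ≤ Real.log M := by linarith
            have q3 : (1 : ℝ) ≤ 17 * (1 / ε) * 0.476 / M := by
              rw [le_div_iff₀ hM0]
              nlinarith
            calc (1 : ℝ) ≤ 17 * (1 / ε) * 0.476 / M := q3
              _ = 17 * (1 / ε) * (1 / M * 0.476) := by ring
              _ ≤ 17 * (1 / ε) * (1 / M * Real.log M) := by gcongr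
          calc (n : ℝ) * Real.log 2 ≤ n * 1 := mul_le_mul_of_nonneg_left hlog2' hn0.le
            _ ≤ n * (17 * (1 / ε) * (1 / M * Real.log M)) :=
                mul_le_mul_of_nonneg_left g1 hn0.le
            _ = 17 * (1 / ε) * (n / M * Real.log M) := by ring
        refine e1.trans ?_
        have : 17 * (1 / ε) * (n / M * Real.log M) ≤
            (9 * C1 + 30 + 17 * (1 / ε) + (6 * C1) ^ 6) * (n / M * Real.log M) :=
          mul_le_mul_of_nonneg_right (by linarith) hnM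
        refine this.trans ?_
        exact mul_le_mul_of_nonneg_left (by linarith) (by positivity)
  · have h2 : n ≤ M ^ 3 := (not_le.1 h1).le
    have h3 : C1 * Real.log n ≤ M := by
      set y : ℝ := (n : ℝ) ^ (1 / 6 : ℝ) with hy
      have hy6 : y ^ 6 = n := by
        rw [hy, ← Real.rpow_natCast, ← Real.rpow_mul hn0.le]
        norm_num
      have hy0 : 0 < y := by positivity
      have g1 : 6 * C1 ≤ y := by
        by_contra hcon
        rw [not_le] at hcon
        have : y ^ 6 < (6 * C1) ^ 6 := pow_lt_pow_left₀ hcon hy0.le (by norm_num)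
        rw [hy6] at this
        linarith
      have g2 : Real.log n ≤ 6 * y := by
        have := Real.log_le_rpow_div hn0.le (by norm_num : (0 : ℝ) < 1 / 6)
        have e : (n : ℝ) ^ (1 / 6 : ℝ) / (1 / 6) = 6 * y := by
          rw [hy]
          ring
        rwa [e] at this
      have g3 : y ^ 2 ≤ M := by
        by_contra hcon
        rw [not_le] at hcon
        have q1 : (M : ℝ) ^ 3 < (y ^ 2) ^ 3 := pow_lt_pow_left₀ hcon hM0.le (by norm_num)
        have q2 : (y ^ 2) ^ 3 = n := by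
          rw [← pow_mul, hy6]
        rw [q2] at q1
        have q3 : (n : ℝ) ≤ (M : ℝ) ^ 3 := by exact_mod_cast h2
        linarith
      calc C1 * Real.log n ≤ C1 * (6 * y) := mul_le_mul_of_nonneg_left g2 hC1.le
        _ = 6 * C1 * y := by ring
        _ ≤ y * y := mul_le_mul_of_nonneg_right g1 hy0.le
        _ = y ^ 2 := by ring
        _ ≤ M := g3
    refine (large2C hC1 hn2 (hsharp n M hn2 h3 hMn) (by omega) h2).mono ?_
    refine mul_le_mul_of_nonneg_right ?_ (by positivity)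
    linarith

end Pool.Agent.Helper1.LR
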