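import Pool.Agent.Helper1.LR.Step

/-!
# The hierarchical construction
-/

set_option autoImplicit false

namespace Pool.Agent.Helper1.LR

open Finset Pool.Agent.Helper84.TN Pool.Agent.Helper1.TY Pool.Agent.Helper45.TY

lemma base {M L₀ : ℕ} {δ : ℝ} (hM : 3 ≤ M) (hδ : 0 ≤ δ) (hL : 2 ≤ (1 / 2 - δ) * L₀) :
    ∃ (Y : Finset ℕ) (f : (Fin L₀ → Fin 2) → ZMod 2), Good L₀ (M - 1) (2 ^ L₀) Y f ∧
      (2 : ℝ) ^ (δ * L₀) ≤ #Y := by
  classical
  obtain ⟨S₀, h1, h2, h3⟩ := exists_sidon (q := 2) (l := L₀) le_rfl hδ hL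
  have h4 : (2 : ℝ) ^ (δ * (L₀ : ℝ)) ≤ #S₀ := by
    have := h3
    push_cast at this
    exact this
  have h5 : 1 ≤ #S₀ := by
    have h4' : (1 : ℝ) ≤ (2 : ℝ) ^ (δ * (L₀ : ℝ)) := Real.one_le_rpow (by norm_num) (by positivity)
    have h5 : (1 : ℝ) ≤ #S₀ := h4'.trans h4
    exact_mod_cast h5
  refine ⟨S₀, fun w => if LR.value w ∈ S₀ then 1 else 0, ⟨card_pos.1 h5, h1, fun w => ?_,
    fun m => (h2 m).trans (by omega), fun c => ?_⟩, h4⟩
  · by_cases h : LR.value w ∈ S₀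
    · simp [h]
    · simp [h]
  · refine (rk_dep _ univ _ fun w w' h => ?_).trans ?_
    · rw [show w = w' from funext fun i => h i (mem_univ i)]
    · rw [card_univ, Fintype.card_fin]

/-- the number of polynomials in one step -/
def tn (M ρ n : ℕ) : ℕ := 2 * (n + 2) / M + 1 + 4 * ρ

lemma tn_count {M ρ m : ℕ} (hM : 3 ≤ M) (hρ : M ≤ 2 ^ ρ) :
    2 * (2 ^ (m + m + 1) * ((M - 1) ^ 2) ^ M) * 2 ^ tn M ρ (m + m) ≤
      2 ^ (tn M ρ (m + m) * M) := by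
  have h1 : ((M - 1) ^ 2) ^ M ≤ 2 ^ (2 * (ρ * M)) := by
    calc ((M - 1) ^ 2) ^ M ≤ ((2 ^ ρ) ^ 2) ^ M := by
          gcongr
          omega
      _ = 2 ^ (2 * (ρ * M)) := by
          rw [← pow_mul, ← pow_mul]
          congr 1
          ring
  set q := 2 * (m + m + 2) / M with hq
  have h2 : 2 * (m + m + 2) < M * (q + 1) := Nat.lt_mul_div_succ _ (by omega)
  have h3 : tn M ρ (m + m) = q + 1 + 4 * ρ := rfl
  calc 2 * (2 ^ (m + m + 1) * ((M - 1) ^ 2) ^ M) * 2 ^ tn M ρ (m + m) ≤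
      2 * (2 ^ (m + m + 1) * 2 ^ (2 * (ρ * M))) * 2 ^ tn M ρ (m + m) := by
        gcongr
    _ = 2 ^ (m + m + 2 + 2 * (ρ * M) + tn M ρ (m + m)) := by
        ring
    _ ≤ 2 ^ (tn M ρ (m + m) * M) := by
        refine Nat.pow_le_pow_right (by norm_num) ?_
        rw [h3]
        have e1 : (q + 1 + 4 * ρ) * M = M * (q + 1) + 4 * (ρ * M) := by ring
        have e2 : 3 * (q + 1) ≤ M * (q + 1) := Nat.mul_le_mul_right _ hM
        have e3 : ρ * 3 ≤ ρ * M := Nat.mul_le_mul_left _ hM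
        omega

lemma tn_le {M ρ n : ℕ} (hM : 3 ≤ M) : (tn M ρ n : ℝ) ≤ 2 * n / M + (4 * ρ + 7 / 3) := by
  have hM' : (3 : ℝ) ≤ M := by exact_mod_cast hM
  have h1 : ((2 * (n + 2) / M : ℕ) : ℝ) ≤ ((2 * (n + 2) : ℕ) : ℝ) / M := Nat.cast_div_le
  have h2 : ((2 * (n + 2) : ℕ) : ℝ) / M = 2 * n / M + 4 / M := by
    push_cast
    ring
  have h3 : (4 : ℝ) / M ≤ 4 / 3 := by
    gcongr
  unfold tn
  push_cast at h1 h2 ⊢
  linarith

/-- **The construction at level `h`.** -/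
theorem levels {M L₀ : ℕ} {δ : ℝ} (hM : 3 ≤ M) (hδ : 0 ≤ δ) (hL : 2 ≤ (1 / 2 - δ) * L₀)
    (h : ℕ) : ∀ n, n = 2 ^ h * L₀ → ∃ (Y : Finset ℕ) (f : (Fin n → Fin 2) → ZMod 2) (R T E : ℕ),
      Good n (M - 1) R Y f ∧ R ≤ 2 ^ L₀ * (n + 1) ^ (Nat.clog 2 M * T) ∧
      (T : ℝ) ≤ 4 * n / M + h * (4 * Nat.clog 2 M + 3) ∧
      (E : ℝ) ≤ 2 * n * h / M + (2 ^ h - 1) * (4 * Nat.clog 2 M + 4) ∧
      (2 : ℝ) ^ (δ * n) ≤ #Y * 2 ^ E := by
  induction h with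
  | zero =>
    intro n hn
    rw [pow_zero, one_mul] at hn
    subst hn
    obtain ⟨Y, f, h1, h2⟩ := base hM hδ hL
    refine ⟨Y, f, 2 ^ n, 0, 0, h1, ?_, ?_, ?_, ?_⟩
    · rw [mul_zero, pow_zero, mul_one]
    · push_cast
      positivity
    · push_cast
      norm_num
    · rw [pow_zero, mul_one]
      exact h2
  | succ h ih =>
    intro n hn
    obtain ⟨Y, f, R, T, E, hG, hR, hT, hE, hS⟩ := ih _ rfl
    set m := 2 ^ h * L₀ with hm
    have hnm : n = m + m := by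
      rw [hn, hm, pow_succ]
      ring
    subst hnm
    set ρ := Nat.clog 2 M with hρ
    have hMρ : M ≤ 2 ^ ρ := Nat.le_pow_clog (by norm_num) _
    obtain ⟨Y', f', hG', hY'⟩ := step (t := tn M ρ (m + m)) (by omega : 1 ≤ M)
      (tn_count hM hMρ) hG
    have hMr : (3 : ℝ) ≤ M := by exact_mod_cast hM
    have ht := tn_le (ρ := ρ) (n := m + m) hM
    refine ⟨Y', f', _, T + tn M ρ (m + m), 2 * E + tn M ρ (m + m) + 1, hG', ?_, ?_, ?_, ?_⟩
    · calc R * (m + m + 1) ^ (Nat.clog 2 M * tn M ρ (m + m)) ≤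
          2 ^ L₀ * (m + m + 1) ^ (ρ * T) * (m + m + 1) ^ (Nat.clog 2 M * tn M ρ (m + m)) := by
            refine Nat.mul_le_mul_right _ (hR.trans ?_)
            gcongr
            omega
        _ = 2 ^ L₀ * (m + m + 1) ^ (Nat.clog 2 M * (T + tn M ρ (m + m))) := by
            rw [mul_assoc, ← pow_add, mul_add]
    · push_cast at ht ⊢
      have e1 : 4 * ((m : ℝ) + m) / M = 4 * m / M + 2 * (m + m) / M := by ring
      rw [e1]
      linarith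
    · push_cast at ht ⊢
      have e1 : 2 * ((m : ℝ) + m) * (h + 1) / M = 2 * (2 * m * h / M) + 2 * (m + m) / M := by ring
      rw [e1, pow_succ]
      linarith
    · have e1 : (2 : ℝ) ^ (δ * ((m + m : ℕ) : ℝ)) = ((2 : ℝ) ^ (δ * (m : ℝ))) ^ 2 := by
        rw [← Real.rpow_natCast _ 2, ← Real.rpow_mul (by norm_num)]
        congr 1
        push_cast
        ring
      have e2 : ((#Y : ℝ)) ^ 2 ≤ 2 ^ (tn M ρ (m + m) + 1) * #Y' := by exact_mod_cast hY'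
      rw [e1]
      calc ((2 : ℝ) ^ (δ * (m : ℝ))) ^ 2 ≤ (#Y * 2 ^ E) ^ 2 :=
            pow_le_pow_left₀ (by positivity) hS 2
        _ = (#Y : ℝ) ^ 2 * 2 ^ (2 * E) := by
            rw [mul_pow, ← pow_mul]
            ring
        _ ≤ 2 ^ (tn M ρ (m + m) + 1) * #Y' * 2 ^ (2 * E) := by gcongr
        _ = #Y' * 2 ^ (2 * E + tn M ρ (m + m) + 1) := by
            ring

end Pool.Agent.Helper1.LR
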