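import Pool.Agent.Helper84.TN.Rank

/-!
# Polynomials over `ZMod 2` in the digits: unfolding ranks and isolation of points
-/

set_option autoImplicit false

namespace Pool.Agent.Helper1.LR

open Finset Module Pool.Agent.Helper84.TN

variable {ι : Type} [Fintype ι] [DecidableEq ι]

/-- the digit `i` -/
def bitf (i : ι) : (ι → Fin 2) → ZMod 2 := fun w => ((w i : ℕ) : ZMod 2)

/-- the affine functions of the digits -/
def Aff (ι : Type) : Submodule (ZMod 2) ((ι → Fin 2) → ZMod 2) :=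
  Submodule.span (ZMod 2) (insert 1 (Set.range (bitf (ι := ι))))

lemma one_mem_aff : (1 : (ι → Fin 2) → ZMod 2) ∈ Aff ι :=
  Submodule.subset_span (Set.mem_insert _ _)

lemma bitf_mem_aff (i : ι) : bitf i ∈ Aff ι :=
  Submodule.subset_span (Set.mem_insert_of_mem _ ⟨i, rfl⟩)

lemma finrank_aff : finrank (ZMod 2) (Aff ι) ≤ Fintype.card ι + 1 := by
  classical
  have h : (insert 1 (Set.range (bitf (ι := ι))) : Set ((ι → Fin 2) → ZMod 2)) =
      ((insert 1 (univ.image (bitf (ι := ι))) : Finset _) : Set ((ι → Fin 2) → ZMod 2)) := by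
    push_cast
    rw [Set.image_univ]
  unfold Aff
  rw [h]
  refine (finrank_span_finset_le_card _).trans ((card_insert_le _ _).trans ?_)
  exact Nat.add_le_add_right (card_image_le.trans (le_of_eq card_univ)) 1

/-- the polynomials of degree at most `d` in the digits -/
def Pol (ι : Type) (d : ℕ) : Submodule (ZMod 2) ((ι → Fin 2) → ZMod 2) := Aff ι ^ d

lemma finrank_pol (d : ℕ) : finrank (ZMod 2) (Pol ι d) ≤ (Fintype.card ι + 1) ^ d := by
  induction d with
  | zero =>
    unfold Pol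
    rw [pow_zero, pow_zero, Submodule.one_eq_span]
    have h := finrank_span_finset_le_card (R := ZMod 2)
      ({1} : Finset ((ι → Fin 2) → ZMod 2))
    rwa [Finset.coe_singleton, Finset.card_singleton] at h
  | succ d ih =>
    have h1 : Pol ι (d + 1) = Pol ι d * Aff ι := pow_succ _ _
    rw [h1, pow_succ]
    exact (finrank_mul_le _ _).trans (Nat.mul_le_mul ih finrank_aff)

/-- fixing the letters in `D` -/
def fix (D : Finset ι) (v : ι → Fin 2) :
    ((ι → Fin 2) → ZMod 2) →ₐ[ZMod 2] ((ι → Fin 2) → ZMod 2) :=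
  Pi.algHom (ZMod 2) _ fun w => Pi.evalAlgHom (ZMod 2) (fun _ => ZMod 2) (D.piecewise v w)

lemma fix_apply (D : Finset ι) (v : ι → Fin 2) (g : (ι → Fin 2) → ZMod 2) :
    fix D v g = row g D v := rfl

lemma fix_aff (D : Finset ι) (v : ι → Fin 2) : (Aff ι).map (fix D v).toLinearMap ≤ Aff ι := by
  unfold Aff
  rw [Submodule.map_span, Submodule.span_le]
  rintro _ ⟨g, hg, rfl⟩
  rcases hg with rfl | ⟨i, rfl⟩
  · change fix D v 1 ∈ Aff ι
    rw [map_one]
    exact one_mem_aff
  · change fix D v (bitf i) ∈ Aff ι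
    by_cases hi : i ∈ D
    · have : fix D v (bitf i) = bitf i v • (1 : (ι → Fin 2) → ZMod 2) := by
        funext w
        rw [fix_apply]
        simp [row, bitf, hi]
      rw [this]
      exact Submodule.smul_mem _ _ one_mem_aff
    · have : fix D v (bitf i) = bitf i := by
        funext w
        rw [fix_apply]
        simp [row, bitf, hi]
      rw [this]
      exact bitf_mem_aff i

lemma row_pol {d : ℕ} {g : (ι → Fin 2) → ZMod 2} (hg : g ∈ Pol ι d) (D : Finset ι)
    (v : ι → Fin 2) : row g D v ∈ Pol ι d := by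
  have h1 : (Pol ι d).map (fix D v).toLinearMap ≤ Pol ι d := by
    unfold Pol
    rw [Submodule.map_pow]
    exact pow_le_pow_left' (fix_aff D v) d
  exact h1 ⟨g, hg, rfl⟩

/-- the unfolding ranks of a polynomial -/
theorem rk_pol {d : ℕ} {g : (ι → Fin 2) → ZMod 2} (hg : g ∈ Pol ι d) (D : Finset ι) :
    rk g D ≤ (Fintype.card ι + 1) ^ d := by
  refine le_trans (Submodule.finrank_mono ?_) (finrank_pol d)
  rw [Submodule.span_le]
  rintro _ ⟨v, rfl⟩
  exact row_pol hg D v

/-- half of the linear forms vanish at a nonzero vector -/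
lemma half_forms (z : ι → ZMod 2) (hz : z ≠ 0) :
    2 * #{a : ι → ZMod 2 | ∑ i, a i * z i = 0} = Fintype.card (ι → ZMod 2) := by
  obtain ⟨i₀, hi₀⟩ : ∃ i, z i ≠ 0 := by
    by_contra h
    push Not at h
    exact hz (funext h)
  have h01 : ∀ t : ZMod 2, t ≠ 0 → t = 1 := by decide
  have hi1 := h01 _ hi₀
  have h1 : #{a : ι → ZMod 2 | ∑ i, a i * z i = 0} = #{a : ι → ZMod 2 | ¬ ∑ i, a i * z i = 0} := by
    refine card_equiv (Equiv.addRight (Pi.single i₀ (1 : ZMod 2) : ι → ZMod 2)) fun a => ?_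
    rw [mem_filter, mem_filter]
    have h2 : ∑ i, (a + (Pi.single i₀ (1 : ZMod 2) : ι → ZMod 2)) i * z i = ∑ i, a i * z i + 1 := by
      simp only [Pi.add_apply, add_mul, sum_add_distrib]
      congr 1
      rw [sum_eq_single i₀]
      · rw [Pi.single_eq_same, hi1, one_mul]
      · intro b _ hb
        rw [Pi.single_eq_of_ne hb, zero_mul]
      · intro h
        exact absurd (mem_univ _) h
    have h3 : ∀ t : ZMod 2, t = 0 ↔ ¬ (t + 1 = 0) := by decide
    simp only [Equiv.coe_addRight, mem_univ, true_and]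
    rw [h2]
    exact h3 _
  have h2 := card_filter_add_card_filter_not (s := (univ : Finset (ι → ZMod 2)))
    (fun a => ∑ i, a i * z i = 0)
  rw [card_univ] at h2
  omega

/-- an affine form which is `1` at one point and kills half of the others -/
lemma exists_half (x₀ : ι → Fin 2) (E : Finset (ι → Fin 2)) (hE : x₀ ∉ E) :
    ∃ g ∈ Aff ι, g x₀ = 1 ∧ 2 * #{x ∈ E | g x = 1} ≤ #E := by
  let z : (ι → Fin 2) → ι → ZMod 2 := fun x i => bitf i x - bitf i x₀
  have hz : ∀ x ∈ E, z x ≠ 0 := by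
    intro x hx h
    apply hE
    have h1 : x = x₀ := by
      funext i
      have h2 := congrFun h i
      have h3 : ∀ a b : Fin 2, ((a : ℕ) : ZMod 2) - ((b : ℕ) : ZMod 2) = 0 → a = b := by decide
      exact h3 _ _ h2
    rwa [h1] at hx
  let g : (ι → ZMod 2) → (ι → Fin 2) → ZMod 2 := fun a x => 1 + ∑ i, a i * z x i
  have hg : ∀ a, g a ∈ Aff ι := by
    intro a
    have h1 : g a = 1 + ∑ i, (a i • bitf i - (a i * bitf i x₀) • (1 : (ι → Fin 2) → ZMod 2)) := by
      funext x
      simp only [g, z, Pi.add_apply, Pi.one_apply, Finset.sum_apply, Pi.sub_apply, Pi.smul_apply,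
        smul_eq_mul, mul_one, mul_sub]
    rw [h1]
    refine Submodule.add_mem _ one_mem_aff (Submodule.sum_mem _ fun i _ => ?_)
    exact Submodule.sub_mem _ (Submodule.smul_mem _ _ (bitf_mem_aff i))
      (Submodule.smul_mem _ _ one_mem_aff)
  have hx₀ : ∀ a, g a x₀ = 1 := by
    intro a
    simp [g, z]
  have hiff : ∀ a x, g a x = 1 ↔ ∑ i, a i * z x i = 0 := by
    intro a x
    simp [g]
  have hsum : 2 * ∑ a, #{x ∈ E | g a x = 1} = #E * Fintype.card (ι → ZMod 2) := by
    have h1 : ∑ a, #{x ∈ E | g a x = 1} = ∑ x ∈ E, #{a : ι → ZMod 2 | ∑ i, a i * z x i = 0} := by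
      simp only [card_filter, hiff]
      exact sum_comm
    rw [h1, mul_sum, sum_congr rfl fun x hx => half_forms (z x) (hz x hx), sum_const, smul_eq_mul]
  by_contra hcon
  push Not at hcon
  have h1 : ∑ _a : ι → ZMod 2, #E < ∑ a : ι → ZMod 2, 2 * #{x ∈ E | g a x = 1} :=
    sum_lt_sum_of_nonempty ⟨0, mem_univ _⟩ fun a _ => hcon (g a) (hg a) (hx₀ a)
  rw [← mul_sum, hsum, sum_const, card_univ, smul_eq_mul, mul_comm] at h1
  exact lt_irrefl _ h1

/-- **Isolation.** -/
theorem isolate (d : ℕ) : ∀ (E : Finset (ι → Fin 2)) (x₀ : ι → Fin 2), x₀ ∉ E → #E < 2 ^ d →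
    ∃ g ∈ Pol ι d, g x₀ = 1 ∧ ∀ x ∈ E, g x = 0 := by
  induction d with
  | zero =>
    intro E x₀ _ hE
    have h0 : E = ∅ := by
      rw [pow_zero, Nat.lt_one_iff, card_eq_zero] at hE
      exact hE
    refine ⟨1, ?_, rfl, fun x hx => ?_⟩
    · unfold Pol
      rw [pow_zero]
      exact Submodule.one_le.1 le_rfl
    · rw [h0] at hx
      exact absurd hx (notMem_empty _)
  | succ d ih =>
    intro E x₀ hx₀ hE
    obtain ⟨ℓ, hℓ, h1, h2⟩ := exists_half x₀ E hx₀
    obtain ⟨g, hg, h3, h4⟩ := ih {x ∈ E | ℓ x = 1} x₀ (fun h => hx₀ (mem_filter.1 h).1) (by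
      rw [pow_succ] at hE
      omega)
    refine ⟨g * ℓ, ?_, ?_, fun x hx => ?_⟩
    · unfold Pol
      rw [pow_succ]
      exact Submodule.mul_mem_mul hg hℓ
    · rw [Pi.mul_apply, h3, h1, one_mul]
    · rw [Pi.mul_apply]
      by_cases h : ℓ x = 1
      · rw [h4 x (mem_filter.2 ⟨hx, h⟩), zero_mul]
      · have h01 : ∀ t : ZMod 2, t ≠ 1 → t = 0 := by decide
        rw [h01 _ h, mul_zero]

end Pool.Agent.Helper1.LR
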